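import Pool.Agent.Lib.MP_89119d_gt.Alg

namespace Pool.Agent.Lib.MP_89119d_gt

/-! The coefficients `α₀, β₀` of the calibration as functions of `A = |x|²`, `B = |y|²`. -/

/-- the common denominator `16 r⁴ S₂` -/
noncomputable def DD (A B : ℝ) : ℝ :=
  32 * (A + B) ^ 2 + 37 * (A + B) ^ 3 + 70 * ((A - B) * ((A + B) * √(A + B))) + 9 * (A - B) ^ 2

/-- coefficient of `x` -/
noncomputable def alp (A B : ℝ) : ℝ :=
  8 * ((1 - 3 / 4 * (A + B)) * (√(A + B) *
    ((A - B) + 7 * ((A + B) * √(A + B)) + 4 * (A + B)))) / DD A B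

/-- coefficient of `y` -/
noncomputable def bet (A B : ℝ) : ℝ :=
  8 * ((1 - 3 / 4 * (A + B)) * (√(A + B) *
    ((A - B) + 7 * ((A + B) * √(A + B)) - 4 * (A + B)))) / DD A B

section

variable {A B r u : ℝ}

/-- the parametrization by `r` and `u` -/
structure Par (A B r u : ℝ) : Prop where
  r0 : 0 < r
  hA : A = r ^ 2 * (1 + u) / 2
  hB : B = r ^ 2 * (1 - u) / 2
  u1 : |u| ≤ 1

lemma Par.sum (h : Par A B r u) : A + B = r ^ 2 := by rw [h.hA, h.hB]; ring

lemma Par.diff (h : Par A B r u) : A - B = r ^ 2 * u := by rw [h.hA, h.hB]; ring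

lemma Par.sqrt (h : Par A B r u) : √(A + B) = r := by rw [h.sum, Real.sqrt_sq h.r0.le]

lemma Par.DD (h : Par A B r u) : DD A B = 16 * r ^ 4 * S2 r u := by
  unfold Pool.Agent.Lib.MP_89119d_gt.DD S2
  rw [h.sqrt, h.sum, h.diff]
  ring

lemma par_of (hA : 0 ≤ A) (hB : 0 ≤ B) (hs : 0 < A + B) :
    Par A B (√(A + B)) ((A - B) / (A + B)) := by
  have hsq : √(A + B) ^ 2 = A + B := Real.sq_sqrt hs.le
  refine ⟨Real.sqrt_pos.mpr hs, ?_, ?_, ?_⟩
  · rw [hsq]; field_simp; ring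
  · rw [hsq]; field_simp; ring
  · rw [abs_div, abs_of_pos hs, div_le_one hs, abs_le]
    constructor <;> linarith

lemma Par.sq_u (h : Par A B r u) : u ^ 2 ≤ 1 := by
  obtain ⟨h1, h2⟩ := abs_le.mp h.u1
  nlinarith

lemma Par.alp (h : Par A B r u) (hS : S2 r u ≠ 0) :
    alp A B = ze r * (u + 7 * r + 4) * r / (2 * r ^ 2 * S2 r u) := by
  unfold Pool.Agent.Lib.MP_89119d_gt.alp
  rw [h.DD, h.sqrt, h.sum, h.diff]
  have := h.r0.ne'
  unfold ze
  field_simp
  ring

lemma Par.bet (h : Par A B r u) (hS : S2 r u ≠ 0) :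
    bet A B = ze r * (u + 7 * r - 4) * r / (2 * r ^ 2 * S2 r u) := by
  unfold Pool.Agent.Lib.MP_89119d_gt.bet
  rw [h.DD, h.sqrt, h.sum, h.diff]
  have := h.r0.ne'
  unfold ze
  field_simp
  ring

/-- derivative of `α₀` in `A` -/
noncomputable def alpA (A B : ℝ) : ℝ :=
  (8 * (-(3 / 4) * (√(A + B) * ((A - B) + 7 * ((A + B) * √(A + B)) + 4 * (A + B))) +
      (1 - 3 / 4 * (A + B)) * (1 / (2 * √(A + B)) *
          ((A - B) + 7 * ((A + B) * √(A + B)) + 4 * (A + B)) +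
        √(A + B) * (1 + 7 * (√(A + B) + (A + B) * (1 / (2 * √(A + B)))) + 4))) * DD A B -
    8 * ((1 - 3 / 4 * (A + B)) * (√(A + B) *
      ((A - B) + 7 * ((A + B) * √(A + B)) + 4 * (A + B)))) *
      (64 * (A + B) + 111 * (A + B) ^ 2 + 70 * ((A + B) * √(A + B) +
        (A - B) * (√(A + B) + (A + B) * (1 / (2 * √(A + B))))) + 18 * (A - B))) / DD A B ^ 2

/-- derivative of `β₀` in `B` -/
noncomputable def betB (A B : ℝ) : ℝ :=
  (8 * (-(3 / 4) * (√(A + B) * ((A - B) + 7 * ((A + B) * √(A + B)) - 4 * (A + B))) +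
      (1 - 3 / 4 * (A + B)) * (1 / (2 * √(A + B)) *
          ((A - B) + 7 * ((A + B) * √(A + B)) - 4 * (A + B)) +
        √(A + B) * (-1 + 7 * (√(A + B) + (A + B) * (1 / (2 * √(A + B)))) - 4))) * DD A B -
    8 * ((1 - 3 / 4 * (A + B)) * (√(A + B) *
      ((A - B) + 7 * ((A + B) * √(A + B)) - 4 * (A + B)))) *
      (64 * (A + B) + 111 * (A + B) ^ 2 + 70 * (-((A + B) * √(A + B)) +
        (A - B) * (√(A + B) + (A + B) * (1 / (2 * √(A + B))))) - 18 * (A - B))) / DD A B ^ 2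

lemma hasDerivAt_alp (hs : 0 < A + B) (hD : DD A B ≠ 0) :
    HasDerivAt (fun a => alp a B) (alpA A B) A := by
  have h_s : HasDerivAt (fun a => a + B) 1 A := (hasDerivAt_id A).add_const B
  have h_r : HasDerivAt (fun a => √(a + B)) (1 / (2 * √(A + B))) A := h_s.sqrt hs.ne'
  have h_t : HasDerivAt (fun a => a - B) 1 A := (hasDerivAt_id A).sub_const B
  have h_z : HasDerivAt (fun a => 1 - 3 / 4 * (a + B)) (-(3 / 4)) A := by
    have := (h_s.const_mul (3 / 4 : ℝ)).const_sub 1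
    exact this.congr_deriv (by ring)
  have h_sr : HasDerivAt (fun a => (a + B) * √(a + B))
      (√(A + B) + (A + B) * (1 / (2 * √(A + B)))) A :=
    (h_s.mul h_r).congr_deriv (by ring)
  have h_c : HasDerivAt (fun a => (a - B) + 7 * ((a + B) * √(a + B)) + 4 * (a + B))
      (1 + 7 * (√(A + B) + (A + B) * (1 / (2 * √(A + B)))) + 4) A :=
    ((h_t.add (h_sr.const_mul 7)).add (h_s.const_mul 4)).congr_deriv (by ring)
  have h_N := (h_z.mul (h_r.mul h_c)).const_mul (8 : ℝ)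
  have h_D : HasDerivAt (fun a => DD a B)
      (64 * (A + B) + 111 * (A + B) ^ 2 + 70 * ((A + B) * √(A + B) +
        (A - B) * (√(A + B) + (A + B) * (1 / (2 * √(A + B))))) + 18 * (A - B)) A := by
    have e1 := (h_s.pow 2).const_mul (32 : ℝ)
    have e2 := (h_s.pow 3).const_mul (37 : ℝ)
    have e3 := (h_t.mul h_sr).const_mul (70 : ℝ)
    have e4 := (h_t.pow 2).const_mul (9 : ℝ)
    refine (((e1.add e2).add e3).add e4).congr_deriv ?_
    simp only [Nat.cast_ofNat]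
    ring
  refine (h_N.div h_D hD).congr_deriv ?_
  unfold alpA
  rfl

lemma hasDerivAt_bet (hs : 0 < A + B) (hD : DD A B ≠ 0) :
    HasDerivAt (fun b => bet A b) (betB A B) B := by
  have h_s : HasDerivAt (fun b => A + b) 1 B := (hasDerivAt_id B).const_add A
  have h_r : HasDerivAt (fun b => √(A + b)) (1 / (2 * √(A + B))) B := h_s.sqrt hs.ne'
  have h_t : HasDerivAt (fun b => A - b) (-1) B := (hasDerivAt_id B).const_sub A
  have h_z : HasDerivAt (fun b => 1 - 3 / 4 * (A + b)) (-(3 / 4)) B := by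
    have := (h_s.const_mul (3 / 4 : ℝ)).const_sub 1
    exact this.congr_deriv (by ring)
  have h_sr : HasDerivAt (fun b => (A + b) * √(A + b))
      (√(A + B) + (A + B) * (1 / (2 * √(A + B)))) B :=
    (h_s.mul h_r).congr_deriv (by ring)
  have h_c : HasDerivAt (fun b => (A - b) + 7 * ((A + b) * √(A + b)) - 4 * (A + b))
      (-1 + 7 * (√(A + B) + (A + B) * (1 / (2 * √(A + B)))) - 4) B :=
    ((h_t.add (h_sr.const_mul 7)).sub (h_s.const_mul 4)).congr_deriv (by ring)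
  have h_N := (h_z.mul (h_r.mul h_c)).const_mul (8 : ℝ)
  have h_D : HasDerivAt (fun b => DD A b)
      (64 * (A + B) + 111 * (A + B) ^ 2 + 70 * (-((A + B) * √(A + B)) +
        (A - B) * (√(A + B) + (A + B) * (1 / (2 * √(A + B))))) - 18 * (A - B)) B := by
    have e1 := (h_s.pow 2).const_mul (32 : ℝ)
    have e2 := (h_s.pow 3).const_mul (37 : ℝ)
    have e3 := (h_t.mul h_sr).const_mul (70 : ℝ)
    have e4 := (h_t.pow 2).const_mul (9 : ℝ)
    refine (((e1.add e2).add e3).add e4).congr_deriv ?_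
    simp only [Nat.cast_ofNat]
    ring
  refine (h_N.div h_D hD).congr_deriv ?_
  unfold betB
  rfl

/-- the divergence formula -/
lemma Par.divergence (h : Par A B r u) (hS : S2 r u ≠ 0) (m : ℝ) :
    m * (Pool.Agent.Lib.MP_89119d_gt.alp A B + Pool.Agent.Lib.MP_89119d_gt.bet A B) +
      2 * A * alpA A B + 2 * B * betB A B = d0 m r u := by
  rw [h.alp hS, h.bet hS]
  unfold alpA betB
  rw [h.DD, h.sqrt, h.sum, h.diff, h.hA, h.hB]
  have hr := h.r0.ne'
  unfold d0 nd0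
  field_simp
  unfold ze rYS Yz S2
  ring

lemma Par.e0 (h : Par A B r u) (hS : S2 r u ≠ 0) :
    A * Pool.Agent.Lib.MP_89119d_gt.alp A B + B * Pool.Agent.Lib.MP_89119d_gt.bet A B =
      e0 r u := by
  rw [h.alp hS, h.bet hS, h.hA, h.hB]
  have hr := h.r0.ne'
  unfold Pool.Agent.Lib.MP_89119d_gt.e0
  field_simp
  ring

/-- the norm inequality `α₀² A + β₀² B ≤ ζ` -/
lemma Par.norm_le (h : Par A B r u) (hr : r ^ 2 < 6 / 5) :
    Pool.Agent.Lib.MP_89119d_gt.alp A B ^ 2 * A + Pool.Agent.Lib.MP_89119d_gt.bet A B ^ 2 * B ≤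
      ze r := by
  have hSp := S2_pos hr h.sq_u
  have hS := hSp.ne'
  have hz := ze_ge hr
  have hr0 := h.r0
  have key : Pool.Agent.Lib.MP_89119d_gt.alp A B ^ 2 * A +
      Pool.Agent.Lib.MP_89119d_gt.bet A B ^ 2 * B =
      ze r * (1 - ((2 * ze r - S2 r u) / S2 r u) ^ 2) := by
    rw [h.alp hS, h.bet hS, h.hA, h.hB]
    field_simp
    unfold S2 ze
    ring
  rw [key]
  nlinarith [sq_nonneg ((2 * ze r - S2 r u) / S2 r u)]

end

end Pool.Agent.Lib.MP_89119d_gt
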