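import Mathlib

namespace Pool.Agent.Lib.MP_89119d_gt

/-! Real variable algebra of the example, in the variables `r` and `u = (|x|²-|y|²)/r²`. -/

/-- `ζ = 1 - 3 r² / 4` -/
noncomputable def ze (r : ℝ) : ℝ := 1 - 3 / 4 * r ^ 2

/-- `S₂ = ζ + |Y|²` -/
noncomputable def S2 (r u : ℝ) : ℝ := (32 + 37 * r ^ 2 + 70 * r * u + 9 * u ^ 2) / 16

/-- `Y · ∇ ζ` -/
noncomputable def Yz (r u : ℝ) : ℝ := (5 * u + 7 * r) / 4 * (-(3 / 2) * r)

/-- `r Y · ∇ S₂` -/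
noncomputable def rYS (r u : ℝ) : ℝ :=
  r * ((5 * u + 7 * r) / 4) * ((74 * r + 70 * u) / 16) +
    2 * (1 - u ^ 2) * ((70 * r + 18 * u) / 16)

/-- the numerator of `div W` -/
noncomputable def nd0 (m r u : ℝ) : ℝ :=
  2 * ze r * S2 r u * (u * (m / 2 - 5 / 4) + 7 / 2 * m * r) +
    (2 * r * S2 r u * Yz r u - 2 * ze r * rYS r u)

/-- `div W` -/
noncomputable def d0 (m r u : ℝ) : ℝ := nd0 m r u / (r * S2 r u ^ 2)

/-- `W · (x, y)` -/
noncomputable def e0 (r u : ℝ) : ℝ := ze r * r * (5 * u + 7 * r) / (2 * S2 r u)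

/-- leading factor -/
noncomputable def LL (r u : ℝ) : ℝ := 1 - 27 / 16 * u * r - 195 / 16 * r ^ 2

/-- remainder polynomial -/
noncomputable def RR (r u : ℝ) : ℝ :=
  -(19 / 2) + 99 / 32 * u ^ 2 - 95 / 32 * r * u + 81 / 128 * r * u ^ 3 + 79 / 16 * r ^ 2 +
    153 / 32 * r ^ 2 * u ^ 2 + 181 / 8 * r ^ 3 * u + 1369 / 128 * r ^ 4

lemma ze_le_S2 {r u : ℝ} (hu : u ^ 2 ≤ 1) : ze r ≤ S2 r u := by
  unfold ze S2
  nlinarith [sq_nonneg (7 * r + 5 * u)]

lemma ze_ge {r : ℝ} (hr : r ^ 2 < 6 / 5) : 1 / 10 ≤ ze r := by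
  unfold ze; linarith

lemma ze_le_one (r : ℝ) : ze r ≤ 1 := by
  unfold ze; nlinarith [sq_nonneg r]

lemma S2_ge {r u : ℝ} (hr : r ^ 2 < 6 / 5) (hu : u ^ 2 ≤ 1) : 1 / 10 ≤ S2 r u :=
  (ze_ge hr).trans (ze_le_S2 hu)

lemma S2_pos {r u : ℝ} (hr : r ^ 2 < 6 / 5) (hu : u ^ 2 ≤ 1) : 0 < S2 r u := by
  linarith [S2_ge hr hu]

/-- the factorization of `div W - H` -/
lemma d0_sub {m r u : ℝ} (hr0 : r ≠ 0) (hS : S2 r u ≠ 0) :
    d0 m r u - (3 * m - 2) = (u + r) / r * ((m * S2 r u * LL r u + RR r u) / S2 r u ^ 2) := by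
  have key : nd0 m r u - (3 * m - 2) * (r * S2 r u ^ 2) =
      (u + r) * (m * S2 r u * LL r u + RR r u) := by
    unfold nd0 RR LL rYS Yz S2 ze
    ring
  have h2 : d0 m r u - (3 * m - 2) =
      (nd0 m r u - (3 * m - 2) * (r * S2 r u ^ 2)) / (r * S2 r u ^ 2) := by
    unfold d0
    field_simp
  rw [h2, key]
  field_simp

lemma factor_pos {m r u : ℝ} (hm : 10000000 ≤ m) (hr0 : 0 ≤ r) (hr : r ≤ 1 / 6)
    (hu1 : -1 ≤ u) (hu2 : u ≤ 1) : 0 < m * S2 r u * LL r u + RR r u := by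
  have hur1 : -(1 / 6) ≤ u * r := by nlinarith
  have hur2 : u * r ≤ 1 / 6 := by nlinarith
  have hr2 : r ^ 2 ≤ 1 / 36 := by nlinarith
  have hu2' : u ^ 2 ≤ 1 := by nlinarith
  have hS : 1 ≤ S2 r u := by
    unfold S2
    nlinarith [sq_nonneg u, sq_nonneg r]
  have hL : 1 / 10 ≤ LL r u := by
    unfold LL
    nlinarith
  have hSL : 1 / 10 ≤ S2 r u * LL r u := by nlinarith
  have hR : -20 ≤ RR r u := by
    unfold RR
    have e1 : -1 ≤ r * u ^ 3 := by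
      have : r * u ^ 3 = (u * r) * u ^ 2 := by ring
      rw [this]
      nlinarith [sq_nonneg u]
    have e2 : -1 ≤ r ^ 3 * u := by
      have : r ^ 3 * u = (u * r) * r ^ 2 := by ring
      rw [this]
      nlinarith [sq_nonneg r]
    have e3 : 0 ≤ r ^ 4 := by positivity
    have e4 : 0 ≤ r ^ 2 * u ^ 2 := by positivity
    have e5 : r * u ≤ 1 := by linarith [mul_comm r u]
    have e6 : 0 ≤ u ^ 2 := sq_nonneg u
    have e7 : 0 ≤ r ^ 2 := sq_nonneg r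
    nlinarith
  have : m * S2 r u * LL r u = m * (S2 r u * LL r u) := by ring
  rw [this]
  nlinarith

lemma d0_gt {m r u : ℝ} (hm : 10000000 ≤ m) (hr0 : 0 < r) (hr : r ≤ 1 / 6)
    (hu1 : -1 ≤ u) (hu2 : u ≤ 1) (hv : 0 ≤ u + r) : 3 * m - 2 ≤ d0 m r u := by
  have hr2 : r ^ 2 < 6 / 5 := by nlinarith
  have hS := S2_pos (r := r) (u := u) hr2 (by nlinarith)
  have h := d0_sub (m := m) hr0.ne' hS.ne'
  have hp := factor_pos hm hr0.le hr hu1 hu2
  have : 0 ≤ (u + r) / r * ((m * S2 r u * LL r u + RR r u) / S2 r u ^ 2) := by positivity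
  linarith

lemma d0_lt {m r u : ℝ} (hm : 10000000 ≤ m) (hr0 : 0 < r) (hr : r ≤ 1 / 6)
    (hu1 : -1 ≤ u) (hu2 : u ≤ 1) (hv : u + r ≤ 0) : d0 m r u ≤ 3 * m - 2 := by
  have hr2 : r ^ 2 < 6 / 5 := by nlinarith
  have hS := S2_pos (r := r) (u := u) hr2 (by nlinarith)
  have h := d0_sub (m := m) hr0.ne' hS.ne'
  have hp := factor_pos hm hr0.le hr hu1 hu2
  have : (u + r) / r * ((m * S2 r u * LL r u + RR r u) / S2 r u ^ 2) ≤ 0 := by
    apply mul_nonpos_of_nonpos_of_nonneg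
    · exact div_nonpos_of_nonpos_of_nonneg hv hr0.le
    · positivity
  linarith

lemma r_lt_two {r : ℝ} (hr : r ^ 2 < 6 / 5) : r < 2 := by nlinarith

lemma abs_S2_le {r u : ℝ} (hr0 : 0 ≤ r) (hr : r < 2) (hu : |u| ≤ 1) : |S2 r u| ≤ 21 := by
  obtain ⟨h1, h2⟩ := abs_le.mp hu
  have hr2 : r ^ 2 ≤ 4 := by nlinarith
  have hru1 : -2 ≤ r * u := by nlinarith
  have hru2 : r * u ≤ 2 := by nlinarith
  have hu2 : u ^ 2 ≤ 1 := by nlinarith
  rw [abs_le]
  unfold S2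
  constructor
  · nlinarith [sq_nonneg r, sq_nonneg u]
  · nlinarith [sq_nonneg r, sq_nonneg u]

lemma abs_Yz_le {r u : ℝ} (hr0 : 0 ≤ r) (hr : r < 2) (hu : |u| ≤ 1) : |Yz r u| ≤ 15 := by
  unfold Yz
  rw [abs_mul]
  have h1 : |(5 * u + 7 * r) / 4| ≤ 5 := by
    obtain ⟨h1, h2⟩ := abs_le.mp hu
    rw [abs_le]; constructor <;> linarith
  have h2 : |-(3 / 2) * r| ≤ 3 := by
    rw [abs_le]; constructor <;> linarith
  calc |(5 * u + 7 * r) / 4| * |-(3 / 2) * r| ≤ 5 * 3 :=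
        mul_le_mul h1 h2 (abs_nonneg _) (by norm_num)
    _ = 15 := by norm_num

lemma abs_rYS_le {r u : ℝ} (hr0 : 0 ≤ r) (hr : r < 2) (hu : |u| ≤ 1) : |rYS r u| ≤ 200 := by
  unfold rYS
  obtain ⟨h1, h2⟩ := abs_le.mp hu
  have a1 : |r * ((5 * u + 7 * r) / 4)| ≤ 10 := by
    rw [abs_mul, abs_of_nonneg hr0]
    have : |(5 * u + 7 * r) / 4| ≤ 5 := by
      rw [abs_le]; constructor <;> linarith
    nlinarith [abs_nonneg ((5 * u + 7 * r) / 4)]
  have a2 : |(74 * r + 70 * u) / 16| ≤ 14 := by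
    rw [abs_le]; constructor <;> linarith
  have a3 : |2 * (1 - u ^ 2)| ≤ 2 := by
    rw [abs_le]; constructor <;> nlinarith
  have a4 : |(70 * r + 18 * u) / 16| ≤ 10 := by
    rw [abs_le]; constructor <;> linarith
  calc |r * ((5 * u + 7 * r) / 4) * ((74 * r + 70 * u) / 16) +
        2 * (1 - u ^ 2) * ((70 * r + 18 * u) / 16)|
      ≤ |r * ((5 * u + 7 * r) / 4) * ((74 * r + 70 * u) / 16)| +
        |2 * (1 - u ^ 2) * ((70 * r + 18 * u) / 16)| := abs_add_le _ _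
    _ = |r * ((5 * u + 7 * r) / 4)| * |(74 * r + 70 * u) / 16| +
        |2 * (1 - u ^ 2)| * |(70 * r + 18 * u) / 16| := by rw [abs_mul, abs_mul (2 * (1 - u ^ 2))]
    _ ≤ 10 * 14 + 2 * 10 := by
        apply add_le_add
        · exact mul_le_mul a1 a2 (abs_nonneg _) (by norm_num)
        · exact mul_le_mul a3 a4 (abs_nonneg _) (by norm_num)
    _ ≤ 200 := by norm_num

lemma abs_G_le {r u : ℝ} (hr0 : 0 ≤ r) (hr : r ^ 2 < 6 / 5) (hu : |u| ≤ 1) :
    |2 * r * S2 r u * Yz r u - 2 * ze r * rYS r u| ≤ 2000 := by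
  have hr2 := r_lt_two hr
  have h1 := abs_S2_le hr0 hr2 hu
  have h2 := abs_Yz_le hr0 hr2 hu
  have h3 := abs_rYS_le hr0 hr2 hu
  have h4 : |2 * r| ≤ 4 := by rw [abs_le]; constructor <;> linarith
  have h5 : |2 * ze r| ≤ 2 := by
    have := ze_ge hr
    have := ze_le_one r
    rw [abs_le]; constructor <;> linarith
  calc |2 * r * S2 r u * Yz r u - 2 * ze r * rYS r u|
      ≤ |2 * r * S2 r u * Yz r u| + |2 * ze r * rYS r u| := abs_sub _ _
    _ = |2 * r| * |S2 r u| * |Yz r u| + |2 * ze r| * |rYS r u| := by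
        rw [abs_mul, abs_mul (2 * r), abs_mul (2 * ze r)]
    _ ≤ 4 * 21 * 15 + 2 * 200 := by
        apply add_le_add
        · apply mul_le_mul _ h2 (abs_nonneg _) (by norm_num)
          exact mul_le_mul h4 h1 (abs_nonneg _) (by norm_num)
        · exact mul_le_mul h5 h3 (abs_nonneg _) (by norm_num)
    _ ≤ 2000 := by norm_num

lemma d0_pos {m r u : ℝ} (hm : 10000000 ≤ m) (hr0 : 3 / 20 ≤ r) (hr : r ^ 2 < 6 / 5)
    (hu : |u| ≤ 1) : 0 < d0 m r u := by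
  obtain ⟨hu1, hu2⟩ := abs_le.mp hu
  have hS := S2_ge (r := r) (u := u) hr (by nlinarith)
  have hz := ze_ge hr
  have hG := abs_G_le (by linarith) hr hu
  have hnum : 0 < nd0 m r u := by
    unfold nd0
    have h1 : m / 40 ≤ u * (m / 2 - 5 / 4) + 7 / 2 * m * r := by
      have e1 : -(m / 2 - 5 / 4) ≤ u * (m / 2 - 5 / 4) := by nlinarith
      have e2 : 7 / 2 * m * (3 / 20) ≤ 7 / 2 * m * r := by
        apply mul_le_mul_of_nonneg_left hr0
        linarith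
      linarith
    have h2 : (1 : ℝ) / 50 ≤ 2 * ze r * S2 r u := by nlinarith
    have h3 : 5000 ≤ 2 * ze r * S2 r u * (u * (m / 2 - 5 / 4) + 7 / 2 * m * r) := by
      have : (1 : ℝ) / 50 * (m / 40) ≤
          2 * ze r * S2 r u * (u * (m / 2 - 5 / 4) + 7 / 2 * m * r) :=
        mul_le_mul h2 h1 (by linarith) (by linarith)
      linarith
    have h4 := (abs_le.mp hG).1
    linarith
  unfold d0
  apply div_pos hnum
  have : 0 < r := by linarith
  positivity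

lemma abs_d0_le {m r u : ℝ} (hm : 10000000 ≤ m) (hr0 : 0 < r) (hr : r ^ 2 < 6 / 5)
    (hu : |u| ≤ 1) : |d0 m r u| ≤ (50000 * m) / r := by
  obtain ⟨hu1, hu2⟩ := abs_le.mp hu
  have hr2 := r_lt_two hr
  have hS := S2_ge (r := r) (u := u) hr (by nlinarith)
  have hz := ze_ge hr
  have hz1 := ze_le_one r
  have hG := abs_G_le hr0.le hr hu
  have hS1 := (abs_le.mp (abs_S2_le hr0.le hr2 hu)).2
  have h1 : |u * (m / 2 - 5 / 4) + 7 / 2 * m * r| ≤ 8 * m := by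
    have e1 : |u * (m / 2 - 5 / 4)| ≤ m / 2 := by
      rw [abs_mul, abs_of_nonneg (show (0 : ℝ) ≤ m / 2 - 5 / 4 by linarith)]
      nlinarith
    have e2 : |7 / 2 * m * r| ≤ 7 * m := by
      rw [abs_of_nonneg (by positivity)]
      nlinarith
    calc |u * (m / 2 - 5 / 4) + 7 / 2 * m * r| ≤ |u * (m / 2 - 5 / 4)| + |7 / 2 * m * r| :=
          abs_add_le _ _
      _ ≤ m / 2 + 7 * m := add_le_add e1 e2
      _ ≤ 8 * m := by linarith
  have hnum : |nd0 m r u| ≤ 500 * m := by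
    unfold nd0
    have h2 : |2 * ze r * S2 r u| ≤ 42 := by
      rw [abs_of_nonneg (by positivity)]
      nlinarith
    calc |2 * ze r * S2 r u * (u * (m / 2 - 5 / 4) + 7 / 2 * m * r) +
          (2 * r * S2 r u * Yz r u - 2 * ze r * rYS r u)|
        ≤ |2 * ze r * S2 r u * (u * (m / 2 - 5 / 4) + 7 / 2 * m * r)| +
          |2 * r * S2 r u * Yz r u - 2 * ze r * rYS r u| := abs_add_le _ _
      _ = |2 * ze r * S2 r u| * |u * (m / 2 - 5 / 4) + 7 / 2 * m * r| +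
          |2 * r * S2 r u * Yz r u - 2 * ze r * rYS r u| := by rw [abs_mul (2 * ze r * S2 r u)]
      _ ≤ 42 * (8 * m) + 2000 := by
          apply add_le_add _ hG
          exact mul_le_mul h2 h1 (abs_nonneg _) (by norm_num)
      _ ≤ 500 * m := by linarith
  have hden : 1 / 100 ≤ S2 r u ^ 2 := by nlinarith
  unfold d0
  rw [abs_div, abs_of_pos (show 0 < r * S2 r u ^ 2 by positivity)]
  rw [div_le_div_iff₀ (by positivity) hr0]
  have : 50000 * m * (r * S2 r u ^ 2) = (50000 * m * S2 r u ^ 2) * r := by ring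
  rw [this]
  apply mul_le_mul_of_nonneg_right _ hr0.le
  nlinarith

lemma e0_ge {r u : ℝ} (hr1 : 1 ≤ r) (hr : r ^ 2 < 6 / 5) (hu : |u| ≤ 1) :
    1 / 1000 ≤ e0 r u := by
  obtain ⟨hu1, hu2⟩ := abs_le.mp hu
  have hr2 := r_lt_two hr
  have hS := S2_ge (r := r) (u := u) hr (by nlinarith)
  have hz := ze_ge hr
  have hS1 := (abs_le.mp (abs_S2_le (by linarith) hr2 hu)).2
  unfold e0
  rw [div_le_div_iff₀ (by norm_num) (by positivity)]
  have h1 : (1 : ℝ) / 10 ≤ ze r * r := by nlinarith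
  have h2 : 2 ≤ 5 * u + 7 * r := by linarith
  have h3 : (1 : ℝ) / 10 * 2 ≤ ze r * r * (5 * u + 7 * r) :=
    mul_le_mul h1 h2 (by norm_num) (by positivity)
  nlinarith

lemma abs_e0_le {r u : ℝ} (hr0 : 0 ≤ r) (hr : r ^ 2 < 6 / 5) (hu : |u| ≤ 1) :
    |e0 r u| ≤ 100 * r := by
  obtain ⟨hu1, hu2⟩ := abs_le.mp hu
  have hr2 := r_lt_two hr
  have hS := S2_ge (r := r) (u := u) hr (by nlinarith)
  have hz := ze_ge hr
  have hz1 := ze_le_one r
  unfold e0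
  rw [abs_div, abs_of_pos (show 0 < 2 * S2 r u by positivity), div_le_iff₀ (by positivity)]
  rw [abs_mul, abs_mul, abs_of_nonneg hr0, abs_of_nonneg (show 0 ≤ ze r by linarith)]
  have h1 : |5 * u + 7 * r| ≤ 20 := by
    rw [abs_le]; constructor <;> linarith
  calc ze r * r * |5 * u + 7 * r| ≤ 1 * r * 20 := by
        apply mul_le_mul _ h1 (abs_nonneg _) (by positivity)
        exact mul_le_mul_of_nonneg_right hz1 hr0
    _ ≤ 100 * r * (2 * S2 r u) := by nlinarith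

end Pool.Agent.Lib.MP_89119d_gt
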