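import Pool.Agent.Lib.MP_89119d_gt.Flux

namespace Pool.Agent.Lib.MP_89119d_gt

open MeasureTheory Set Topology Filter
open scoped ENNReal ContDiff Matrix

variable {ι : Type} [Fintype ι] [DecidableEq ι]

lemma det_pos {M : Set (ι → ℝ)} {g : (ι → ℝ) → Matrix ι ι ℝ} (hg : IsRiemannianOn M g)
    {x : ι → ℝ} (hx : x ∈ M) : 0 < (g x).det := (hg.2.2 x hx).det_pos

lemma dens_pos {M : Set (ι → ℝ)} {g : (ι → ℝ) → Matrix ι ι ℝ} (hg : IsRiemannianOn M g)
    {x : ι → ℝ} (hx : x ∈ M) : 0 < dens g x := Real.sqrt_pos.mpr (det_pos hg hx)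

lemma contDiffOn_det {M : Set (ι → ℝ)} {g : (ι → ℝ) → Matrix ι ι ℝ} (hg : IsRiemannianOn M g) :
    ContDiffOn ℝ ∞ (fun x => (g x).det) M := by
  have : (fun x => (g x).det) =
      fun x => ∑ σ : Equiv.Perm ι, ((Equiv.Perm.sign σ : ℤ) : ℝ) * ∏ i, g x (σ i) i := by
    funext x
    rw [Matrix.det_apply']
  rw [this]
  apply ContDiffOn.sum
  intro σ _
  apply contDiffOn_const.mul
  apply contDiffOn_prod
  intro i _
  exact hg.2.1 (σ i) i

lemma contDiffOn_dens {M : Set (ι → ℝ)} {g : (ι → ℝ) → Matrix ι ι ℝ} (hg : IsRiemannianOn M g) :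
    ContDiffOn ℝ ∞ (dens g) M :=
  (contDiffOn_det hg).sqrt (fun _ hx => (det_pos hg hx).ne')

lemma nsq_smul (g : (ι → ℝ) → Matrix ι ι ℝ) (x : ι → ℝ) (c : ℝ) (v : ι → ℝ) :
    nsq g x (c • v) = c ^ 2 * nsq g x v := by
  unfold nsq
  rw [Matrix.mulVec_smul, smul_dotProduct, dotProduct_smul]
  simp only [smul_eq_mul]
  ring

/-- a field that is smooth on an open set and compactly supported there is smooth -/
lemma contDiff_smul_of_tsupport {O : Set (ι → ℝ)} (hO : IsOpen O) {φ : (ι → ℝ) → ℝ}
    {V : (ι → ℝ) → (ι → ℝ)} {n : WithTop ℕ∞} (hφ : ContDiff ℝ n φ) (hs : tsupport φ ⊆ O)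
    (hV : ContDiffOn ℝ n V O) : ContDiff ℝ n (fun x => φ x • V x) := by
  rw [contDiff_iff_contDiffAt]
  intro x
  by_cases hx : x ∈ tsupport φ
  · exact hφ.contDiffAt.smul (hV.contDiffAt (hO.mem_nhds (hs hx)))
  · have hz := notMem_tsupport_iff_eventuallyEq.mp hx
    have : (fun x => φ x • V x) =ᶠ[𝓝 x] (fun _ => 0) := by
      filter_upwards [hz] with y hy
      rw [hy, Pi.zero_apply, zero_smul]
    exact contDiffAt_const.congr_of_eventuallyEq this

lemma contDiff_smul_of_tsupport' {O : Set (ι → ℝ)} (hO : IsOpen O) {φ : (ι → ℝ) → ℝ}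
    {V : (ι → ℝ) → (ι → ℝ)} {n : WithTop ℕ∞} (hφ : ContDiffOn ℝ n φ O) (hs : tsupport V ⊆ O)
    (hV : ContDiff ℝ n V) : ContDiff ℝ n (fun x => φ x • V x) := by
  rw [contDiff_iff_contDiffAt]
  intro x
  by_cases hx : x ∈ tsupport V
  · exact (hφ.contDiffAt (hO.mem_nhds (hs hx))).smul hV.contDiffAt
  · have hz := notMem_tsupport_iff_eventuallyEq.mp hx
    have : (fun x => φ x • V x) =ᶠ[𝓝 x] (fun _ => 0) := by
      filter_upwards [hz] with y hy
      rw [hy, Pi.zero_apply, smul_zero]
    exact contDiffAt_const.congr_of_eventuallyEq this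

/-- the data of a calibration with constant mean curvature `H` -/
structure CalibData (M : Set (ι → ℝ)) (g : (ι → ℝ) → Matrix ι ι ℝ) (F : (ι → ℝ) → ℝ)
    (W : (ι → ℝ) → (ι → ℝ)) (H : ℝ) (S : Set (ι → ℝ)) (η : ℕ → (ι → ℝ) → ℝ) : Prop where
  hg : IsRiemannianOn M g
  hO : IsOpen (M \ S)
  hS : volume S = 0
  hFc : Continuous F
  hF : ContDiffOn ℝ 1 F (M \ S)
  hW : ContDiffOn ℝ ∞ W (M \ S)
  hW1 : ∀ x ∈ M \ S, nsq g x (W x) ≤ dens g x ^ 2
  hη : ∀ j, ContDiff ℝ ∞ (η j)
  hηc : ∀ j, HasCompactSupport (η j)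
  hηs : ∀ j, tsupport (η j) ⊆ M \ S
  hη0 : ∀ j x, 0 ≤ η j x
  hη1 : ∀ j x, η j x ≤ 1
  hηlim : ∀ x ∈ M \ S, Tendsto (fun j => η j x) atTop (𝓝 1)
  hηK : ∀ K, IsCompact K → K ⊆ M →
    Tendsto (fun j => ∫ x in K, ‖fderiv ℝ (η j) x‖) atTop (𝓝 0)
  hηE : ∀ E, MeasurableSet E → E ⊆ M → vol M g E < ⊤ →
    Tendsto (fun j => ∫ x in E, |fderiv ℝ (η j) x (W x)|) atTop (𝓝 0)
  hdiv : ∀ E, MeasurableSet E → E ⊆ M → vol M g E < ⊤ → IntegrableOn (dvg W) E
  hcal : ∀ K, IsCompact K → K ⊆ M \ S → ∃ C : ℝ, ∀ x ∈ K, ∀ v, nsq g x v ≤ dens g x ^ 2 →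
    fderiv ℝ F x v ≤ fderiv ℝ F x (W x) + C * |F x|
  hpos : ∀ x ∈ M \ S, 0 ≤ F x → H * dens g x ≤ dvg W x
  hneg : ∀ x ∈ M \ S, F x < 0 → dvg W x ≤ H * dens g x

section

variable {M : Set (ι → ℝ)} {g : (ι → ℝ) → Matrix ι ι ℝ} {F : (ι → ℝ) → ℝ}
  {W : (ι → ℝ) → (ι → ℝ)} {H : ℝ} {S : Set (ι → ℝ)} {η : ℕ → (ι → ℝ) → ℝ}

lemma gdiv_mul_dens (hg : IsRiemannianOn M g) {x : ι → ℝ} (hx : x ∈ M)
    (X : (ι → ℝ) → (ι → ℝ)) : gdiv g X x * dens g x = dvg (fun y => dens g y • X y) x := by
  unfold gdiv
  have := (dens_pos hg hx).ne'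
  field_simp

lemma contDiff_dens_smul (hg : IsRiemannianOn M g) {X : (ι → ℝ) → (ι → ℝ)}
    (hX : X ∈ testFields M g) : ContDiff ℝ ∞ (fun y => dens g y • X y) :=
  contDiff_smul_of_tsupport' hg.1 (contDiffOn_dens hg) hX.2.2.1 hX.1

lemma hasCompactSupport_dens_smul {X : (ι → ℝ) → (ι → ℝ)}
    (hX : X ∈ testFields M g) : HasCompactSupport (fun y => dens g y • X y) := by
  apply HasCompactSupport.intro' hX.2.1.isCompact (isClosed_tsupport X)
  intro x hx
  have : X x = 0 := image_eq_zero_of_notMem_tsupport hx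
  simp only [this, smul_zero]

lemma setIntegral_gdiv (hg : IsRiemannianOn M g) {E : Set (ι → ℝ)} (hE : MeasurableSet E)
    (hEM : E ⊆ M) (X : (ι → ℝ) → (ι → ℝ)) :
    ∫ x in E ∩ M, gdiv g X x * dens g x = ∫ x in E, dvg (fun y => dens g y • X y) x := by
  rw [inter_eq_left.mpr hEM]
  apply setIntegral_congr_fun hE
  intro x hx
  exact gdiv_mul_dens hg (hEM hx) X

namespace CalibData

lemma contDiff_ηW (h : CalibData M g F W H S η) (j : ℕ) :
    ContDiff ℝ ∞ (fun x => η j x • W x) :=
  contDiff_smul_of_tsupport h.hO (h.hη j) (h.hηs j) h.hW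

lemma hasCompactSupport_ηW (h : CalibData M g F W H S η) (j : ℕ) :
    HasCompactSupport (fun x => η j x • W x) := by
  apply HasCompactSupport.intro' (h.hηc j).isCompact (isClosed_tsupport _)
  intro x hx
  have : η j x = 0 := image_eq_zero_of_notMem_tsupport hx
  simp only [this, zero_smul]

lemma dvg_ηV (h : CalibData M g F W H S η) (j : ℕ) {V : (ι → ℝ) → (ι → ℝ)}
    (hV : ContDiffOn ℝ 1 V (M \ S)) (x : ι → ℝ) :
    dvg (fun x => η j x • V x) x = η j x * dvg V x + fderiv ℝ (η j) x (V x) := by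
  by_cases hx : x ∈ tsupport (η j)
  · exact dvg_smul ((h.hη j).differentiable (by simp) x)
      ((hV.contDiffAt (h.hO.mem_nhds (h.hηs j hx))).differentiableAt one_ne_zero)
  · have hz := notMem_tsupport_iff_eventuallyEq.mp hx
    have e1 : dvg (fun x => η j x • V x) x = 0 := by
      apply dvg_of_eventually_zero
      filter_upwards [hz] with y hy
      rw [hy, Pi.zero_apply, zero_smul]
    have e2 : η j x = 0 := image_eq_zero_of_notMem_tsupport hx
    have e3 : fderiv ℝ (η j) x = 0 := by
      rw [hz.fderiv_eq]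
      simp
    rw [e1, e2, e3]
    simp

/-- integrability of `η_j div V` and `dη_j (V)` -/
lemma integrable_pieces (h : CalibData M g F W H S η) (j : ℕ) {V : (ι → ℝ) → (ι → ℝ)}
    (hV : ContDiffOn ℝ 1 V (M \ S)) :
    Integrable (fun x => η j x * dvg V x) ∧ Integrable (fun x => fderiv ℝ (η j) x (V x)) := by
  have hK := (h.hηc j).isCompact
  have hcont1 : ContinuousOn (fun x => η j x * dvg V x) (tsupport (η j)) :=
    (h.hη j).continuous.continuousOn.mul ((continuousOn_dvg h.hO hV).mono (h.hηs j))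
  have hcont2 : ContinuousOn (fun x => fderiv ℝ (η j) x (V x)) (tsupport (η j)) :=
    ((h.hη j).continuous_fderiv (by simp)).continuousOn.clm_apply
      ((hV.continuousOn).mono (h.hηs j))
  constructor
  · apply (integrableOn_iff_integrable_of_support_subset ?_).mp (hcont1.integrableOn_compact hK)
    intro x hx
    by_contra hcon
    apply hx
    have : η j x = 0 := image_eq_zero_of_notMem_tsupport hcon
    simp only [this, zero_mul]
  · apply (integrableOn_iff_integrable_of_support_subset ?_).mp (hcont2.integrableOn_compact hK)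
    intro x hx
    by_contra hcon
    apply hx
    have hz := notMem_tsupport_iff_eventuallyEq.mp hcon
    have : fderiv ℝ (η j) x = 0 := by
      rw [hz.fderiv_eq]
      simp
    simp only [this, _root_.zero_apply]

lemma ae_mem (h : CalibData M g F W H S η) {E : Set (ι → ℝ)} (hE : MeasurableSet E)
    (hEM : E ⊆ M) : ∀ᵐ x ∂(volume.restrict E), x ∈ M \ S := by
  have h1 : ∀ᵐ x ∂(volume.restrict E), x ∈ E := ae_restrict_mem hE
  have h2 : ∀ᵐ x ∂(volume.restrict E), x ∉ S :=
    ae_restrict_of_ae (measure_eq_zero_iff_ae_notMem.mp h.hS)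
  filter_upwards [h1, h2] with x hx1 hx2
  exact ⟨hEM hx1, hx2⟩

/-- convergence of `∫_E η_j div V` -/
lemma tendsto_η_mul (h : CalibData M g F W H S η) {E : Set (ι → ℝ)} (hE : MeasurableSet E)
    (hEM : E ⊆ M) {f : (ι → ℝ) → ℝ} (hf : IntegrableOn f E) :
    Tendsto (fun j => ∫ x in E, η j x * f x) atTop (𝓝 (∫ x in E, f x)) := by
  apply tendsto_integral_of_dominated_convergence (fun x => |f x|)
  · intro j
    exact ((h.hη j).continuous.aestronglyMeasurable).mul hf.aestronglyMeasurable
  · exact hf.abs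
  · intro j
    filter_upwards with x
    rw [Real.norm_eq_abs, abs_mul, abs_of_nonneg (h.hη0 j x)]
    exact mul_le_of_le_one_left (abs_nonneg _) (h.hη1 j x)
  · filter_upwards [h.ae_mem hE hEM] with x hx
    have := (h.hηlim x hx).mul_const (f x)
    rwa [one_mul] at this

/-- **Lower bound**: the perimeter of any set of finite volume is at least `∫_E div W`. -/
lemma le_perimeter (h : CalibData M g F W H S η) {E : Set (ι → ℝ)} (hE : MeasurableSet E)
    (hEM : E ⊆ M) (hvol : vol M g E < ⊤) :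
    ENNReal.ofReal (∫ x in E, dvg W x) ≤ perimeter M g E := by
  have hW1' : ContDiffOn ℝ 1 W (M \ S) := h.hW.of_le (by simp)
  -- the test fields
  let X : ℕ → (ι → ℝ) → (ι → ℝ) := fun j x => ((dens g x)⁻¹ * η j x) • W x
  have hdinv : ContDiffOn ℝ ∞ (fun x => (dens g x)⁻¹) M :=
    (contDiffOn_dens h.hg).inv (fun x hx => (dens_pos h.hg hx).ne')
  have hX : ∀ j, X j ∈ testFields M g := by
    intro j
    have hsub : tsupport (X j) ⊆ tsupport (η j) := by
      apply closure_minimal _ (isClosed_tsupport _)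
      intro x hx
      apply subset_tsupport
      intro hcon
      apply hx
      simp only [X, hcon, mul_zero, zero_smul]
    refine ⟨?_, ?_, ?_, ?_⟩
    · have e : X j = fun x => (dens g x)⁻¹ • (η j x • W x) := by
        funext x
        simp only [X, smul_smul]
      rw [e]
      apply contDiff_smul_of_tsupport' h.hg.1 hdinv _ (h.contDiff_ηW j)
      apply (closure_minimal _ (isClosed_tsupport _)).trans ((h.hηs j).trans sdiff_subset)
      intro x hx
      apply subset_tsupport
      intro hcon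
      apply hx
      simp only [hcon, zero_smul]
    · exact (h.hηc j).of_isClosed_subset (isClosed_tsupport _) hsub
    · exact hsub.trans ((h.hηs j).trans sdiff_subset)
    · intro x hx
      by_cases hxs : x ∈ tsupport (η j)
      · have hxO := h.hηs j hxs
        simp only [X]
        rw [nsq_smul]
        have h1 := h.hW1 x hxO
        have h2 := dens_pos h.hg hx
        have h3 : (η j x) ^ 2 ≤ 1 := by
          have := h.hη0 j x
          have := h.hη1 j x
          nlinarith
        calc ((dens g x)⁻¹ * η j x) ^ 2 * nsq g x (W x)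
            ≤ ((dens g x)⁻¹ * η j x) ^ 2 * dens g x ^ 2 :=
              mul_le_mul_of_nonneg_left h1 (sq_nonneg _)
          _ = (η j x) ^ 2 := by field_simp
          _ ≤ 1 := h3
      · have : η j x = 0 := image_eq_zero_of_notMem_tsupport hxs
        simp only [X, this, mul_zero]
        rw [nsq_smul]
        simp
  have hval : ∀ j, ∫ x in E ∩ M, gdiv g (X j) x * dens g x =
      ∫ x in E, (η j x * dvg W x + fderiv ℝ (η j) x (W x)) := by
    intro j
    rw [setIntegral_gdiv h.hg hE hEM]
    apply setIntegral_congr_fun hE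
    intro x hx
    have hxM := hEM hx
    have e : (fun y => dens g y • X j y) =ᶠ[𝓝 x] fun y => η j y • W y := by
      filter_upwards [h.hg.1.mem_nhds hxM] with y hy
      simp only [X, smul_smul]
      have := (dens_pos h.hg hy).ne'
      congr 1
      field_simp
    simp only
    rw [dvg_congr e, h.dvg_ηV j hW1' x]
  have hlim : Tendsto (fun j => ∫ x in E, (η j x * dvg W x + fderiv ℝ (η j) x (W x))) atTop
      (𝓝 (∫ x in E, dvg W x)) := by
    have h1 := h.tendsto_η_mul hE hEM (h.hdiv E hE hEM hvol)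
    have h2 : Tendsto (fun j => ∫ x in E, fderiv ℝ (η j) x (W x)) atTop (𝓝 0) := by
      apply squeeze_zero_norm _ (h.hηE E hE hEM hvol)
      intro j
      exact norm_integral_le_integral_norm _
    have h3 := h1.add h2
    rw [add_zero] at h3
    refine h3.congr ?_
    intro j
    rw [integral_add (h.integrable_pieces j hW1').1.integrableOn
      (h.integrable_pieces j hW1').2.integrableOn]
  apply le_of_tendsto (ENNReal.tendsto_ofReal hlim)
  filter_upwards with j
  rw [← hval j]
  exact le_iSup₂ (f := fun X (_ : X ∈ testFields M g) =>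
    ENNReal.ofReal (∫ x in E ∩ M, gdiv g X x * dens g x)) (X j) (hX j)

/-- **Upper bound**: the perimeter of `Ω = {F < 0}` is at most `∫_Ω div W`. -/
lemma perimeter_le (h : CalibData M g F W H S η)
    (hvol : vol M g {x | x ∈ M ∧ F x < 0} < ⊤) :
    perimeter M g {x | x ∈ M ∧ F x < 0} ≤ ENNReal.ofReal (∫ x in {x | x ∈ M ∧ F x < 0}, dvg W x) := by
  have hW1' : ContDiffOn ℝ 1 W (M \ S) := h.hW.of_le (by simp)
  set Ω := {x | x ∈ M ∧ F x < 0} with hΩ
  have hΩm : MeasurableSet Ω :=
    h.hg.1.measurableSet.inter (isOpen_lt h.hFc continuous_const).measurableSet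
  have hΩM : Ω ⊆ M := fun x hx => hx.1
  apply iSup₂_le
  intro X hX
  apply ENNReal.ofReal_le_ofReal
  rw [setIntegral_gdiv h.hg hΩm hΩM]
  set V : (ι → ℝ) → (ι → ℝ) := fun y => dens g y • X y with hV
  have hVc : ContDiff ℝ ∞ V := contDiff_dens_smul h.hg hX
  have hV1 : ContDiff ℝ 1 V := hVc.of_le (by simp)
  have hVs : HasCompactSupport V := hasCompactSupport_dens_smul hX
  have hVX : tsupport V ⊆ tsupport X := by
    apply closure_minimal _ (isClosed_tsupport _)
    intro x hx
    apply subset_tsupport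
    intro hcon
    apply hx
    simp only [hV, hcon, smul_zero]
  have hVnsq : ∀ x ∈ M, nsq g x (V x) ≤ dens g x ^ 2 := by
    intro x hx
    simp only [hV]
    rw [nsq_smul]
    have := hX.2.2.2 x hx
    exact mul_le_of_le_one_right (sq_nonneg _) this
  -- flux inequality for each cutoff
  have hflux : ∀ j, ∫ x in Ω, (η j x * dvg V x + fderiv ℝ (η j) x (V x)) ≤
      ∫ x in Ω, (η j x * dvg W x + fderiv ℝ (η j) x (W x)) := by
    intro j
    obtain ⟨C, hC⟩ := h.hcal _ (h.hηc j).isCompact (h.hηs j)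
    let U : (ι → ℝ) → (ι → ℝ) := fun x => η j x • V x - η j x • W x
    have hU : ContDiff ℝ 1 U :=
      (((h.hη j).of_le (by simp)).smul hV1).sub ((h.contDiff_ηW j).of_le (by simp))
    have hUsub : tsupport U ⊆ tsupport (η j) := by
      apply closure_minimal _ (isClosed_tsupport _)
      intro x hx
      apply subset_tsupport
      intro hcon
      apply hx
      simp only [U, hcon, zero_smul, sub_zero]
    have hUc : HasCompactSupport U := (h.hηc j).of_isClosed_subset (isClosed_tsupport _) hUsub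
    have hUC : ∀ x ∈ M \ S, fderiv ℝ F x (U x) ≤ |C| * |F x| := by
      intro x hx
      by_cases hxs : x ∈ tsupport (η j)
      · have h1 := hC x hxs (V x) (hVnsq x hx.1)
        simp only [U]
        rw [← smul_sub, map_smul, map_sub, smul_eq_mul]
        have h2 : fderiv ℝ F x (V x) - fderiv ℝ F x (W x) ≤ |C| * |F x| := by
          have : C * |F x| ≤ |C| * |F x| :=
            mul_le_mul_of_nonneg_right (le_abs_self C) (abs_nonneg _)
          linarith
        have h3 := h.hη0 j x
        have h4 := h.hη1 j x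
        have h5 : 0 ≤ |C| * |F x| := by positivity
        nlinarith
      · have : η j x = 0 := image_eq_zero_of_notMem_tsupport hxs
        simp only [U, this, zero_smul, sub_zero, map_zero]
        positivity
    have hres := integral_dvg_le_zero h.hO h.hF hU hUc (hUsub.trans (h.hηs j)) hUC
    have hset : ∫ x in {x | x ∈ M \ S ∧ F x < 0}, dvg U x = ∫ x in Ω, dvg U x := by
      apply setIntegral_congr_set
      have h2 : ∀ᵐ x ∂(volume : Measure (ι → ℝ)), x ∉ S :=
        measure_eq_zero_iff_ae_notMem.mp h.hS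
      filter_upwards [h2] with x hx
      have : (x ∈ M \ S ∧ F x < 0) ↔ (x ∈ M ∧ F x < 0) :=
        ⟨fun h => ⟨h.1.1, h.2⟩, fun h => ⟨⟨h.1, hx⟩, h.2⟩⟩
      exact propext this
    rw [hset] at hres
    have hd : ∀ x, dvg U x = (η j x * dvg V x + fderiv ℝ (η j) x (V x)) -
        (η j x * dvg W x + fderiv ℝ (η j) x (W x)) := by
      intro x
      have e1 : dvg U x = dvg (fun x => η j x • V x) x - dvg (fun x => η j x • W x) x :=
        dvg_sub ((((h.hη j).of_le (by simp)).smul hV1).differentiable one_ne_zero x)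
          ((h.contDiff_ηW j).differentiable (by simp) x)
      rw [e1, h.dvg_ηV j hV1.contDiffOn x, h.dvg_ηV j hW1' x]
    simp only [hd] at hres
    have i1 := h.integrable_pieces j (hV1.contDiffOn (s := M \ S))
    have i2 := h.integrable_pieces j hW1'
    have i1' : IntegrableOn (fun x => η j x * dvg V x + fderiv ℝ (η j) x (V x)) Ω :=
      (i1.1.add i1.2).integrableOn
    have i2' : IntegrableOn (fun x => η j x * dvg W x + fderiv ℝ (η j) x (W x)) Ω :=
      (i2.1.add i2.2).integrableOn
    rw [integral_sub i1' i2'] at hres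
    linarith
  -- pass to the limit
  have hlimW : Tendsto (fun j => ∫ x in Ω, (η j x * dvg W x + fderiv ℝ (η j) x (W x))) atTop
      (𝓝 (∫ x in Ω, dvg W x)) := by
    have h1 := h.tendsto_η_mul hΩm hΩM (h.hdiv Ω hΩm hΩM hvol)
    have h2 : Tendsto (fun j => ∫ x in Ω, fderiv ℝ (η j) x (W x)) atTop (𝓝 0) := by
      apply squeeze_zero_norm _ (h.hηE Ω hΩm hΩM hvol)
      intro j
      exact norm_integral_le_integral_norm _
    have h3 := h1.add h2
    rw [add_zero] at h3
    refine h3.congr ?_
    intro j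
    rw [integral_add (h.integrable_pieces j hW1').1.integrableOn
      (h.integrable_pieces j hW1').2.integrableOn]
  have hlimV : Tendsto (fun j => ∫ x in Ω, (η j x * dvg V x + fderiv ℝ (η j) x (V x))) atTop
      (𝓝 (∫ x in Ω, dvg V x)) := by
    have h1 := h.tendsto_η_mul hΩm hΩM (integrable_dvg hV1 hVs).integrableOn
    have h2 : Tendsto (fun j => ∫ x in Ω, fderiv ℝ (η j) x (V x)) atTop (𝓝 0) := by
      obtain ⟨B, hB⟩ := hVs.exists_bound_of_continuous hV1.continuous
      have hK := hVs.isCompact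
      have hKM : tsupport V ⊆ M := hVX.trans hX.2.2.1
      have h4 := (h.hηK _ hK hKM).const_mul |B|
      rw [mul_zero] at h4
      apply squeeze_zero_norm _ h4
      intro j
      calc ‖∫ x in Ω, fderiv ℝ (η j) x (V x)‖ ≤ ∫ x in Ω, ‖fderiv ℝ (η j) x (V x)‖ :=
            norm_integral_le_integral_norm _
        _ ≤ ∫ x, ‖fderiv ℝ (η j) x (V x)‖ := by
            apply setIntegral_le_integral
            · exact (h.integrable_pieces j (hV1.contDiffOn (s := M \ S))).2.norm
            · filter_upwards with x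
              exact norm_nonneg _
        _ = ∫ x in tsupport V, ‖fderiv ℝ (η j) x (V x)‖ := by
            rw [← integral_indicator hK.measurableSet]
            congr 1
            funext x
            by_cases hx : x ∈ tsupport V
            · rw [indicator_of_mem hx]
            · rw [indicator_of_notMem hx, image_eq_zero_of_notMem_tsupport hx]
              simp
        _ ≤ ∫ x in tsupport V, |B| * ‖fderiv ℝ (η j) x‖ := by
            apply setIntegral_mono
            · exact (h.integrable_pieces j (hV1.contDiffOn (s := M \ S))).2.norm.integrableOn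
            · apply ContinuousOn.integrableOn_compact hK
              exact (continuous_const.mul
                ((h.hη j).continuous_fderiv (by simp)).norm).continuousOn
            · intro x
              calc ‖fderiv ℝ (η j) x (V x)‖ ≤ ‖fderiv ℝ (η j) x‖ * ‖V x‖ :=
                    ContinuousLinearMap.le_opNorm _ _
                _ ≤ ‖fderiv ℝ (η j) x‖ * |B| :=
                    mul_le_mul_of_nonneg_left ((hB x).trans (le_abs_self B)) (norm_nonneg _)
                _ = |B| * ‖fderiv ℝ (η j) x‖ := mul_comm _ _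
        _ = |B| * ∫ x in tsupport V, ‖fderiv ℝ (η j) x‖ := integral_const_mul _ _
    have h3 := h1.add h2
    rw [add_zero] at h3
    refine h3.congr ?_
    intro j
    have i1 := h.integrable_pieces j (hV1.contDiffOn (s := M \ S))
    rw [integral_add i1.1.integrableOn i1.2.integrableOn]
  exact le_of_tendsto_of_tendsto' hlimV hlimW hflux

lemma integrableOn_dens (hg : IsRiemannianOn M g) {E : Set (ι → ℝ)} (hE : MeasurableSet E)
    (hEM : E ⊆ M) (hvol : vol M g E < ⊤) : IntegrableOn (dens g) E := by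
  refine ⟨?_, ?_⟩
  · have h1 : AEStronglyMeasurable (dens g) (volume.restrict M) :=
      (contDiffOn_dens hg).continuousOn.aestronglyMeasurable hg.1.measurableSet
    exact h1.mono_measure (Measure.restrict_mono hEM le_rfl)
  · rw [hasFiniteIntegral_iff_ofReal]
    · unfold vol at hvol
      rwa [inter_eq_left.mpr hEM] at hvol
    · filter_upwards with x
      exact Real.sqrt_nonneg _

lemma vol_eq_ofReal (hg : IsRiemannianOn M g) {E : Set (ι → ℝ)} (hE : MeasurableSet E)
    (hEM : E ⊆ M) (hvol : vol M g E < ⊤) :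
    vol M g E = ENNReal.ofReal (∫ x in E, dens g x) := by
  rw [ofReal_integral_eq_lintegral_ofReal (integrableOn_dens hg hE hEM hvol)
    (by filter_upwards with x; exact Real.sqrt_nonneg _)]
  unfold vol
  rw [inter_eq_left.mpr hEM]

/-- **Calibration theorem.** -/
theorem isIsoperimetric (h : CalibData M g F W H S η)
    (hpos : 0 < vol M g {x | x ∈ M ∧ F x < 0})
    (hlt : vol M g {x | x ∈ M ∧ F x < 0} < vol M g M) :
    IsIsoperimetricRegion M g {x | x ∈ M ∧ F x < 0} := by
  have hfin : vol M g {x | x ∈ M ∧ F x < 0} < ⊤ := lt_of_lt_of_le hlt le_top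
  have hup := h.perimeter_le hfin
  set Ω := {x | x ∈ M ∧ F x < 0} with hΩ
  have hΩm : MeasurableSet Ω :=
    h.hg.1.measurableSet.inter (isOpen_lt h.hFc continuous_const).measurableSet
  have hΩM : Ω ⊆ M := fun x hx => hx.1
  refine ⟨hΩm, hΩM, hpos, hlt, lt_of_le_of_lt hup ENNReal.ofReal_lt_top, ?_⟩
  intro E hE hEM hEv
  have hEfin : vol M g E < ⊤ := by rw [hEv]; exact hfin
  refine hup.trans (le_trans ?_ (h.le_perimeter hE hEM hEfin))
  apply ENNReal.ofReal_le_ofReal
  -- compare the two integrals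
  have iΩ := integrableOn_dens h.hg hΩm hΩM hfin
  have iE := integrableOn_dens h.hg hE hEM hEfin
  have jΩ := h.hdiv Ω hΩm hΩM hfin
  have jE := h.hdiv E hE hEM hEfin
  have hvolreal : ∫ x in E, dens g x = ∫ x in Ω, dens g x := by
    have h1 := vol_eq_ofReal h.hg hΩm hΩM hfin
    have h2 := vol_eq_ofReal h.hg hE hEM hEfin
    rw [hEv, h1] at h2
    have h3 := (ENNReal.ofReal_eq_ofReal_iff
      (integral_nonneg (fun x => Real.sqrt_nonneg _))
      (integral_nonneg (fun x => Real.sqrt_nonneg _))).mp h2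
    exact h3.symm
  let D : (ι → ℝ) → ℝ := fun x => dvg W x - H * dens g x
  have kΩ : IntegrableOn D Ω := jΩ.sub (iΩ.const_mul H)
  have kE : IntegrableOn D E := jE.sub (iE.const_mul H)
  have hDE : ∫ x in E, D x = (∫ x in E, dvg W x) - H * ∫ x in E, dens g x := by
    rw [← integral_const_mul]
    exact integral_sub jE (iE.const_mul H)
  have hDΩ : ∫ x in Ω, D x = (∫ x in Ω, dvg W x) - H * ∫ x in Ω, dens g x := by
    rw [← integral_const_mul]
    exact integral_sub jΩ (iΩ.const_mul H)
  have h1 : ∫ x in E ∩ Ω, D x ≤ ∫ x in E, D x := by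
    have hsplit := integral_inter_add_sdiff (μ := volume) (f := D) (s := E) hΩm kE
    have hnn : 0 ≤ ∫ x in E \ Ω, D x := by
      apply integral_nonneg_of_ae
      have hm := h.ae_mem (hE.diff hΩm) (sdiff_subset.trans hEM)
      have hm2 : ∀ᵐ x ∂(volume.restrict (E \ Ω)), x ∈ E \ Ω := ae_restrict_mem (hE.diff hΩm)
      filter_upwards [hm, hm2] with x hx hx2
      have hF : 0 ≤ F x := by
        by_contra hcon
        push Not at hcon
        exact hx2.2 ⟨hx.1, hcon⟩
      have := h.hpos x hx hF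
      simp only [D, Pi.zero_apply]
      linarith
    linarith
  have h2 : ∫ x in Ω, D x ≤ ∫ x in E ∩ Ω, D x := by
    have hsplit := integral_inter_add_sdiff (μ := volume) (f := D) (s := Ω) hE kΩ
    have hnn : ∫ x in Ω \ E, D x ≤ 0 := by
      apply integral_nonpos_of_ae
      have hm := h.ae_mem (hΩm.diff hE) (sdiff_subset.trans hΩM)
      have hm2 : ∀ᵐ x ∂(volume.restrict (Ω \ E)), x ∈ Ω \ E := ae_restrict_mem (hΩm.diff hE)
      filter_upwards [hm, hm2] with x hx hx2
      have := h.hneg x hx hx2.1.2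
      simp only [D, Pi.zero_apply]
      linarith
    rw [inter_comm] at hsplit
    linarith
  have h3 := h2.trans h1
  rw [hDE, hDΩ, hvolreal] at h3
  linarith

end CalibData

end

end Pool.Agent.Lib.MP_89119d_gt
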