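import Pool.Agent.Lib.MP_89119d_gt.Defs

namespace Pool.Agent.Lib.MP_89119d_gt

open MeasureTheory Set Topology Filter
open scoped ENNReal ContDiff Matrix

variable {ι : Type} [Fintype ι] [DecidableEq ι]

theorem bound_along {M : Set (ι → ℝ)} {g : (ι → ℝ) → Matrix ι ι ℝ} (hM : IsOpen M)
    {Φ : (ι → ℝ) → ℝ} (hΦ : ContDiffOn ℝ 1 Φ M) {C : ℝ} {γ : ℝ → (ι → ℝ)}
    (hγ : ContDiffOn ℝ 1 γ (Ico 0 1)) (hγM : ∀ t ∈ Ico (0 : ℝ) 1, γ t ∈ M)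
    (hC : ∀ t ∈ Ico (0 : ℝ) 1, ∀ v, |fderiv ℝ Φ (γ t) v| ≤ C * √(nsq g (γ t) v))
    (hL : ∫⁻ t in Ioo (0 : ℝ) 1, ENNReal.ofReal √(nsq g (γ t) (deriv γ t)) < ⊤) :
    ∃ c : ℝ, ∀ t ∈ Ico (0 : ℝ) 1, Φ (γ t) ≤ c := by
  set L := ∫⁻ t in Ioo (0 : ℝ) 1, ENNReal.ofReal √(nsq g (γ t) (deriv γ t)) with hLdef
  refine ⟨Φ (γ 0) + (ENNReal.ofReal |C| * L).toReal, fun t ht => ?_⟩
  have hfin : ENNReal.ofReal |C| * L ≠ ⊤ := ENNReal.mul_ne_top ENNReal.ofReal_ne_top hL.ne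
  have hsub : Icc 0 t ⊆ Ico (0:ℝ) 1 := fun s hs => ⟨hs.1, hs.2.trans_lt ht.2⟩
  have hf : ContDiffOn ℝ 1 (fun s => Φ (γ s)) (Icc 0 t) :=
    hΦ.comp (hγ.mono hsub) fun s hs => hγM s (hsub hs)
  have h1 := enorm_sub_le_lintegral_deriv_of_contDiffOn_Icc hf ht.1
  have h2 : ∫⁻ s in Icc 0 t, ‖deriv (fun s => Φ (γ s)) s‖ₑ ≤ ENNReal.ofReal |C| * L := by
    rw [hLdef, ← lintegral_const_mul' _ _ ENNReal.ofReal_ne_top]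
    rw [← restrict_Ioo_eq_restrict_Icc]
    refine (setLIntegral_mono' measurableSet_Ioo fun s hs => ?_).trans
      (lintegral_mono_set (Ioo_subset_Ioo_right ht.2.le))
    have hs' : s ∈ Ico (0:ℝ) 1 := ⟨hs.1.le, hs.2.trans ht.2⟩
    have hd : HasDerivAt γ (deriv γ s) s :=
      ((hγ.contDiffAt (Ico_mem_nhds hs.1 (hs.2.trans ht.2))).differentiableAt one_ne_zero).hasDerivAt
    have hΦd : HasFDerivAt Φ (fderiv ℝ Φ (γ s)) (γ s) :=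
      ((hΦ.contDiffAt (hM.mem_nhds (hγM s hs'))).differentiableAt one_ne_zero).hasFDerivAt
    have hdd : deriv (fun s => Φ (γ s)) s = fderiv ℝ Φ (γ s) (deriv γ s) :=
      (hΦd.comp_hasDerivAt s hd).deriv
    rw [hdd, ← ENNReal.ofReal_mul (abs_nonneg _), ← ofReal_norm]
    apply ENNReal.ofReal_le_ofReal
    rw [Real.norm_eq_abs]
    refine (hC s hs' _).trans ?_
    exact mul_le_mul_of_nonneg_right (le_abs_self _) (Real.sqrt_nonneg _)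
  have h3 := h1.trans h2
  have h4 : |Φ (γ t) - Φ (γ 0)| ≤ (ENNReal.ofReal |C| * L).toReal := by
    rw [← Real.norm_eq_abs, ← ENNReal.ofReal_le_iff_le_toReal hfin, ofReal_norm]
    exact h3
  linarith [le_abs_self (Φ (γ t) - Φ (γ 0))]

theorem isComplete_of_two_step {ι : Type} [Fintype ι] [DecidableEq ι] {M : Set (ι → ℝ)}
    {g : (ι → ℝ) → Matrix ι ι ℝ} (hg : IsRiemannianOn M g) (Φ₁ Φ₂ : (ι → ℝ) → ℝ)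
    (h1 : ContDiffOn ℝ 1 Φ₁ M) (h2 : ContDiffOn ℝ 1 Φ₂ M) (C₁ : ℝ)
    (hC₁ : ∀ x ∈ M, ∀ v, |fderiv ℝ Φ₁ x v| ≤ C₁ * √(nsq g x v))
    (hC₂ : ∀ c : ℝ, ∃ C₂ : ℝ, ∀ x ∈ M, Φ₁ x ≤ c → ∀ v, |fderiv ℝ Φ₂ x v| ≤ C₂ * √(nsq g x v))
    (hK : ∀ c c' : ℝ, ∃ K : Set (ι → ℝ), IsCompact K ∧ K ⊆ M ∧
      ∀ x ∈ M, Φ₁ x ≤ c → Φ₂ x ≤ c' → x ∈ K) : IsCompleteRiemannian M g := by
  intro γ hγ hγM hL
  obtain ⟨c, hc⟩ := bound_along hg.1 h1 hγ hγM (fun t ht v => hC₁ _ (hγM t ht) v) hL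
  obtain ⟨C₂, hC₂⟩ := hC₂ c
  obtain ⟨c', hc'⟩ := bound_along hg.1 h2 hγ hγM
    (fun t ht v => hC₂ _ (hγM t ht) (hc t ht) v) hL
  obtain ⟨K, hKc, hKM, hKx⟩ := hK c c'
  exact ⟨K, hKc, hKM, fun t ht => hKx _ (hγM t ht) (hc t ht) (hc' t ht)⟩

end Pool.Agent.Lib.MP_89119d_gt
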