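import Pool.Agent.Lib.MP_89119d_gt.Defs

namespace Pool.Agent.Lib.MP_89119d_gt

open MeasureTheory Set Topology
open scoped ENNReal ContDiff Matrix

/-- index type of the coordinates `(x, y, z)`, `x, y ∈ ℝ^m`, `z ∈ ℝ²` -/
abbrev J (m : ℕ) : Type := Fin m ⊕ (Fin m ⊕ Fin 2)

variable {m : ℕ}

/-- `|x|²` -/
noncomputable def cA (v : J m → ℝ) : ℝ := ∑ i, v (Sum.inl i) ^ 2

/-- `|y|²` -/
noncomputable def cB (v : J m → ℝ) : ℝ := ∑ j, v (Sum.inr (Sum.inl j)) ^ 2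

/-- `|z|²` -/
noncomputable def cZ (v : J m → ℝ) : ℝ := ∑ k, v (Sum.inr (Sum.inr k)) ^ 2

/-- `s = r² = |x|² + |y|²` -/
noncomputable def cs (v : J m → ℝ) : ℝ := cA v + cB v

/-- the weight in the `z` variables as a function of `|z|²` -/
noncomputable def wt (Z : ℝ) : ℝ := 1 / ((1 + Z) * (1 + Real.log (1 + Z)) ^ 2)

end Pool.Agent.Lib.MP_89119d_gt
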