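import Pool.Agent.Lib.MP_89119d_gt.Inst
import Pool.Agent.Lib.MP_89119d_gt.Complete

namespace Pool.Agent.Lib.MP_89119d_gt

open MeasureTheory Set Topology Filter
open scoped ENNReal ContDiff Matrix

variable {m : ℕ}

/-- first exhaustion function -/
noncomputable def Ph1 (v : J m → ℝ) : ℝ := -Real.log (xi (cs v))

/-- second exhaustion function -/
noncomputable def Ph2 (v : J m → ℝ) : ℝ := Real.log (1 + Real.log (1 + cZ v))

lemma abs_fderiv_cs_le (v X : J m → ℝ) :
    |fderiv ℝ cs v X| ≤ 2 * √(cs v) * √(cA X + cB X) := by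
  have h0 : ∀ X : J m → ℝ, fderiv ℝ cs v X ≤ 2 * √(cs v) * √(cA X + cB X) := by
    intro X
    rw [fderiv_cs, fderiv_cA, fderiv_cB]
    have h1 := abs_sum_le_sqrt (κ := Fin m ⊕ Fin m)
      (Sum.elim (fun i => v (Sum.inl i)) (fun j => v (Sum.inr (Sum.inl j))))
      (Sum.elim (fun i => X (Sum.inl i)) (fun j => X (Sum.inr (Sum.inl j))))
    simp only [Fintype.sum_sum_type, Sum.elim_inl, Sum.elim_inr] at h1
    change ∑ i, v (Sum.inl i) * X (Sum.inl i) +
      ∑ j, v (Sum.inr (Sum.inl j)) * X (Sum.inr (Sum.inl j)) ≤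
      √(cs v) * √(cA X + cB X) at h1
    linarith
  rw [abs_le]
  constructor
  · have h1 := h0 (-X)
    rw [map_neg] at h1
    have e1 : cA (-X) = cA X := by simp [cA]
    have e2 : cB (-X) = cB X := by simp [cB]
    rw [e1, e2] at h1
    linarith
  · exact h0 X

lemma abs_fderiv_cZ_le (v X : J m → ℝ) :
    |fderiv ℝ cZ v X| ≤ 2 * √(cZ v) * √(cZ X) := by
  have h0 : ∀ X : J m → ℝ, fderiv ℝ cZ v X ≤ 2 * √(cZ v) * √(cZ X) := by
    intro X
    rw [fderiv_cZ]
    have h1 := abs_sum_le_sqrt (κ := Fin 2)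
      (fun k => v (Sum.inr (Sum.inr k))) (fun k => X (Sum.inr (Sum.inr k)))
    change ∑ k, v (Sum.inr (Sum.inr k)) * X (Sum.inr (Sum.inr k)) ≤ √(cZ v) * √(cZ X) at h1
    linarith
  rw [abs_le]
  constructor
  · have h1 := h0 (-X)
    rw [map_neg] at h1
    have e1 : cZ (-X) = cZ X := by simp [cZ]
    rw [e1] at h1
    linarith
  · exact h0 X

lemma contDiffOn_Ph1 : ContDiffOn ℝ 1 (Ph1 : (J m → ℝ) → ℝ) (MM m) := by
  intro v hv
  apply ContDiffAt.contDiffWithinAt
  have h1 : ContDiffAt ℝ 1 (fun v : J m → ℝ => xi (cs v)) v :=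
    (contDiff_xi (n := 1)).contDiffAt.comp v (contDiff_cs.contDiffAt.of_le (by simp))
  exact (h1.log (xi_pos hv).ne').neg

lemma one_le_one_add_log' (v : J m → ℝ) : 1 ≤ 1 + Real.log (1 + cZ v) :=
  one_le_one_add_log (cZ_nonneg v)

lemma contDiff_Ph2 : ContDiff ℝ 1 (Ph2 : (J m → ℝ) → ℝ) := by
  have h1 : ContDiff ℝ 1 (fun v : J m → ℝ => 1 + cZ v) :=
    contDiff_const.add (contDiff_cZ.of_le (by simp))
  have h2 : ContDiff ℝ 1 (fun v : J m → ℝ => 1 + Real.log (1 + cZ v)) :=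
    contDiff_const.add (h1.log (fun v => by have := cZ_nonneg v; positivity))
  exact h2.log (fun v => by have := one_le_one_add_log' v; linarith)

lemma sqrt_base_le (hm : 10000000 ≤ m) {h : ℝ} (hh : 0 < h) {v : J m → ℝ}
    (hs' : cs v < 6 / 5) (X : J m → ℝ) :
    √(cA X + cB X) ≤ om (cs v) / qq h v * √(nsq (gg m h) v X) := by
  have hP := PP_pos hs'
  have hq := qq_pos hm hh hs'
  have hw := wt_pos (cZ_nonneg v)
  have ho := om_pos hs'
  have hA := cA_nonneg X
  have hB := cB_nonneg X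
  have hZ := cZ_nonneg X
  have h1 : qq h v ^ 2 / PP v * (cA X + cB X) ≤ nsq (gg m h) v X := by
    rw [gg, nsq_Gm]
    have : 0 ≤ PP v ^ m / qq h v ^ (2 * m - 1) * wt (cZ v) * cZ X := by positivity
    linarith
  have h2 : PP v ≤ om (cs v) ^ 2 := by
    unfold PP
    have : 1 - 3 / 4 * cs v ≤ 1 := by have := cs_nonneg v; linarith
    exact mul_le_of_le_one_right (sq_nonneg _) this
  have h3 : cA X + cB X ≤ (om (cs v) / qq h v) ^ 2 * nsq (gg m h) v X := by
    have e1 : cA X + cB X = (PP v / qq h v ^ 2) * (qq h v ^ 2 / PP v * (cA X + cB X)) := by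
      field_simp
    have hn : 0 ≤ nsq (gg m h) v X := le_trans (by positivity) h1
    calc cA X + cB X = (PP v / qq h v ^ 2) * (qq h v ^ 2 / PP v * (cA X + cB X)) := e1
      _ ≤ (PP v / qq h v ^ 2) * nsq (gg m h) v X :=
          mul_le_mul_of_nonneg_left h1 (by positivity)
      _ ≤ (om (cs v) ^ 2 / qq h v ^ 2) * nsq (gg m h) v X := by
          apply mul_le_mul_of_nonneg_right _ hn
          exact div_le_div_of_nonneg_right h2 (by positivity)
      _ = (om (cs v) / qq h v) ^ 2 * nsq (gg m h) v X := by rw [div_pow]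
  calc √(cA X + cB X) ≤ √((om (cs v) / qq h v) ^ 2 * nsq (gg m h) v X) := Real.sqrt_le_sqrt h3
    _ = om (cs v) / qq h v * √(nsq (gg m h) v X) := by
        rw [Real.sqrt_mul (by positivity), Real.sqrt_sq (by positivity)]

lemma fderiv_Ph1 {v : J m → ℝ} (hs' : cs v < 6 / 5) (X : J m → ℝ) :
    fderiv ℝ Ph1 v X = -(deriv xi (cs v) / xi (cs v)) * fderiv ℝ cs v X := by
  have h1 : HasFDerivAt cs (fderiv ℝ cs v) v :=
    (contDiff_cs.differentiable (by simp) v).hasFDerivAt
  have h0 : HasDerivAt xi (deriv xi (cs v)) (cs v) :=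
    ((contDiff_xi (n := 1)).differentiable one_ne_zero _).hasDerivAt
  have h2 : HasDerivAt (fun s => -Real.log (xi s)) (-(deriv xi (cs v) / xi (cs v))) (cs v) :=
    (h0.log (xi_pos hs').ne').neg
  have h3 := (h2.comp_hasFDerivAt v h1).fderiv
  have e : (Ph1 : (J m → ℝ) → ℝ) = (fun s => -Real.log (xi s)) ∘ cs := rfl
  rw [e, h3]
  simp only [_root_.smul_apply, smul_eq_mul]

lemma fderiv_Ph2 (v X : J m → ℝ) :
    fderiv ℝ Ph2 v X = (1 / (1 + cZ v)) / (1 + Real.log (1 + cZ v)) * fderiv ℝ cZ v X := by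
  have hZ := cZ_nonneg v
  have h1 : HasFDerivAt cZ (fderiv ℝ cZ v) v :=
    (contDiff_cZ.differentiable (by simp) v).hasFDerivAt
  have h2 : HasDerivAt (fun s : ℝ => 1 + s) 1 (cZ v) := (hasDerivAt_id _).const_add 1
  have h3 : HasDerivAt (fun s : ℝ => 1 + Real.log (1 + s)) (1 / (1 + cZ v)) (cZ v) :=
    (h2.log (by positivity)).const_add 1
  have h4 : HasDerivAt (fun s : ℝ => Real.log (1 + Real.log (1 + s)))
      ((1 / (1 + cZ v)) / (1 + Real.log (1 + cZ v))) (cZ v) :=
    h3.log (by have := one_le_one_add_log' v; linarith)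
  have h5 := (h4.comp_hasFDerivAt v h1).fderiv
  have e : (Ph2 : (J m → ℝ) → ℝ) = (fun s : ℝ => Real.log (1 + Real.log (1 + s))) ∘ cZ := rfl
  rw [e, h5]
  simp only [_root_.smul_apply, smul_eq_mul]

/-- gradient bound of the first exhaustion function -/
lemma abs_fderiv_Ph1_le (hm : 10000000 ≤ m) {h : ℝ} (hh : 0 < h) {v : J m → ℝ}
    (hs' : cs v < 6 / 5) (X : J m → ℝ) :
    |fderiv ℝ Ph1 v X| ≤ 2000 * h * √(nsq (gg m h) v X) := by
  have hx := xi_pos hs'
  have hq := qq_pos hm hh hs'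
  have hw := wt_pos (cZ_nonneg v)
  have ho := om_pos hs'
  rw [fderiv_Ph1 hs', abs_mul]
  rcases lt_or_ge (cs v) 1 with hs1 | hs1
  · rw [deriv_xi_of_lt_one hs1]
    simp only [zero_div, neg_zero, abs_zero, zero_mul]
    positivity
  · have hs0 : 0 < cs v := by linarith
    have hp := par_v hs0
    have hr2 := sqrt_sq_lt hs'
    have hrl := r_lt_two hr2
    have he : 1 / 1000 ≤ e0 √(cs v) (cuv v) :=
      e0_ge (by rw [Real.one_le_sqrt]; exact hs1) hr2 hp.u1
    have hom := omd_nonneg (cs v)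
    have hdv : 2 * (wt (cZ v) * (omd (cs v) * e0 √(cs v) (cuv v))) ≤ h * (qq h v * wt (cZ v)) := by
      rw [← dvg_Wf_eq_of_ge hh (by linarith) hs', dvg_Wf' hs0 hs']
      unfold dWt
      have hd0 : 0 < d0 m √(cs v) (cuv v) := by
        apply d0_pos (by exact_mod_cast hm) _ hr2 hp.u1
        apply Real.le_sqrt_of_sq_le
        linarith
      have : 0 ≤ wt (cZ v) * (om (cs v) * d0 m √(cs v) (cuv v)) := by positivity
      linarith
    have hkey : omd (cs v) ≤ 500 * h * qq h v := by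
      have h1 : wt (cZ v) * (2 * (omd (cs v) * e0 √(cs v) (cuv v))) ≤ wt (cZ v) * (h * qq h v) := by
        linarith
      have h2 := le_of_mul_le_mul_left h1 hw
      have h3 : omd (cs v) * (1 / 1000) ≤ omd (cs v) * e0 √(cs v) (cuv v) :=
        mul_le_mul_of_nonneg_left he hom
      linarith
    have habs : |-(deriv xi (cs v) / xi (cs v))| = omd (cs v) * xi (cs v) := by
      rw [abs_of_nonneg]
      · unfold omd; field_simp
      · rw [neg_nonneg]
        exact div_nonpos_of_nonpos_of_nonneg (deriv_xi_nonpos _) hx.le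
    rw [habs]
    have hb := abs_fderiv_cs_le v X
    have hb2 := sqrt_base_le hm hh hs' X
    have hn := Real.sqrt_nonneg (nsq (gg m h) v X)
    calc omd (cs v) * xi (cs v) * |fderiv ℝ cs v X|
        ≤ omd (cs v) * xi (cs v) * (2 * √(cs v) * √(cA X + cB X)) :=
          mul_le_mul_of_nonneg_left hb (by positivity)
      _ ≤ omd (cs v) * xi (cs v) * (2 * 2 * (om (cs v) / qq h v * √(nsq (gg m h) v X))) := by
          apply mul_le_mul_of_nonneg_left _ (by positivity)
          apply mul_le_mul _ hb2 (Real.sqrt_nonneg _) (by norm_num)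
          linarith
      _ = 4 * (omd (cs v) / qq h v) * √(nsq (gg m h) v X) := by
          unfold om
          field_simp
          ring
      _ ≤ 4 * (500 * h) * √(nsq (gg m h) v X) := by
          apply mul_le_mul_of_nonneg_right _ hn
          apply mul_le_mul_of_nonneg_left _ (by norm_num)
          rw [div_le_iff₀ hq]
          exact hkey
      _ = 2000 * h * √(nsq (gg m h) v X) := by ring

/-- upper bound of the volume weight away from the outer boundary -/
lemma qq_bound (hm : 10000000 ≤ m) {h : ℝ} (hh : 0 < h) (c : ℝ) :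
    ∃ Q : ℝ, 0 < Q ∧ ∀ v : J m → ℝ, cs v < 6 / 5 → Ph1 v ≤ c → qq h v ≤ Q := by
  have hm' : (10000000 : ℝ) ≤ m := by exact_mod_cast hm
  obtain ⟨C₀, hC0, hC₀⟩ := exists_bound_step
  let e : ℝ := Real.exp c
  have he : 0 < e := Real.exp_pos c
  let D : ℝ := e * (400000 * m) + 2 * (5 * C₀ * e ^ 2) * 200
  have hD : 0 ≤ D := by positivity
  refine ⟨(3 * m + D) / h, by positivity, fun v hs' hc => ?_⟩
  have hx := xi_pos hs'
  have hxe : om (cs v) ≤ e := by
    unfold om Ph1 at *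
    rw [← Real.log_inv] at hc
    exact (Real.log_le_iff_le_exp (by positivity)).mp hc
  have ho := om_pos hs'
  rcases le_or_gt (cs v) (9 / 400) with hs | hs
  · rw [qq_eq_of_small h hs]
    apply div_le_div_of_nonneg_right _ hh.le
    linarith
  · have hs0 : 0 < cs v := by linarith
    rw [qq_eq h hs0 hs']
    apply div_le_div_of_nonneg_right _ hh.le
    have hp := par_v hs0
    have hr2 := sqrt_sq_lt hs'
    have hrl := r_lt_two hr2
    have hr : 3 / 20 ≤ √(cs v) := by
      apply Real.le_sqrt_of_sq_le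
      linarith
    have h1 := abs_d0_le hm' hp.r0 hr2 hp.u1
    have h2 : 50000 * (m : ℝ) / √(cs v) ≤ 400000 * m := by
      rw [div_le_iff₀ hp.r0]
      nlinarith
    have h3 := (le_abs_self (d0 (m : ℝ) √(cs v) (cuv v))).trans (h1.trans h2)
    have h4 : e0 √(cs v) (cuv v) ≤ 200 := by
      have := (le_abs_self _).trans (abs_e0_le hp.r0.le hr2 hp.u1)
      linarith
    have h5 : omd (cs v) ≤ 5 * C₀ * e ^ 2 := by
      have e1 : omd (cs v) = (-deriv xi (cs v)) * om (cs v) ^ 2 := by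
        unfold omd om
        rw [inv_pow, div_eq_mul_inv]
      rw [e1, deriv_xi]
      have e2 : -(-5 * deriv Real.smoothTransition (6 - 5 * cs v)) ≤ 5 * C₀ := by
        have := hC₀ (6 - 5 * cs v)
        linarith
      apply mul_le_mul e2 _ (by positivity) (by positivity)
      exact pow_le_pow_left₀ ho.le hxe 2
    have hod := omd_nonneg (cs v)
    have h6 : dWt v ≤ D := by
      unfold dWt
      have g1 : om (cs v) * d0 (m : ℝ) √(cs v) (cuv v) ≤ e * (400000 * m) := by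
        have hd0 : 0 < d0 m √(cs v) (cuv v) := d0_pos hm' hr hr2 hp.u1
        exact mul_le_mul hxe h3 hd0.le he.le
      have g2 : 2 * omd (cs v) * e0 √(cs v) (cuv v) ≤ 2 * (5 * C₀ * e ^ 2) * 200 := by
        calc 2 * omd (cs v) * e0 √(cs v) (cuv v) ≤ 2 * omd (cs v) * 200 :=
              mul_le_mul_of_nonneg_left h4 (by positivity)
          _ ≤ 2 * (5 * C₀ * e ^ 2) * 200 := by linarith
      linarith
    have h7 := chi_nonneg (cs v)
    have h8 := chi_le_one (cs v)
    have h9 : chi (cs v) * (3 * m - 2) ≤ 3 * m := by nlinarith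
    have h10 : (1 - chi (cs v)) * dWt v ≤ D := by
      calc (1 - chi (cs v)) * dWt v ≤ (1 - chi (cs v)) * D :=
            mul_le_mul_of_nonneg_left h6 (by linarith)
        _ ≤ 1 * D := mul_le_mul_of_nonneg_right (by linarith) hD
        _ = D := one_mul _
    linarith

lemma sqrt_z_le (hm : 10000000 ≤ m) {h : ℝ} (hh : 0 < h) (c : ℝ) :
    ∃ κ : ℝ, 0 ≤ κ ∧ ∀ v : J m → ℝ, cs v < 6 / 5 → Ph1 v ≤ c → ∀ X : J m → ℝ,
      √(wt (cZ v)) * √(cZ X) ≤ κ * √(nsq (gg m h) v X) := by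
  obtain ⟨Q, hQ, hQ'⟩ := qq_bound hm hh c
  let κ2 : ℝ := Q ^ (2 * m - 1) / (1 / 10) ^ m
  have hκ2 : 0 < κ2 := by positivity
  refine ⟨√κ2, Real.sqrt_nonneg _, fun v hs' hc X => ?_⟩
  have hP := PP_pos hs'
  have hq := qq_pos hm hh hs'
  have hw := wt_pos (cZ_nonneg v)
  have ho := om_pos hs'
  have ho1 := one_le_om hs'
  have hA := cA_nonneg X
  have hB := cB_nonneg X
  have hZ := cZ_nonneg X
  have hP10 : 1 / 10 ≤ PP v := by
    unfold PP
    have h1 : (1 : ℝ) / 10 ≤ 1 - 3 / 4 * cs v := by linarith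
    nlinarith
  have h1 : PP v ^ m / qq h v ^ (2 * m - 1) * (wt (cZ v) * cZ X) ≤ nsq (gg m h) v X := by
    rw [gg, nsq_Gm]
    have : 0 ≤ qq h v ^ 2 / PP v * (cA X + cB X) := by positivity
    linarith [mul_assoc (PP v ^ m / qq h v ^ (2 * m - 1)) (wt (cZ v)) (cZ X)]
  have h2 : (1 / 10 : ℝ) ^ m / Q ^ (2 * m - 1) ≤ PP v ^ m / qq h v ^ (2 * m - 1) := by
    apply div_le_div₀ (by positivity) _ (by positivity) _
    · exact pow_le_pow_left₀ (by norm_num) hP10 m
    · exact pow_le_pow_left₀ hq.le (hQ' v hs' hc) _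
  have h3 : wt (cZ v) * cZ X ≤ κ2 * nsq (gg m h) v X := by
    have e1 : (1 / 10 : ℝ) ^ m / Q ^ (2 * m - 1) * (wt (cZ v) * cZ X) ≤ nsq (gg m h) v X :=
      (mul_le_mul_of_nonneg_right h2 (by positivity)).trans h1
    have e2 : wt (cZ v) * cZ X = κ2 * ((1 / 10 : ℝ) ^ m / Q ^ (2 * m - 1) *
        (wt (cZ v) * cZ X)) := by
      simp only [κ2]
      field_simp
    rw [e2]
    exact mul_le_mul_of_nonneg_left e1 hκ2.le
  rw [← Real.sqrt_mul hw.le, ← Real.sqrt_mul hκ2.le]
  exact Real.sqrt_le_sqrt h3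

/-- gradient bound of the second exhaustion function -/
lemma abs_fderiv_Ph2_le (v X : J m → ℝ) :
    |fderiv ℝ Ph2 v X| ≤ 2 * (√(wt (cZ v)) * √(cZ X)) := by
  have hZ := cZ_nonneg v
  have hL := one_le_one_add_log' v
  rw [fderiv_Ph2, abs_mul, abs_of_nonneg (by positivity)]
  have hb := abs_fderiv_cZ_le v X
  have hw : √(wt (cZ v)) = 1 / (√(1 + cZ v) * (1 + Real.log (1 + cZ v))) := by
    unfold wt
    rw [Real.sqrt_div (by norm_num), Real.sqrt_one, Real.sqrt_mul (by positivity),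
      Real.sqrt_sq (by linarith)]
  have hs1 : √(cZ v) ≤ √(1 + cZ v) := Real.sqrt_le_sqrt (by linarith)
  have hs2 : 0 < √(1 + cZ v) := Real.sqrt_pos.mpr (by linarith)
  have hs3 : √(1 + cZ v) * √(1 + cZ v) = 1 + cZ v := Real.mul_self_sqrt (by linarith)
  calc 1 / (1 + cZ v) / (1 + Real.log (1 + cZ v)) * |fderiv ℝ cZ v X|
      ≤ 1 / (1 + cZ v) / (1 + Real.log (1 + cZ v)) * (2 * √(cZ v) * √(cZ X)) :=
        mul_le_mul_of_nonneg_left hb (by positivity)
    _ ≤ 1 / (1 + cZ v) / (1 + Real.log (1 + cZ v)) * (2 * √(1 + cZ v) * √(cZ X)) := by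
        gcongr
    _ = 2 * (√(wt (cZ v)) * √(cZ X)) := by
        rw [hw]
        have e : 1 / (1 + cZ v) = 1 / (√(1 + cZ v) * √(1 + cZ v)) := by rw [hs3]
        rw [e]
        field_simp

/-- the compact exhaustion -/
lemma exists_compact (c c' : ℝ) : ∃ K : Set (J m → ℝ), IsCompact K ∧ K ⊆ MM m ∧
    ∀ x ∈ MM m, Ph1 x ≤ c → Ph2 x ≤ c' → x ∈ K := by
  let e : ℝ := Real.exp (-c)
  have he : 0 < e := Real.exp_pos _
  let K : Set (J m → ℝ) := {v | e ≤ xi (cs v) ∧ cZ v ≤ Real.exp (Real.exp c')}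
  have hKM : K ⊆ MM m := fun v hv => cs_lt_of_xi_pos (he.trans_le hv.1)
  refine ⟨K, ?_, hKM, ?_⟩
  · apply Metric.isCompact_of_isClosed_isBounded
    · exact (isClosed_le continuous_const
        ((contDiff_xi (n := 1)).continuous.comp contDiff_cs.continuous)).inter
        (isClosed_le contDiff_cZ.continuous continuous_const)
    · rw [isBounded_iff_forall_norm_le]
      refine ⟨√(6 / 5) + √(Real.exp (Real.exp c')), fun v hv => ?_⟩
      exact norm_le_of_bounds (le_of_lt (hKM hv)) hv.2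
  · intro v hv h1 h2
    have hx := xi_pos hv
    constructor
    · unfold Ph1 at h1
      have : -c ≤ Real.log (xi (cs v)) := by linarith
      exact (Real.le_log_iff_exp_le hx).mp this
    · have hL := one_le_one_add_log' v
      have hZ := cZ_nonneg v
      unfold Ph2 at h2
      have e1 : 1 + Real.log (1 + cZ v) ≤ Real.exp c' :=
        (Real.log_le_iff_le_exp (by linarith)).mp h2
      have e2 : Real.log (1 + cZ v) ≤ Real.exp c' := by linarith
      have e3 : 1 + cZ v ≤ Real.exp (Real.exp c') :=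
        (Real.log_le_iff_le_exp (by linarith)).mp e2
      linarith

theorem isCompleteRiemannian_gg (hm : 10000000 ≤ m) {h : ℝ} (hh : 0 < h) :
    IsCompleteRiemannian (MM m) (gg m h) := by
  apply isComplete_of_two_step (isRiemannianOn_gg hm hh) Ph1 Ph2 contDiffOn_Ph1
    contDiff_Ph2.contDiffOn (2000 * h)
  · intro x hx v
    exact abs_fderiv_Ph1_le hm hh hx v
  · intro c
    obtain ⟨κ, hκ, hκ'⟩ := sqrt_z_le hm hh c
    refine ⟨2 * κ, fun x hx hc v => ?_⟩
    have h1 := abs_fderiv_Ph2_le x v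
    have h2 := hκ' x hx hc v
    calc |fderiv ℝ Ph2 x v| ≤ 2 * (√(wt (cZ x)) * √(cZ v)) := h1
      _ ≤ 2 * (κ * √(nsq (gg m h) x v)) := by linarith
      _ = 2 * κ * √(nsq (gg m h) x v) := by ring
  · intro c c'
    exact exists_compact c c'

end Pool.Agent.Lib.MP_89119d_gt
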