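import Pool.Agent.Lib.MP_89119d_gt.Wts

namespace Pool.Agent.Lib.MP_89119d_gt

open MeasureTheory Set Topology Filter
open scoped ENNReal ContDiff Matrix

variable {m : ℕ}

/-! ### derivatives of the quadratic forms -/

lemma hasFDerivAt_sumsq {κ : Type} [Fintype κ] (e : κ → J m) (v : J m → ℝ) :
    HasFDerivAt (fun v : J m → ℝ => ∑ k, v (e k) ^ 2)
      (∑ k, (2 * v (e k)) • (ContinuousLinearMap.proj (R := ℝ) (φ := fun _ : J m => ℝ) (e k))) v := by
  apply HasFDerivAt.fun_sum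
  intro k _
  have h : HasFDerivAt (fun y : J m → ℝ => y (e k)) (ContinuousLinearMap.proj (R := ℝ)
      (φ := fun _ : J m => ℝ) (e k)) v := hasFDerivAt_apply (e k) v
  have := h.pow 2
  simpa using this

lemma fderiv_cA (v X : J m → ℝ) :
    fderiv ℝ cA v X = 2 * ∑ i, v (Sum.inl i) * X (Sum.inl i) := by
  have h := (hasFDerivAt_sumsq (fun i : Fin m => (Sum.inl i : J m)) v).fderiv
  have e : (cA : (J m → ℝ) → ℝ) = fun v : J m → ℝ => ∑ k, v (Sum.inl k) ^ 2 := rfl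
  rw [e, h, Finset.mul_sum]
  simp [mul_assoc]

lemma fderiv_cB (v X : J m → ℝ) :
    fderiv ℝ cB v X = 2 * ∑ j, v (Sum.inr (Sum.inl j)) * X (Sum.inr (Sum.inl j)) := by
  have h := (hasFDerivAt_sumsq (fun i : Fin m => (Sum.inr (Sum.inl i) : J m)) v).fderiv
  have e : (cB : (J m → ℝ) → ℝ) = fun v : J m → ℝ => ∑ k, v (Sum.inr (Sum.inl k)) ^ 2 := rfl
  rw [e, h, Finset.mul_sum]
  simp [mul_assoc]

lemma fderiv_cZ (v X : J m → ℝ) :
    fderiv ℝ cZ v X = 2 * ∑ k, v (Sum.inr (Sum.inr k)) * X (Sum.inr (Sum.inr k)) := by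
  have h := (hasFDerivAt_sumsq (fun i : Fin 2 => (Sum.inr (Sum.inr i) : J m)) v).fderiv
  have e : (cZ : (J m → ℝ) → ℝ) = fun v : J m → ℝ => ∑ k, v (Sum.inr (Sum.inr k)) ^ 2 := rfl
  rw [e, h, Finset.mul_sum]
  simp [mul_assoc]

lemma fderiv_cs (v X : J m → ℝ) : fderiv ℝ cs v X = fderiv ℝ cA v X + fderiv ℝ cB v X := by
  have e : (cs : (J m → ℝ) → ℝ) = fun v => cA v + cB v := rfl
  rw [e, fderiv_fun_add (contDiff_cA.differentiable (by simp) v)
    (contDiff_cB.differentiable (by simp) v)]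
  rfl

lemma abs_inl_le (v : J m → ℝ) (i : Fin m) : |v (Sum.inl i)| ≤ √(cs v) := by
  apply Real.abs_le_sqrt
  have h1 : v (Sum.inl i) ^ 2 ≤ cA v :=
    Finset.single_le_sum (f := fun i : Fin m => v (Sum.inl i) ^ 2)
      (fun _ _ => sq_nonneg _) (Finset.mem_univ i)
  have h2 := cB_nonneg v
  unfold cs
  linarith

lemma abs_inr_inl_le (v : J m → ℝ) (i : Fin m) : |v (Sum.inr (Sum.inl i))| ≤ √(cs v) := by
  apply Real.abs_le_sqrt
  have h1 : v (Sum.inr (Sum.inl i)) ^ 2 ≤ cB v :=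
    Finset.single_le_sum (f := fun i : Fin m => v (Sum.inr (Sum.inl i)) ^ 2)
      (fun _ _ => sq_nonneg _) (Finset.mem_univ i)
  have h2 := cA_nonneg v
  unfold cs
  linarith

lemma abs_inr_inr_le (v : J m → ℝ) (i : Fin 2) : |v (Sum.inr (Sum.inr i))| ≤ √(cZ v) := by
  apply Real.abs_le_sqrt
  exact Finset.single_le_sum (f := fun i : Fin 2 => v (Sum.inr (Sum.inr i)) ^ 2)
      (fun _ _ => sq_nonneg _) (Finset.mem_univ i)

lemma norm_fderiv_cs_le (v : J m → ℝ) : ‖fderiv ℝ cs v‖ ≤ 4 * m * √(cs v) := by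
  apply ContinuousLinearMap.opNorm_le_bound _ (by positivity)
  intro X
  rw [fderiv_cs, fderiv_cA, fderiv_cB, Real.norm_eq_abs]
  have hX : ∀ k : J m, |X k| ≤ ‖X‖ := fun k => by
    rw [← Real.norm_eq_abs]; exact norm_le_pi_norm X k
  have h1 : |∑ i, v (Sum.inl i) * X (Sum.inl i)| ≤ m * (√(cs v) * ‖X‖) := by
    calc |∑ i, v (Sum.inl i) * X (Sum.inl i)| ≤ ∑ i, |v (Sum.inl i) * X (Sum.inl i)| :=
          Finset.abs_sum_le_sum_abs _ _
      _ ≤ ∑ _i : Fin m, √(cs v) * ‖X‖ := by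
          apply Finset.sum_le_sum
          intro i _
          rw [abs_mul]
          exact mul_le_mul (abs_inl_le v i) (hX _) (abs_nonneg _) (Real.sqrt_nonneg _)
      _ = m * (√(cs v) * ‖X‖) := by simp
  have h2 : |∑ i, v (Sum.inr (Sum.inl i)) * X (Sum.inr (Sum.inl i))| ≤ m * (√(cs v) * ‖X‖) := by
    calc |∑ i, v (Sum.inr (Sum.inl i)) * X (Sum.inr (Sum.inl i))|
        ≤ ∑ i, |v (Sum.inr (Sum.inl i)) * X (Sum.inr (Sum.inl i))| :=
          Finset.abs_sum_le_sum_abs _ _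
      _ ≤ ∑ _i : Fin m, √(cs v) * ‖X‖ := by
          apply Finset.sum_le_sum
          intro i _
          rw [abs_mul]
          exact mul_le_mul (abs_inr_inl_le v i) (hX _) (abs_nonneg _) (Real.sqrt_nonneg _)
      _ = m * (√(cs v) * ‖X‖) := by simp
  calc |2 * ∑ i, v (Sum.inl i) * X (Sum.inl i) +
        2 * ∑ j, v (Sum.inr (Sum.inl j)) * X (Sum.inr (Sum.inl j))|
      ≤ |2 * ∑ i, v (Sum.inl i) * X (Sum.inl i)| +
        |2 * ∑ j, v (Sum.inr (Sum.inl j)) * X (Sum.inr (Sum.inl j))| := abs_add_le _ _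
    _ = 2 * |∑ i, v (Sum.inl i) * X (Sum.inl i)| +
        2 * |∑ j, v (Sum.inr (Sum.inl j)) * X (Sum.inr (Sum.inl j))| := by
        rw [abs_mul, abs_mul 2, abs_two]
    _ ≤ 2 * (m * (√(cs v) * ‖X‖)) + 2 * (m * (√(cs v) * ‖X‖)) := by linarith
    _ = 4 * m * √(cs v) * ‖X‖ := by ring

lemma fderiv_cs_Wf {v : J m → ℝ} (hs : 0 < cs v) (hs' : cs v < 6 / 5) :
    fderiv ℝ cs v (Wf v) = 2 * (wt (cZ v) * om (cs v) * e0 √(cs v) (cuv v)) := by
  have hp := par_v hs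
  have hS := (S2_pos (sqrt_sq_lt hs') hp.sq_u).ne'
  rw [fderiv_cs, fderiv_cA, fderiv_cB, ← hp.e0 hS]
  have e1 : ∑ i, v (Sum.inl i) * Wf v (Sum.inl i) =
      wt (cZ v) * om (cs v) * alp (cA v) (cB v) * cA v := by
    unfold cA
    rw [Finset.mul_sum]
    apply Finset.sum_congr rfl
    intro i _
    simp only [Wf, Sum.elim_inl, cA]
    ring
  have e2 : ∑ i, v (Sum.inr (Sum.inl i)) * Wf v (Sum.inr (Sum.inl i)) =
      wt (cZ v) * om (cs v) * bet (cA v) (cB v) * cB v := by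
    unfold cB
    rw [Finset.mul_sum]
    apply Finset.sum_congr rfl
    intro i _
    simp only [Wf, Sum.elim_inl, Sum.elim_inr, cB]
    ring
  rw [e1, e2]
  ring

lemma fderiv_cZ_Wf (v : J m → ℝ) : fderiv ℝ cZ v (Wf v) = 0 := by
  rw [fderiv_cZ]
  simp [Wf]

/-! ### the cutoff functions -/

/-- inner cutoff -/
noncomputable def cut1 (N : ℝ) (v : J m → ℝ) : ℝ := Real.smoothTransition (N ^ 2 * cs v - 1)

/-- outer cutoff -/
noncomputable def cut2 (N : ℝ) (v : J m → ℝ) : ℝ := Real.smoothTransition (N * xi (cs v) - 1)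

/-- cutoff in the `z` variables -/
noncomputable def cut3 (N : ℝ) (v : J m → ℝ) : ℝ := Real.smoothTransition (2 - cZ v / N)

/-- the cutoffs -/
noncomputable def et (j : ℕ) (v : J m → ℝ) : ℝ :=
  cut1 (j + 2 : ℝ) v * cut2 (j + 2 : ℝ) v * cut3 (j + 2 : ℝ) v

lemma contDiff_cut1 (N : ℝ) : ContDiff ℝ ∞ (cut1 N : (J m → ℝ) → ℝ) :=
  (Real.smoothTransition.contDiff (n := ⊤)).comp
    ((contDiff_const.mul contDiff_cs).sub contDiff_const)

lemma contDiff_cut2 (N : ℝ) : ContDiff ℝ ∞ (cut2 N : (J m → ℝ) → ℝ) :=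
  (Real.smoothTransition.contDiff (n := ⊤)).comp
    ((contDiff_const.mul ((contDiff_xi (n := ⊤)).comp contDiff_cs)).sub contDiff_const)

lemma contDiff_cut3 (N : ℝ) : ContDiff ℝ ∞ (cut3 N : (J m → ℝ) → ℝ) :=
  (Real.smoothTransition.contDiff (n := ⊤)).comp
    (contDiff_const.sub (contDiff_cZ.div_const _))

lemma contDiff_et (j : ℕ) : ContDiff ℝ ∞ (et j : (J m → ℝ) → ℝ) :=
  ((contDiff_cut1 _).mul (contDiff_cut2 _)).mul (contDiff_cut3 _)

lemma hasDerivAt_step (t : ℝ) :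
    HasDerivAt Real.smoothTransition (deriv Real.smoothTransition t) t :=
  ((Real.smoothTransition.contDiff (n := 1)).differentiable one_ne_zero _).hasDerivAt

lemma fderiv_cut1 (N : ℝ) (v : J m → ℝ) :
    fderiv ℝ (cut1 N) v = (deriv Real.smoothTransition (N ^ 2 * cs v - 1) * N ^ 2) •
      fderiv ℝ cs v := by
  have h1 : HasFDerivAt cs (fderiv ℝ cs v) v :=
    (contDiff_cs.differentiable (by simp) v).hasFDerivAt
  have h2 : HasFDerivAt (fun v : J m → ℝ => N ^ 2 * cs v - 1) (N ^ 2 • fderiv ℝ cs v) v :=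
    (h1.const_mul (N ^ 2)).sub_const 1
  have h3 := ((hasDerivAt_step (N ^ 2 * cs v - 1)).comp_hasFDerivAt v h2).fderiv
  have e : (cut1 N : (J m → ℝ) → ℝ) = Real.smoothTransition ∘
    (fun v : J m → ℝ => N ^ 2 * cs v - 1) := rfl
  rw [e, h3, smul_smul]

lemma fderiv_cut2 (N : ℝ) (v : J m → ℝ) :
    fderiv ℝ (cut2 N) v = (deriv Real.smoothTransition (N * xi (cs v) - 1) *
      (N * deriv xi (cs v))) • fderiv ℝ cs v := by
  have h1 : HasFDerivAt cs (fderiv ℝ cs v) v :=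
    (contDiff_cs.differentiable (by simp) v).hasFDerivAt
  have h0 : HasDerivAt xi (deriv xi (cs v)) (cs v) :=
    ((contDiff_xi (n := 1)).differentiable one_ne_zero _).hasDerivAt
  have h2 : HasFDerivAt (fun v : J m → ℝ => N * xi (cs v) - 1)
      (N • (deriv xi (cs v) • fderiv ℝ cs v)) v :=
    ((h0.comp_hasFDerivAt v h1).const_mul N).sub_const 1
  have h3 := ((hasDerivAt_step (N * xi (cs v) - 1)).comp_hasFDerivAt v h2).fderiv
  have e : (cut2 N : (J m → ℝ) → ℝ) = Real.smoothTransition ∘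
    (fun v : J m → ℝ => N * xi (cs v) - 1) := rfl
  rw [e, h3, smul_smul, smul_smul, mul_assoc]

lemma fderiv_cut3 (N : ℝ) (v : J m → ℝ) :
    fderiv ℝ (cut3 N) v = (deriv Real.smoothTransition (2 - cZ v / N) * (-N⁻¹)) •
      fderiv ℝ cZ v := by
  have h1 : HasFDerivAt cZ (fderiv ℝ cZ v) v :=
    (contDiff_cZ.differentiable (by simp) v).hasFDerivAt
  have h2 : HasFDerivAt (fun v : J m → ℝ => 2 - cZ v / N) ((-N⁻¹) • fderiv ℝ cZ v) v := by
    have := (h1.const_mul (N⁻¹)).const_sub 2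
    have e : (fun v : J m → ℝ => 2 - cZ v / N) = fun v => 2 - N⁻¹ * cZ v := by
      funext v; rw [div_eq_inv_mul]
    rw [e]
    have e2 : (-N⁻¹) • fderiv ℝ cZ v = -(N⁻¹ • fderiv ℝ cZ v) := by
      ext X; simp
    rw [e2]
    exact this
  have h3 := ((hasDerivAt_step (2 - cZ v / N)).comp_hasFDerivAt v h2).fderiv
  have e : (cut3 N : (J m → ℝ) → ℝ) = Real.smoothTransition ∘
    (fun v : J m → ℝ => 2 - cZ v / N) := rfl
  rw [e, h3, smul_smul]

lemma fderiv_et (j : ℕ) (v : J m → ℝ) :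
    fderiv ℝ (et j) v = (cut1 (j + 2 : ℝ) v * cut2 (j + 2 : ℝ) v) • fderiv ℝ (cut3 (j + 2 : ℝ)) v +
      cut3 (j + 2 : ℝ) v • (cut1 (j + 2 : ℝ) v • fderiv ℝ (cut2 (j + 2 : ℝ)) v +
        cut2 (j + 2 : ℝ) v • fderiv ℝ (cut1 (j + 2 : ℝ)) v) := by
  have h1 : DifferentiableAt ℝ (cut1 (j + 2 : ℝ)) v := (contDiff_cut1 _).differentiable (by simp) v
  have h2 : DifferentiableAt ℝ (cut2 (j + 2 : ℝ)) v := (contDiff_cut2 _).differentiable (by simp) v
  have h3 : DifferentiableAt ℝ (cut3 (j + 2 : ℝ)) v := (contDiff_cut3 _).differentiable (by simp) v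
  have e : (et j : (J m → ℝ) → ℝ) =
    fun v => (cut1 (j + 2 : ℝ) v * cut2 (j + 2 : ℝ) v) * cut3 (j + 2 : ℝ) v := rfl
  have h12 : DifferentiableAt ℝ
      (fun v : J m → ℝ => cut1 (j + 2 : ℝ) v * cut2 (j + 2 : ℝ) v) v := h1.mul h2
  rw [e, fderiv_fun_mul h12 h3, fderiv_fun_mul h1 h2]

lemma cut1_mem (N : ℝ) (v : J m → ℝ) : 0 ≤ cut1 N v ∧ cut1 N v ≤ 1 :=
  ⟨Real.smoothTransition.nonneg _, Real.smoothTransition.le_one _⟩

lemma cut2_mem (N : ℝ) (v : J m → ℝ) : 0 ≤ cut2 N v ∧ cut2 N v ≤ 1 :=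
  ⟨Real.smoothTransition.nonneg _, Real.smoothTransition.le_one _⟩

lemma cut3_mem (N : ℝ) (v : J m → ℝ) : 0 ≤ cut3 N v ∧ cut3 N v ≤ 1 :=
  ⟨Real.smoothTransition.nonneg _, Real.smoothTransition.le_one _⟩

lemma et_nonneg (j : ℕ) (v : J m → ℝ) : 0 ≤ et j v :=
  mul_nonneg (mul_nonneg (cut1_mem _ v).1 (cut2_mem _ v).1) (cut3_mem _ v).1

lemma et_le_one (j : ℕ) (v : J m → ℝ) : et j v ≤ 1 :=
  mul_le_one₀ (mul_le_one₀ (cut1_mem _ v).2 (cut2_mem _ v).1 (cut2_mem _ v).2)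
    (cut3_mem _ v).1 (cut3_mem _ v).2

lemma natN_pos (j : ℕ) : (0 : ℝ) < j + 2 := by positivity

/-- the compact set carrying `et j` -/
def Cj (m : ℕ) (j : ℕ) : Set (J m → ℝ) :=
  {v | 1 / ((j : ℝ) + 2) ^ 2 ≤ cs v ∧ 1 / ((j : ℝ) + 2) ≤ xi (cs v) ∧ cZ v ≤ 2 * ((j : ℝ) + 2)}

lemma isClosed_Cj (j : ℕ) : IsClosed (Cj m j) := by
  apply (isClosed_le continuous_const contDiff_cs.continuous).inter
  apply (isClosed_le continuous_const
    ((contDiff_xi (n := 1)).continuous.comp contDiff_cs.continuous)).inter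
  exact isClosed_le contDiff_cZ.continuous continuous_const

lemma cs_lt_of_xi_pos {s : ℝ} (h : 0 < xi s) : s < 6 / 5 := by
  by_contra hcon
  push Not at hcon
  rw [xi_eq_zero hcon] at h
  exact lt_irrefl _ h

/-- a set on which `cs` and `cZ` are bounded is bounded -/
lemma norm_le_of_bounds {v : J m → ℝ} {a b : ℝ} (h1 : cs v ≤ a) (h2 : cZ v ≤ b) :
    ‖v‖ ≤ √a + √b := by
  rw [pi_norm_le_iff_of_nonneg (by positivity)]
  intro k
  rw [Real.norm_eq_abs]
  have ha : √(cs v) ≤ √a := Real.sqrt_le_sqrt h1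
  have hb : √(cZ v) ≤ √b := Real.sqrt_le_sqrt h2
  have ha0 := Real.sqrt_nonneg a
  have hb0 := Real.sqrt_nonneg b
  rcases k with i | j | k
  · have := abs_inl_le v i
    linarith
  · have := abs_inr_inl_le v j
    linarith
  · have := abs_inr_inr_le v k
    linarith

lemma isCompact_Cj (j : ℕ) : IsCompact (Cj m j) := by
  apply Metric.isCompact_of_isClosed_isBounded (isClosed_Cj j)
  rw [isBounded_iff_forall_norm_le]
  refine ⟨√(6 / 5) + √(2 * ((j : ℝ) + 2)), fun v hv => ?_⟩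
  apply norm_le_of_bounds _ hv.2.2
  apply le_of_lt
  apply cs_lt_of_xi_pos
  have := natN_pos j
  exact lt_of_lt_of_le (by positivity) hv.2.1

lemma Cj_subset (j : ℕ) : Cj m j ⊆ {v | 0 < cs v ∧ cs v < 6 / 5} := by
  intro v hv
  have := natN_pos j
  refine ⟨lt_of_lt_of_le (by positivity) hv.1, ?_⟩
  apply cs_lt_of_xi_pos
  exact lt_of_lt_of_le (by positivity) hv.2.1

lemma tsupport_et (j : ℕ) : tsupport (et j : (J m → ℝ) → ℝ) ⊆ Cj m j := by
  apply closure_minimal _ (isClosed_Cj j)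
  intro v hv
  have hN := natN_pos j
  have h1 : cut1 ((j : ℝ) + 2) v ≠ 0 := by
    intro h; apply hv; simp only [et, h, zero_mul]
  have h2 : cut2 ((j : ℝ) + 2) v ≠ 0 := by
    intro h; apply hv; simp only [et, h, zero_mul, mul_zero]
  have h3 : cut3 ((j : ℝ) + 2) v ≠ 0 := by
    intro h; apply hv; simp only [et, h, mul_zero]
  refine ⟨?_, ?_, ?_⟩
  · by_contra hcon
    push Not at hcon
    apply h1
    apply Real.smoothTransition.zero_of_nonpos
    rw [lt_div_iff₀ (by positivity)] at hcon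
    linarith
  · by_contra hcon
    push Not at hcon
    apply h2
    apply Real.smoothTransition.zero_of_nonpos
    rw [lt_div_iff₀ (by positivity)] at hcon
    linarith
  · by_contra hcon
    push Not at hcon
    apply h3
    apply Real.smoothTransition.zero_of_nonpos
    have : 2 ≤ cZ v / ((j : ℝ) + 2) := by
      rw [le_div_iff₀ hN]; exact hcon.le
    linarith

lemma tendsto_natN : Tendsto (fun j : ℕ => (j : ℝ) + 2) atTop atTop :=
  tendsto_natCast_atTop_atTop.atTop_add tendsto_const_nhds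

/-- eventually all cutoffs are locally constant equal to one -/
lemma eventually_large_cut {v : J m → ℝ} (hs : 0 < cs v) (hs' : cs v < 6 / 5) :
    ∀ᶠ j : ℕ in atTop, 1 < ((j : ℝ) + 2) ^ 2 * cs v - 1 ∧ 1 < ((j : ℝ) + 2) * xi (cs v) - 1 ∧
      1 < 2 - cZ v / ((j : ℝ) + 2) := by
  have h1 : ∀ᶠ j : ℕ in atTop, 2 / cs v < (j : ℝ) + 2 := tendsto_natN.eventually_gt_atTop _
  have h2 : ∀ᶠ j : ℕ in atTop, 2 / xi (cs v) < (j : ℝ) + 2 := tendsto_natN.eventually_gt_atTop _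
  have h3 : ∀ᶠ j : ℕ in atTop, cZ v < (j : ℝ) + 2 := tendsto_natN.eventually_gt_atTop _
  filter_upwards [h1, h2, h3] with j e1 e2 e3
  have hN := natN_pos j
  have hN1 : (1 : ℝ) ≤ (j : ℝ) + 2 := by
    have : (0 : ℝ) ≤ j := Nat.cast_nonneg j
    linarith
  refine ⟨?_, ?_, ?_⟩
  · rw [div_lt_iff₀ hs] at e1
    have : ((j : ℝ) + 2) * cs v ≤ ((j : ℝ) + 2) ^ 2 * cs v := by
      apply mul_le_mul_of_nonneg_right _ hs.le
      nlinarith
    linarith
  · rw [div_lt_iff₀ (xi_pos hs')] at e2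
    linarith
  · have : cZ v / ((j : ℝ) + 2) < 1 := by
      rw [div_lt_one hN]; exact e3
    linarith

lemma tendsto_et {v : J m → ℝ} (hs : 0 < cs v) (hs' : cs v < 6 / 5) :
    Tendsto (fun j => et j v) atTop (𝓝 1) := by
  apply tendsto_const_nhds.congr'
  filter_upwards [eventually_large_cut hs hs'] with j hj
  simp only [et, cut1, cut2, cut3]
  rw [Real.smoothTransition.one_of_one_le hj.1.le, Real.smoothTransition.one_of_one_le hj.2.1.le,
    Real.smoothTransition.one_of_one_le hj.2.2.le]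
  norm_num

lemma eventually_fderiv_et {v : J m → ℝ} (hs : 0 < cs v) (hs' : cs v < 6 / 5) :
    ∀ᶠ j : ℕ in atTop, fderiv ℝ (et j) v = 0 := by
  filter_upwards [eventually_large_cut hs hs'] with j hj
  rw [fderiv_et, fderiv_cut1, fderiv_cut2, fderiv_cut3, deriv_step_of_one_lt hj.1,
    deriv_step_of_one_lt hj.2.1, deriv_step_of_one_lt hj.2.2]
  simp

end Pool.Agent.Lib.MP_89119d_gt
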