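import Mathlib

namespace Pool.Agent.Lib.MP_89119d_gt

open MeasureTheory Set Topology
open scoped ENNReal ContDiff Matrix

variable {ι : Type} [Fintype ι] [DecidableEq ι]

/-- The Euclidean divergence `∑ i, ∂ V_i / ∂ x_i` of a vector field `V` on `ℝ^ι`. -/
noncomputable def dvg (V : (ι → ℝ) → (ι → ℝ)) (x : ι → ℝ) : ℝ :=
  ∑ i, fderiv ℝ (fun y => V y i) x (Pi.single i 1)

/-- `g` is a smooth Riemannian metric on the open subset `M` of `ℝ^ι`: its coefficients are smooth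
on `M` and at every point of `M` the matrix `g x` is symmetric and positive definite. -/
def IsRiemannianOn (M : Set (ι → ℝ)) (g : (ι → ℝ) → Matrix ι ι ℝ) : Prop :=
  IsOpen M ∧ (∀ i j, ContDiffOn ℝ ∞ (fun x => g x i j) M) ∧ ∀ x ∈ M, (g x).PosDef

/-- The squared length `g_x(v,v)` of a tangent vector `v` at `x`. -/
noncomputable def nsq (g : (ι → ℝ) → Matrix ι ι ℝ) (x v : ι → ℝ) : ℝ := v ⬝ᵥ (g x *ᵥ v)

/-- The Riemannian volume density `√(det g)`. -/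
noncomputable def dens (g : (ι → ℝ) → Matrix ι ι ℝ) (x : ι → ℝ) : ℝ := √((g x).det)

/-- The Riemannian volume of `E ∩ M`. -/
noncomputable def vol (M : Set (ι → ℝ)) (g : (ι → ℝ) → Matrix ι ι ℝ) (E : Set (ι → ℝ)) : ℝ≥0∞ :=
  ∫⁻ x in E ∩ M, ENNReal.ofReal (dens g x)

/-- The Riemannian divergence `(√det g)⁻¹ ∑ i, ∂ (√det g X_i) / ∂ x_i` of a vector field `X`. -/
noncomputable def gdiv (g : (ι → ℝ) → Matrix ι ι ℝ) (X : (ι → ℝ) → (ι → ℝ)) (x : ι → ℝ) : ℝ :=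
  (dens g x)⁻¹ * dvg (fun y => dens g y • X y) x

/-- Smooth vector fields with compact support in `M` and `g`-length at most one. -/
def testFields (M : Set (ι → ℝ)) (g : (ι → ℝ) → Matrix ι ι ℝ) : Set ((ι → ℝ) → (ι → ℝ)) :=
  {X | ContDiff ℝ ∞ X ∧ HasCompactSupport X ∧ tsupport X ⊆ M ∧ ∀ x ∈ M, nsq g x (X x) ≤ 1}

/-- The perimeter of `E` in the Riemannian manifold `(M, g)`: the supremum of
`∫_E div_g X dvol_g` over all test fields `X`. -/
noncomputable def perimeter (M : Set (ι → ℝ)) (g : (ι → ℝ) → Matrix ι ι ℝ) (E : Set (ι → ℝ)) :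
    ℝ≥0∞ :=
  ⨆ X ∈ testFields M g, ENNReal.ofReal (∫ x in E ∩ M, gdiv g X x * dens g x)

/-- `Ω` is an isoperimetric region of `(M, g)`: a set of finite perimeter with
`0 < |Ω| < |M|` whose perimeter is at most that of every set of the same volume. -/
def IsIsoperimetricRegion (M : Set (ι → ℝ)) (g : (ι → ℝ) → Matrix ι ι ℝ) (Ω : Set (ι → ℝ)) :
    Prop :=
  MeasurableSet Ω ∧ Ω ⊆ M ∧ 0 < vol M g Ω ∧ vol M g Ω < vol M g M ∧ perimeter M g Ω < ⊤ ∧
    ∀ E : Set (ι → ℝ), MeasurableSet E → E ⊆ M → vol M g E = vol M g Ω →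
      perimeter M g Ω ≤ perimeter M g E

/-- The (measure theoretic) boundary of `Ω` in `M`: the points of `M` all of whose neighbourhoods
meet both `Ω` and its complement in a set of positive volume. -/
def bdry (M : Set (ι → ℝ)) (g : (ι → ℝ) → Matrix ι ι ℝ) (Ω : Set (ι → ℝ)) : Set (ι → ℝ) :=
  {x | x ∈ M ∧ ∀ U : Set (ι → ℝ), IsOpen U → x ∈ U → 0 < vol M g (U ∩ Ω) ∧ 0 < vol M g (U \ Ω)}

/-- The regular part of the boundary: the points of `∂Ω` near which `∂Ω` is a smooth embedded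
hypersurface, that is, the zero set of a smooth function with nonvanishing differential. -/
def regularPart (M : Set (ι → ℝ)) (g : (ι → ℝ) → Matrix ι ι ℝ) (Ω : Set (ι → ℝ)) :
    Set (ι → ℝ) :=
  {x | x ∈ bdry M g Ω ∧ ∃ (U : Set (ι → ℝ)) (f : (ι → ℝ) → ℝ), IsOpen U ∧ x ∈ U ∧ U ⊆ M ∧
    ContDiffOn ℝ ∞ f U ∧ (∀ y ∈ U, fderiv ℝ f y ≠ 0) ∧ bdry M g Ω ∩ U = {y | y ∈ U ∧ f y = 0}}

/-- The singular set of the boundary. -/
def singularSet (M : Set (ι → ℝ)) (g : (ι → ℝ) → Matrix ι ι ℝ) (Ω : Set (ι → ℝ)) :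
    Set (ι → ℝ) := bdry M g Ω \ regularPart M g Ω

/-- `f` is a local defining function of `Ω` at `x`: `f` is smooth with nonvanishing differential
near `x`, `f x = 0`, and near `x` the set `Ω` agrees with `{f < 0}` up to a set of volume zero. -/
def IsDefiningAt (M : Set (ι → ℝ)) (g : (ι → ℝ) → Matrix ι ι ℝ) (Ω : Set (ι → ℝ))
    (f : (ι → ℝ) → ℝ) (x : ι → ℝ) : Prop :=
  f x = 0 ∧ ∃ U : Set (ι → ℝ), IsOpen U ∧ x ∈ U ∧ U ⊆ M ∧ ContDiffOn ℝ ∞ f U ∧
    (∀ y ∈ U, fderiv ℝ f y ≠ 0) ∧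
    vol M g (U ∩ (Ω \ {y | f y < 0})) = 0 ∧ vol M g (U ∩ ({y | f y < 0} \ Ω)) = 0

/-- The coordinate differential `(∂f/∂x_i)_i`. -/
noncomputable def grad (f : (ι → ℝ) → ℝ) (x : ι → ℝ) : ι → ℝ :=
  fun i => fderiv ℝ f x (Pi.single i 1)

/-- The `g`-unit normal field `∇_g f / |∇_g f|_g` of the level sets of `f`; here
`∇_g f = g⁻¹ df` and `|∇_g f|_g² = df(g⁻¹ df)`. -/
noncomputable def unitNormal (g : (ι → ℝ) → Matrix ι ι ℝ) (f : (ι → ℝ) → ℝ) (x : ι → ℝ) : ι → ℝ :=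
  (√(grad f x ⬝ᵥ ((g x)⁻¹ *ᵥ grad f x)))⁻¹ • ((g x)⁻¹ *ᵥ grad f x)

/-- The mean curvature (the sum of the principal curvatures) at `x` of the hypersurface
`{f = f x}`, with respect to the unit normal `∇_g f / |∇_g f|_g`: the Riemannian divergence of the
unit normal field of the level sets of `f`. -/
noncomputable def meanCurvature (g : (ι → ℝ) → Matrix ι ι ℝ) (f : (ι → ℝ) → ℝ) (x : ι → ℝ) : ℝ :=
  gdiv g (unitNormal g f) x

/-- The regular part of `∂Ω` has constant mean curvature `H` with respect to the outward unit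
normal: at each regular boundary point `Ω` has a local defining function, and for every local
defining function the mean curvature is `H`. -/
def HasConstantMeanCurvature (M : Set (ι → ℝ)) (g : (ι → ℝ) → Matrix ι ι ℝ) (Ω : Set (ι → ℝ))
    (H : ℝ) : Prop :=
  ∀ x ∈ regularPart M g Ω, (∃ f, IsDefiningAt M g Ω f x) ∧
    ∀ f, IsDefiningAt M g Ω f x → meanCurvature g f x = H

/-- Completeness of `(M, g)`: every curve `[0,1) → M` of class `C¹` and of finite length stays in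
a compact subset of `M`. -/
def IsCompleteRiemannian (M : Set (ι → ℝ)) (g : (ι → ℝ) → Matrix ι ι ℝ) : Prop :=
  ∀ γ : ℝ → (ι → ℝ), ContDiffOn ℝ 1 γ (Set.Ico 0 1) → (∀ t ∈ Set.Ico (0 : ℝ) 1, γ t ∈ M) →
    ∫⁻ t in Set.Ioo (0 : ℝ) 1, ENNReal.ofReal √(nsq g (γ t) (deriv γ t)) < ⊤ →
    ∃ K : Set (ι → ℝ), IsCompact K ∧ K ⊆ M ∧ ∀ t ∈ Set.Ico (0 : ℝ) 1, γ t ∈ K

end Pool.Agent.Lib.MP_89119d_gt
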