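import Pool.Agent.Lib.MP_89119d_gt.Defs

namespace Pool.Agent.Lib.MP_89119d_gt

open MeasureTheory Set Topology Filter
open scoped ENNReal ContDiff Matrix

variable {ι : Type} [Fintype ι] [DecidableEq ι]

lemma sum_single_mul (L : (ι → ℝ) →L[ℝ] ℝ) (v : ι → ℝ) :
    ∑ i, L (Pi.single i 1) * v i = L v := by
  conv_rhs => rw [← Finset.univ_sum_single v]
  rw [map_sum]
  apply Finset.sum_congr rfl
  intro i _
  have : (Pi.single i (v i) : ι → ℝ) = v i • Pi.single i (1 : ℝ) := by
    rw [← Pi.single_smul]; simp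
  rw [this, map_smul, smul_eq_mul, mul_comm]

lemma dvg_congr {V W : (ι → ℝ) → (ι → ℝ)} {x : ι → ℝ} (h : V =ᶠ[𝓝 x] W) : dvg V x = dvg W x := by
  unfold dvg
  apply Finset.sum_congr rfl
  intro i _
  have : (fun y => V y i) =ᶠ[𝓝 x] (fun y => W y i) := by
    filter_upwards [h] with y hy
    rw [hy]
  rw [this.fderiv_eq]

lemma dvg_of_eventually_zero {V : (ι → ℝ) → (ι → ℝ)} {x : ι → ℝ} (h : ∀ᶠ y in 𝓝 x, V y = 0) :
    dvg V x = 0 := by
  have : V =ᶠ[𝓝 x] (fun _ => 0) := h
  rw [dvg_congr this]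
  unfold dvg
  simp

lemma dvg_smul {φ : (ι → ℝ) → ℝ} {V : (ι → ℝ) → (ι → ℝ)} {x : ι → ℝ}
    (hφ : DifferentiableAt ℝ φ x) (hV : DifferentiableAt ℝ V x) :
    dvg (fun y => φ y • V y) x = φ x * dvg V x + fderiv ℝ φ x (V x) := by
  have hVi : ∀ i, DifferentiableAt ℝ (fun y => V y i) x := fun i => differentiableAt_pi.mp hV i
  have h1 : ∀ i, fderiv ℝ (fun y => (φ y • V y) i) x (Pi.single i 1) =
      φ x * fderiv ℝ (fun y => V y i) x (Pi.single i 1) +
        fderiv ℝ φ x (Pi.single i 1) * V x i := by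
    intro i
    have : (fun y => (φ y • V y) i) = fun y => φ y * V y i := by
      funext y; simp
    rw [this, fderiv_fun_mul hφ (hVi i)]
    simp only [ContinuousLinearMap.add_apply, ContinuousLinearMap.smul_apply, smul_eq_mul]
    ring
  unfold dvg
  simp only [h1]
  rw [Finset.sum_add_distrib, ← Finset.mul_sum, sum_single_mul]

lemma dvg_sub {V W : (ι → ℝ) → (ι → ℝ)} {x : ι → ℝ}
    (hV : DifferentiableAt ℝ V x) (hW : DifferentiableAt ℝ W x) :
    dvg (fun y => V y - W y) x = dvg V x - dvg W x := by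
  have hVi : ∀ i, DifferentiableAt ℝ (fun y => V y i) x := fun i => differentiableAt_pi.mp hV i
  have hWi : ∀ i, DifferentiableAt ℝ (fun y => W y i) x := fun i => differentiableAt_pi.mp hW i
  unfold dvg
  rw [← Finset.sum_sub_distrib]
  apply Finset.sum_congr rfl
  intro i _
  have : (fun y => (V y - W y) i) = fun y => V y i - W y i := by
    funext y; simp
  rw [this, fderiv_fun_sub (hVi i) (hWi i)]
  simp

lemma continuous_dvg {V : (ι → ℝ) → (ι → ℝ)} (hV : ContDiff ℝ 1 V) : Continuous (dvg V) := by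
  unfold dvg
  apply continuous_finset_sum
  intro i _
  have hVi : ContDiff ℝ 1 (fun y => V y i) := contDiff_pi.mp hV i
  exact (hVi.continuous_fderiv one_ne_zero).clm_apply continuous_const

lemma continuousOn_dvg {O : Set (ι → ℝ)} (hO : IsOpen O) {V : (ι → ℝ) → (ι → ℝ)}
    (hV : ContDiffOn ℝ 1 V O) : ContinuousOn (dvg V) O := by
  unfold dvg
  apply continuousOn_finset_sum
  intro i _
  have hVi : ContDiffOn ℝ 1 (fun y => V y i) O := contDiffOn_pi.mp hV i
  exact (hVi.continuousOn_fderiv_of_isOpen hO le_rfl).clm_apply continuousOn_const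

lemma dvg_eq_zero_of_notMem_tsupport {V : (ι → ℝ) → (ι → ℝ)} {x : ι → ℝ} (hx : x ∉ tsupport V) :
    dvg V x = 0 := by
  apply dvg_of_eventually_zero
  have := notMem_tsupport_iff_eventuallyEq.mp hx
  filter_upwards [this] with y hy
  simpa using hy

lemma hasCompactSupport_dvg {V : (ι → ℝ) → (ι → ℝ)} (hc : HasCompactSupport V) :
    HasCompactSupport (dvg V) :=
  HasCompactSupport.intro' hc.isCompact (isClosed_tsupport V)
    (fun _ hx => dvg_eq_zero_of_notMem_tsupport hx)

lemma integrable_dvg {V : (ι → ℝ) → (ι → ℝ)} (hV : ContDiff ℝ 1 V) (hc : HasCompactSupport V) :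
    Integrable (dvg V) :=
  (continuous_dvg hV).integrable_of_hasCompactSupport (hasCompactSupport_dvg hc)

lemma integral_dvg_eq_zero {V : (ι → ℝ) → (ι → ℝ)} (hV : ContDiff ℝ 1 V)
    (hc : HasCompactSupport V) : ∫ x, dvg V x = 0 := by
  have hVi : ∀ i, ContDiff ℝ 1 (fun y => V y i) := contDiff_pi.mp hV
  have hci : ∀ i, HasCompactSupport (fun y => V y i) := fun i =>
    hc.comp_left (g := fun w : ι → ℝ => w i) rfl
  have hint : ∀ i, Integrable (fun x => fderiv ℝ (fun y => V y i) x (Pi.single i 1)) := by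
    intro i
    apply Continuous.integrable_of_hasCompactSupport
    · exact ((hVi i).continuous_fderiv one_ne_zero).clm_apply continuous_const
    · exact (hci i).fderiv_apply (𝕜 := ℝ) _
  unfold dvg
  rw [integral_finset_sum _ (fun i _ => hint i)]
  apply Finset.sum_eq_zero
  intro i _
  have h := integral_mul_fderiv_eq_neg_fderiv_mul_of_integrable (μ := volume)
    (f := fun _ : ι → ℝ => (1 : ℝ)) (g := fun y => V y i) (v := Pi.single i 1)
    (by simp) (by simpa using hint i)
    (by
      have : Integrable (fun y => V y i) :=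
        (hVi i).continuous.integrable_of_hasCompactSupport (hci i)
      simpa using this)
    (fun x _ => differentiableAt_const _)
    (fun x _ => (hVi i).differentiable one_ne_zero x)
  simpa using h

/-! ### the smooth step -/

lemma deriv_step_nonneg (t : ℝ) : 0 ≤ deriv Real.smoothTransition t :=
  Real.smoothTransition.monotone.deriv_nonneg

lemma deriv_step_of_neg {t : ℝ} (ht : t < 0) : deriv Real.smoothTransition t = 0 := by
  have : Real.smoothTransition =ᶠ[𝓝 t] (fun _ => 0) := by
    filter_upwards [Iio_mem_nhds ht] with s hs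
    exact Real.smoothTransition.zero_of_nonpos (le_of_lt hs)
  rw [this.deriv_eq, deriv_const]

lemma deriv_step_of_one_lt {t : ℝ} (ht : 1 < t) : deriv Real.smoothTransition t = 0 := by
  have : Real.smoothTransition =ᶠ[𝓝 t] (fun _ => 1) := by
    filter_upwards [Ioi_mem_nhds ht] with s hs
    exact Real.smoothTransition.one_of_one_le (le_of_lt hs)
  rw [this.deriv_eq, deriv_const]

lemma continuous_deriv_step : Continuous (deriv Real.smoothTransition) :=
  (Real.smoothTransition.contDiff (n := 1)).continuous_deriv le_rfl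

lemma exists_bound_step : ∃ C₀ : ℝ, 0 ≤ C₀ ∧ ∀ t, deriv Real.smoothTransition t ≤ C₀ := by
  obtain ⟨C, hC⟩ := (isCompact_Icc (a := (0 : ℝ)) (b := 1)).exists_bound_of_continuousOn
    continuous_deriv_step.continuousOn
  refine ⟨max C 0, le_max_right _ _, fun t => ?_⟩
  by_cases h0 : t < 0
  · rw [deriv_step_of_neg h0]; exact le_max_right _ _
  by_cases h1 : 1 < t
  · rw [deriv_step_of_one_lt h1]; exact le_max_right _ _
  push Not at h0 h1
  exact (le_abs_self _).trans ((hC t ⟨h0, h1⟩).trans (le_max_left _ _))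

lemma exists_bound_kappa :
    ∃ C₀ : ℝ, 0 ≤ C₀ ∧ ∀ t, |t| * deriv Real.smoothTransition t ≤ C₀ := by
  obtain ⟨C, hC0, hC⟩ := exists_bound_step
  refine ⟨C, hC0, fun t => ?_⟩
  by_cases h0 : t < 0
  · rw [deriv_step_of_neg h0]; simpa using hC0
  by_cases h1 : 1 < t
  · rw [deriv_step_of_one_lt h1]; simpa using hC0
  push Not at h0 h1
  rw [abs_of_nonneg h0]
  calc t * deriv Real.smoothTransition t ≤ 1 * deriv Real.smoothTransition t :=
        mul_le_mul_of_nonneg_right h1 (deriv_step_nonneg t)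
    _ ≤ C := by rw [one_mul]; exact hC t

end Pool.Agent.Lib.MP_89119d_gt
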