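import Pool.Agent.Lib.MP_89119d_gt.Coord
import Pool.Agent.Lib.MP_89119d_gt.AB

namespace Pool.Agent.Lib.MP_89119d_gt

open MeasureTheory Set Topology
open scoped ENNReal ContDiff Matrix

/-! Definitions of the example. -/

variable {m : ℕ}

/-- the manifold `B × ℝ²`, `B` the ball `|x|² + |y|² < 6/5` -/
def MM (m : ℕ) : Set (J m → ℝ) := {v | cs v < 6 / 5}

/-- the defining function `|x|² - |y|² + r³` -/
noncomputable def FF (v : J m → ℝ) : ℝ := cA v - cB v + cs v * √(cs v)

/-- the region -/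
def Om (m : ℕ) : Set (J m → ℝ) := {v | v ∈ MM m ∧ FF v < 0}

/-- the diagonal metric with perimeter weight `√P w` and volume weight `q w` -/
noncomputable def Gm (m : ℕ) (q P w : (J m → ℝ) → ℝ) (v : J m → ℝ) : Matrix (J m) (J m) ℝ :=
  Matrix.diagonal (Sum.elim (fun _ => q v ^ 2 / P v)
    (Sum.elim (fun _ => q v ^ 2 / P v) (fun _ => P v ^ m / q v ^ (2 * m - 1) * w v)))

/-- a smooth function equal to one for `s ≤ 1` and vanishing for `s ≥ 6/5` -/
noncomputable def xi (s : ℝ) : ℝ := Real.smoothTransition (6 - 5 * s)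

/-- the factor `ω₁` -/
noncomputable def om (s : ℝ) : ℝ := (xi s)⁻¹

/-- cutoff near the singular set: one for `s ≤ 9/400`, zero for `s ≥ 1/36` -/
noncomputable def chi (s : ℝ) : ℝ := Real.smoothTransition ((1 / 36 - s) / (1 / 36 - 9 / 400))

/-- the calibrating field (multiplied by the density) -/
noncomputable def Wf (v : J m → ℝ) : J m → ℝ :=
  Sum.elim (fun i => wt (cZ v) * om (cs v) * alp (cA v) (cB v) * v (Sum.inl i))
    (Sum.elim (fun j => wt (cZ v) * om (cs v) * bet (cA v) (cB v) * v (Sum.inr (Sum.inl j)))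
      (fun _ => 0))

/-- the volume weight -/
noncomputable def qq (h : ℝ) (v : J m → ℝ) : ℝ :=
  (chi (cs v) * (3 * m - 2) + (1 - chi (cs v)) * (dvg Wf v / wt (cZ v))) / h

/-- the square of the perimeter weight -/
noncomputable def PP (v : J m → ℝ) : ℝ := om (cs v) ^ 2 * (1 - 3 / 4 * cs v)

/-- the metric of the example -/
noncomputable def gg (m : ℕ) (h : ℝ) : (J m → ℝ) → Matrix (J m) (J m) ℝ :=
  Gm m (qq h) PP (fun v => wt (cZ v))

end Pool.Agent.Lib.MP_89119d_gt
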