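import Pool.Agent.Lib.MP_89119d_gt.Coord

namespace Pool.Agent.Lib.MP_89119d_gt

open MeasureTheory Set Topology Filter
open scoped ENNReal ContDiff Matrix

variable {m : ℕ}

theorem cA_nonneg (v : J m → ℝ) : 0 ≤ cA v := Finset.sum_nonneg fun _ _ => sq_nonneg _

theorem cB_nonneg (v : J m → ℝ) : 0 ≤ cB v := Finset.sum_nonneg fun _ _ => sq_nonneg _

theorem cZ_nonneg (v : J m → ℝ) : 0 ≤ cZ v := Finset.sum_nonneg fun _ _ => sq_nonneg _

theorem cs_nonneg (v : J m → ℝ) : 0 ≤ cs v := add_nonneg (cA_nonneg v) (cB_nonneg v)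

theorem contDiff_cA : ContDiff ℝ ∞ (cA : (J m → ℝ) → ℝ) := by unfold cA; fun_prop

theorem contDiff_cB : ContDiff ℝ ∞ (cB : (J m → ℝ) → ℝ) := by unfold cB; fun_prop

theorem contDiff_cZ : ContDiff ℝ ∞ (cZ : (J m → ℝ) → ℝ) := by unfold cZ; fun_prop

theorem contDiff_cs : ContDiff ℝ ∞ (cs : (J m → ℝ) → ℝ) := by
  have h : (cs : (J m → ℝ) → ℝ) = fun v => cA v + cB v := rfl
  rw [h]
  exact contDiff_cA.add contDiff_cB

theorem one_le_one_add_log {Z : ℝ} (hZ : 0 ≤ Z) : 1 ≤ 1 + Real.log (1 + Z) := by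
  have := Real.log_nonneg (show (1:ℝ) ≤ 1 + Z by linarith)
  linarith

theorem wt_pos {Z : ℝ} (hZ : 0 ≤ Z) : 0 < wt Z := by
  have := one_le_one_add_log hZ
  unfold wt
  positivity

theorem contDiffAt_wt {Z : ℝ} (hZ : 0 ≤ Z) : ContDiffAt ℝ ∞ wt Z := by
  have h1 := one_le_one_add_log hZ
  have h2 : (1 + Z : ℝ) ≠ 0 := by linarith
  have h3 : ContDiffAt ℝ ∞ (fun Z : ℝ => (1 + Z) * (1 + Real.log (1 + Z)) ^ 2) Z := by
    have h4 : ContDiffAt ℝ ∞ (fun Z : ℝ => Real.log (1 + Z)) Z :=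
      ContDiffAt.log (by fun_prop) h2
    fun_prop
  exact contDiffAt_const.div h3 (by positivity)

theorem contDiff_wt_comp : ContDiff ℝ ∞ (fun v : J m → ℝ => wt (cZ v)) := by
  rw [contDiff_iff_contDiffAt]
  intro v
  exact (contDiffAt_wt (cZ_nonneg v)).comp v contDiff_cZ.contDiffAt

theorem wt_anti {Z Z' : ℝ} (hZ : 0 ≤ Z) (h : Z ≤ Z') : wt Z' ≤ wt Z := by
  have h1 := one_le_one_add_log hZ
  have h2 : Real.log (1 + Z) ≤ Real.log (1 + Z') := Real.log_le_log (by linarith) (by linarith)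
  unfold wt
  apply one_div_le_one_div_of_le (by positivity)
  have h3 : 0 ≤ 1 + Real.log (1 + Z) := by linarith
  have h4 : 0 ≤ 1 + Z' := by linarith
  gcongr

/-- `|z|²` on `ℝ²`. -/
noncomputable def z2 (z : Fin 2 → ℝ) : ℝ := ∑ k, z k ^ 2

theorem integrable_wt_z2 : Integrable (fun z : Fin 2 → ℝ => wt (z2 z)) := by
  have hz2 : ∀ z : Fin 2 → ℝ, ‖z‖ ^ 2 ≤ z2 z := by
    intro z
    have h1 : ‖z‖ ≤ √(z2 z) := by
      rw [pi_norm_le_iff_of_nonneg (Real.sqrt_nonneg _)]
      intro k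
      apply Real.le_sqrt_of_sq_le
      rw [Real.norm_eq_abs, sq_abs]
      exact Finset.single_le_sum (f := fun k => z k ^ 2) (fun _ _ => sq_nonneg _) (Finset.mem_univ k)
    have h2 : 0 ≤ z2 z := Finset.sum_nonneg fun _ _ => sq_nonneg _
    calc ‖z‖ ^ 2 ≤ √(z2 z) ^ 2 := by gcongr
      _ = z2 z := Real.sq_sqrt h2
  have hcont : Continuous (fun z : Fin 2 → ℝ => wt (z2 z)) := by
    rw [continuous_iff_continuousAt]
    intro z
    have h2 : 0 ≤ z2 z := Finset.sum_nonneg fun _ _ => sq_nonneg _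
    have h3 : ContinuousAt z2 z := (show Continuous z2 by unfold z2; fun_prop).continuousAt
    exact ContinuousAt.comp (f := z2) (g := wt) (contDiffAt_wt h2).continuousAt h3
  have hmaj : Integrable (fun z : Fin 2 → ℝ => wt (‖z‖ ^ 2)) := by
    have h := integrable_fun_norm_addHaar (E := Fin 2 → ℝ) (F := ℝ) (volume : Measure (Fin 2 → ℝ))
      (f := fun r => wt (r ^ 2))
    refine h.2 ?_
    have hd : Module.finrank ℝ (Fin 2 → ℝ) = 2 := by simp
    rw [hd]
    have key : IntegrableOn (fun r : ℝ => r / ((1 + r ^ 2) * (1 + Real.log (1 + r ^ 2)) ^ 2)) (Ioi 0) := by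
      apply integrableOn_Ioi_deriv_of_nonneg' (g := fun r : ℝ => -(1 / 2) * (1 + Real.log (1 + r ^ 2))⁻¹)
        (l := 0)
      · intro r _
        have h1 := one_le_one_add_log (sq_nonneg r)
        have h2 : HasDerivAt (fun r : ℝ => 1 + r ^ 2) (2 * r) r := by
          have := ((hasDerivAt_id r).pow 2).const_add 1
          simpa using this
        have h3 : HasDerivAt (fun r : ℝ => 1 + Real.log (1 + r ^ 2)) (2 * r / (1 + r ^ 2)) r :=
          (h2.log (by positivity)).const_add 1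
        have h4 := (h3.inv (by positivity)).const_mul (-(1/2) : ℝ)
        refine h4.congr_deriv ?_
        have h5 : (1 + r ^ 2 : ℝ) ≠ 0 := by positivity
        have h6 : (1 + Real.log (1 + r ^ 2) : ℝ) ≠ 0 := by positivity
        field_simp
      · intro r hr
        have h1 := one_le_one_add_log (sq_nonneg r)
        have hr' : 0 < r := hr
        positivity
      · have h1 : Tendsto (fun r : ℝ => 1 + Real.log (1 + r ^ 2)) atTop atTop := by
          apply tendsto_atTop_add_const_left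
          apply Real.tendsto_log_atTop.comp
          apply tendsto_atTop_add_const_left
          exact tendsto_pow_atTop two_ne_zero
        have h2 := h1.inv_tendsto_atTop.const_mul (-(1/2) : ℝ)
        simpa using h2
    refine key.congr_fun (fun r _ => ?_) measurableSet_Ioi
    simp only [wt, smul_eq_mul]
    rw [show 2 - 1 = 1 from rfl, pow_one]
    ring
  refine hmaj.mono' hcont.aestronglyMeasurable (Eventually.of_forall fun z => ?_)
  have h2 : 0 ≤ z2 z := Finset.sum_nonneg fun _ _ => sq_nonneg _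
  rw [Real.norm_eq_abs, abs_of_pos (wt_pos h2)]
  exact wt_anti (sq_nonneg _) (hz2 z)

/-- The splitting of the coordinates. -/
noncomputable def spl (m : ℕ) : (J m → ℝ) ≃ᵐ ((Fin m → ℝ) × (Fin m → ℝ)) × (Fin 2 → ℝ) :=
  (MeasurableEquiv.sumPiEquivProdPi (fun _ : J m => ℝ)).trans
    ((MeasurableEquiv.prodCongr (MeasurableEquiv.refl (Fin m → ℝ))
      (MeasurableEquiv.sumPiEquivProdPi (fun _ : Fin m ⊕ Fin 2 => ℝ))).trans
      MeasurableEquiv.prodAssoc.symm)

theorem spl_apply (v : J m → ℝ) : spl m v = ((fun i => v (Sum.inl i), fun j => v (Sum.inr (Sum.inl j))),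
    fun k => v (Sum.inr (Sum.inr k))) := rfl

theorem mp_spl : MeasurePreserving (spl m) volume volume := by
  have h1 := volume_measurePreserving_sumPiEquivProdPi (fun _ : J m => ℝ)
  have h2 : MeasurePreserving (Prod.map (id : (Fin m → ℝ) → (Fin m → ℝ))
      (MeasurableEquiv.sumPiEquivProdPi (fun _ : Fin m ⊕ Fin 2 => ℝ))) volume volume :=
    (MeasurePreserving.id volume).prod
      (volume_measurePreserving_sumPiEquivProdPi (fun _ : Fin m ⊕ Fin 2 => ℝ))
  have h3 := (volume_preserving_prodAssoc (α₁ := Fin m → ℝ) (β₁ := Fin m → ℝ)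
    (γ₁ := Fin 2 → ℝ)).symm
  exact h3.comp (h2.comp h1)

theorem integrable_split {F : (Fin m → ℝ) × (Fin m → ℝ) → ℝ} (hF : Integrable F) :
    Integrable (fun v : J m → ℝ => F (spl m v).1 * wt (cZ v)) := by
  have h1 : Integrable (fun p : ((Fin m → ℝ) × (Fin m → ℝ)) × (Fin 2 → ℝ) => F p.1 * wt (z2 p.2)) :=
    hF.mul_prod integrable_wt_z2
  exact (mp_spl.integrable_comp_emb (spl m).measurableEmbedding).2 h1

theorem norm_le_sqrt_cs (v : J m → ℝ) : ‖(spl m v).1‖ ≤ √(cs v) := by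
  rw [spl_apply, Prod.norm_def]
  apply max_le
  · rw [pi_norm_le_iff_of_nonneg (Real.sqrt_nonneg _)]
    intro i
    apply Real.le_sqrt_of_sq_le
    rw [Real.norm_eq_abs, sq_abs]
    have h1 : v (Sum.inl i) ^ 2 ≤ cA v :=
      Finset.single_le_sum (f := fun i => v (Sum.inl i) ^ 2) (fun _ _ => sq_nonneg _) (Finset.mem_univ i)
    have h2 := cB_nonneg v
    unfold cs
    linarith
  · rw [pi_norm_le_iff_of_nonneg (Real.sqrt_nonneg _)]
    intro i
    apply Real.le_sqrt_of_sq_le
    rw [Real.norm_eq_abs, sq_abs]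
    have h1 : v (Sum.inr (Sum.inl i)) ^ 2 ≤ cB v :=
      Finset.single_le_sum (f := fun i => v (Sum.inr (Sum.inl i)) ^ 2) (fun _ _ => sq_nonneg _)
        (Finset.mem_univ i)
    have h2 := cA_nonneg v
    unfold cs
    linarith

theorem measurableSet_cs_lt (R : ℝ) : MeasurableSet {v : J m → ℝ | cs v < R} :=
  (isOpen_lt contDiff_cs.continuous continuous_const).measurableSet

theorem norm_lt_of_cs_lt {R : ℝ} {v : J m → ℝ} (hv : cs v < R) :
    (spl m v).1 ∈ Metric.ball (0 : (Fin m → ℝ) × (Fin m → ℝ)) (√R + 1) := by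
  rw [mem_ball_zero_iff]
  have h1 := norm_le_sqrt_cs v
  have h2 : √(cs v) ≤ √R := Real.sqrt_le_sqrt hv.le
  linarith

theorem integrableOn_wt_div (hm : 1 ≤ m) (R : ℝ) :
    IntegrableOn (fun v : J m → ℝ => wt (cZ v) / √(cs v)) {v | cs v < R} := by
  have : Nontrivial ((Fin m → ℝ) × (Fin m → ℝ)) := by
    have : Nonempty (Fin m) := ⟨⟨0, hm⟩⟩
    infer_instance
  have hH : (volume : Measure ((Fin m → ℝ) × (Fin m → ℝ))).IsAddHaarMeasure := by
    have h0 : (volume : Measure (Fin m → ℝ)).IsAddHaarMeasure := inferInstance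
    exact Measure.prod.instIsAddHaarMeasure volume volume
  have hfr : Module.finrank ℝ ((Fin m → ℝ) × (Fin m → ℝ)) = 2 * m := by
    simp; ring
  have hF : IntegrableOn (fun p : (Fin m → ℝ) × (Fin m → ℝ) => ‖p‖⁻¹)
      (Metric.ball (0 : (Fin m → ℝ) × (Fin m → ℝ)) (√R + 1)) := by
    rw [integrableOn_fun_norm_addHaar volume (f := fun r : ℝ => r⁻¹), hfr]
    have h1 : IntegrableOn (fun y : ℝ => y ^ (2 * m - 2)) (Ioo 0 (√R + 1)) :=
      ((continuous_pow _).continuousOn.integrableOn_Icc (a := 0) (b := √R + 1)).mono_set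
        Ioo_subset_Icc_self
    refine h1.congr_fun (fun y hy => ?_) measurableSet_Ioo
    have hy0 : y ≠ 0 := hy.1.ne'
    obtain ⟨k, rfl⟩ : ∃ k, m = k + 1 := ⟨m - 1, by omega⟩
    rw [show 2 * (k + 1) - 2 = 2 * k by omega, show 2 * (k + 1) - 1 = 2 * k + 1 by omega, pow_succ,
      smul_eq_mul]
    field_simp
  have hI := integrable_split (hF.integrable_indicator measurableSet_ball)
  refine Integrable.mono' (hI.restrict (s := {v : J m → ℝ | cs v < R})) ?_ ?_
  · apply Measurable.aestronglyMeasurable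
    exact contDiff_wt_comp.continuous.measurable.div
      (Real.continuous_sqrt.comp contDiff_cs.continuous).measurable
  · refine (ae_restrict_iff' (measurableSet_cs_lt R)).2 (Eventually.of_forall fun v hv => ?_)
    rw [indicator_of_mem (norm_lt_of_cs_lt hv), Real.norm_eq_abs, abs_div,
      abs_of_pos (wt_pos (cZ_nonneg v)), abs_of_nonneg (Real.sqrt_nonneg _), div_eq_inv_mul]
    apply mul_le_mul_of_nonneg_right _ (wt_pos (cZ_nonneg v)).le
    rcases (norm_nonneg (spl m v).1).eq_or_lt with h0 | h0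
    · have h1 : (spl m v).1 = 0 := norm_eq_zero.1 h0.symm
      rw [spl_apply] at h1
      have h2 : ∀ i, v (Sum.inl i) = 0 := fun i => congrFun (congrArg Prod.fst h1) i
      have h3 : ∀ i, v (Sum.inr (Sum.inl i)) = 0 := fun i => congrFun (congrArg Prod.snd h1) i
      have h4 : cs v = 0 := by simp [cs, cA, cB, h2, h3]
      rw [h4]
      simp
    · exact inv_anti₀ h0 (norm_le_sqrt_cs v)

theorem integrableOn_wt (_hm : 1 ≤ m) (R : ℝ) :
    IntegrableOn (fun v : J m → ℝ => wt (cZ v)) {v | cs v < R} := by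
  have hF : IntegrableOn (fun p : (Fin m → ℝ) × (Fin m → ℝ) => (1 : ℝ))
      (Metric.ball (0 : (Fin m → ℝ) × (Fin m → ℝ)) (√R + 1)) :=
    integrableOn_const (by finiteness) 
  have hI := integrable_split (hF.integrable_indicator measurableSet_ball)
  refine Integrable.mono' (hI.restrict (s := {v : J m → ℝ | cs v < R})) ?_ ?_
  · exact contDiff_wt_comp.continuous.aestronglyMeasurable
  · refine (ae_restrict_iff' (measurableSet_cs_lt R)).2 (Eventually.of_forall fun v hv => ?_)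
    rw [indicator_of_mem (norm_lt_of_cs_lt hv), Real.norm_eq_abs,
      abs_of_pos (wt_pos (cZ_nonneg v)), one_mul]

end Pool.Agent.Lib.MP_89119d_gt
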