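import Pool.Agent.Lib.MP_89119d_gt.Ex
import Pool.Agent.Lib.MP_89119d_gt.Integr
import Pool.Agent.Lib.MP_89119d_gt.Calib

namespace Pool.Agent.Lib.MP_89119d_gt

open MeasureTheory Set Topology Filter
open scoped ENNReal ContDiff Matrix

variable {m : ℕ}

/-- the `x` part of a vector -/
def px (v : J m → ℝ) : J m → ℝ := Sum.elim (fun i => v (Sum.inl i)) (fun _ => 0)

/-- the `y` part of a vector -/
def py (v : J m → ℝ) : J m → ℝ :=
  Sum.elim (fun _ => 0) (Sum.elim (fun j => v (Sum.inr (Sum.inl j))) (fun _ => 0))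

lemma sum_px (L : (J m → ℝ) →L[ℝ] ℝ) (v : J m → ℝ) :
    ∑ i, L (Pi.single (Sum.inl i) 1) * v (Sum.inl i) = L (px v) := by
  rw [← sum_single_mul L (px v), Fintype.sum_sum_type]
  simp [px]

lemma sum_py (L : (J m → ℝ) →L[ℝ] ℝ) (v : J m → ℝ) :
    ∑ j, L (Pi.single (Sum.inr (Sum.inl j)) 1) * v (Sum.inr (Sum.inl j)) = L (py v) := by
  rw [← sum_single_mul L (py v), Fintype.sum_sum_type, Fintype.sum_sum_type]
  simp [py]

lemma fderiv_mul_coord {a : (J m → ℝ) → ℝ} {v : J m → ℝ} (ha : DifferentiableAt ℝ a v)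
    (k : J m) : fderiv ℝ (fun y => a y * y k) v (Pi.single k 1) =
      a v + fderiv ℝ a v (Pi.single k 1) * v k := by
  have hk : HasFDerivAt (fun y : J m → ℝ => y k) (ContinuousLinearMap.proj (R := ℝ)
      (φ := fun _ : J m => ℝ) k) v := hasFDerivAt_apply k v
  have := (ha.hasFDerivAt.mul hk).fderiv
  have e : (fun y : J m → ℝ => a y * y k) = a * (fun y => y k) := rfl
  rw [e, this]
  simp [mul_comm]

lemma dvg_elim {a b : (J m → ℝ) → ℝ} {v : J m → ℝ} (ha : DifferentiableAt ℝ a v)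
    (hb : DifferentiableAt ℝ b v) :
    dvg (fun y : J m → ℝ => Sum.elim (fun i => a y * y (Sum.inl i))
      (Sum.elim (fun j => b y * y (Sum.inr (Sum.inl j))) (fun _ => 0))) v =
      m * (a v + b v) + fderiv ℝ a v (px v) + fderiv ℝ b v (py v) := by
  unfold dvg
  rw [Fintype.sum_sum_type, Fintype.sum_sum_type]
  simp only [Sum.elim_inl, Sum.elim_inr]
  have e1 : ∑ i, fderiv ℝ (fun y : J m → ℝ => a y * y (Sum.inl i)) v (Pi.single (Sum.inl i) 1) =
      m * a v + fderiv ℝ a v (px v) := by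
    rw [← sum_px]
    simp only [fderiv_mul_coord ha]
    rw [Finset.sum_add_distrib]
    simp
  have e2 : ∑ j, fderiv ℝ (fun y : J m → ℝ => b y * y (Sum.inr (Sum.inl j))) v
      (Pi.single (Sum.inr (Sum.inl j)) 1) = m * b v + fderiv ℝ b v (py v) := by
    rw [← sum_py]
    simp only [fderiv_mul_coord hb]
    rw [Finset.sum_add_distrib]
    simp
  rw [e1, e2]
  simp
  ring

lemma cA_add_px (v : J m → ℝ) (τ : ℝ) : cA (v + τ • px v) = (1 + τ) ^ 2 * cA v := by
  unfold cA
  rw [Finset.mul_sum]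
  apply Finset.sum_congr rfl
  intro i _
  simp [px]
  ring

lemma cB_add_px (v : J m → ℝ) (τ : ℝ) : cB (v + τ • px v) = cB v := by
  unfold cB
  apply Finset.sum_congr rfl
  intro i _
  simp [px]

lemma cZ_add_px (v : J m → ℝ) (τ : ℝ) : cZ (v + τ • px v) = cZ v := by
  unfold cZ
  apply Finset.sum_congr rfl
  intro i _
  simp [px]

lemma cA_add_py (v : J m → ℝ) (τ : ℝ) : cA (v + τ • py v) = cA v := by
  unfold cA
  apply Finset.sum_congr rfl
  intro i _
  simp [py]

lemma cB_add_py (v : J m → ℝ) (τ : ℝ) : cB (v + τ • py v) = (1 + τ) ^ 2 * cB v := by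
  unfold cB
  rw [Finset.mul_sum]
  apply Finset.sum_congr rfl
  intro i _
  simp [py]
  ring

lemma cZ_add_py (v : J m → ℝ) (τ : ℝ) : cZ (v + τ • py v) = cZ v := by
  unfold cZ
  apply Finset.sum_congr rfl
  intro i _
  simp [py]

lemma fderiv_line {a : (J m → ℝ) → ℝ} {v p : J m → ℝ} (ha : DifferentiableAt ℝ a v)
    {c : ℝ} {f : ℝ → ℝ} {f' : ℝ} (hf : HasDerivAt f f' c)
    (hfa : ∀ τ : ℝ, a (v + τ • p) = f ((1 + τ) ^ 2 * c)) : fderiv ℝ a v p = 2 * c * f' := by
  have h1 : HasDerivAt (fun τ : ℝ => a (v + τ • p)) (fderiv ℝ a v p) 0 := by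
    have hl : HasDerivAt (fun τ : ℝ => v + τ • p) p 0 := by
      simpa using ((hasDerivAt_id (0 : ℝ)).smul_const p).const_add v
    have ha' : HasFDerivAt a (fderiv ℝ a v) ((fun τ : ℝ => v + τ • p) 0) := by
      simpa using ha.hasFDerivAt
    exact ha'.comp_hasDerivAt (0 : ℝ) hl
  have h2 : HasDerivAt (fun τ : ℝ => a (v + τ • p)) (2 * c * f') 0 := by
    have e : (fun τ : ℝ => a (v + τ • p)) = fun τ => f ((1 + τ) ^ 2 * c) := funext hfa
    rw [e]
    have hq : HasDerivAt (fun τ : ℝ => (1 + τ) ^ 2 * c) (2 * c) 0 := by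
      have := (((hasDerivAt_id (0 : ℝ)).const_add 1).pow 2).mul_const c
      refine this.congr_deriv ?_
      simp
    have hf' : HasDerivAt f f' ((fun τ : ℝ => (1 + τ) ^ 2 * c) 0) := by
      simpa using hf
    have := hf'.comp (0 : ℝ) hq
    refine this.congr_deriv (by ring)
  exact h1.unique h2

/-! ### the function `ω₁` -/

lemma contDiff_xi {n : ℕ∞} : ContDiff ℝ n xi := by
  unfold xi
  exact Real.smoothTransition.contDiff.comp (contDiff_const.sub (contDiff_const.mul contDiff_id))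

lemma xi_pos {s : ℝ} (hs : s < 6 / 5) : 0 < xi s :=
  Real.smoothTransition.pos_of_pos (by linarith)

lemma xi_le_one (s : ℝ) : xi s ≤ 1 := Real.smoothTransition.le_one _

lemma xi_eq_zero {s : ℝ} (hs : 6 / 5 ≤ s) : xi s = 0 :=
  Real.smoothTransition.zero_of_nonpos (by linarith)

lemma xi_eq_one {s : ℝ} (hs : s ≤ 1) : xi s = 1 :=
  Real.smoothTransition.one_of_one_le (by linarith)

lemma xi_nonneg (s : ℝ) : 0 ≤ xi s := Real.smoothTransition.nonneg _

lemma deriv_xi (s : ℝ) : deriv xi s = -5 * deriv Real.smoothTransition (6 - 5 * s) := by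
  have h1 : HasDerivAt Real.smoothTransition (deriv Real.smoothTransition (6 - 5 * s))
      (6 - 5 * s) :=
    ((Real.smoothTransition.contDiff (n := 1)).differentiable one_ne_zero _).hasDerivAt
  have h2 : HasDerivAt (fun s : ℝ => 6 - 5 * s) (-5) s := by
    have := ((hasDerivAt_id s).const_mul (5 : ℝ)).const_sub 6
    refine this.congr_deriv (by ring)
  have := (h1.comp s h2).deriv
  have e : xi = Real.smoothTransition ∘ (fun s : ℝ => 6 - 5 * s) := rfl
  rw [e, this]
  ring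

lemma deriv_xi_nonpos (s : ℝ) : deriv xi s ≤ 0 := by
  rw [deriv_xi]
  have := deriv_step_nonneg (6 - 5 * s)
  linarith

lemma deriv_xi_of_lt_one {s : ℝ} (hs : s < 1) : deriv xi s = 0 := by
  rw [deriv_xi, deriv_step_of_one_lt (by linarith), mul_zero]

lemma hasDerivAt_om {s : ℝ} (hs : s < 6 / 5) :
    HasDerivAt om (-deriv xi s / xi s ^ 2) s := by
  have h1 : HasDerivAt xi (deriv xi s) s :=
    ((contDiff_xi (n := 1)).differentiable one_ne_zero s).hasDerivAt
  exact h1.inv (xi_pos hs).ne'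

lemma om_pos {s : ℝ} (hs : s < 6 / 5) : 0 < om s := inv_pos.mpr (xi_pos hs)

lemma one_le_om {s : ℝ} (hs : s < 6 / 5) : 1 ≤ om s :=
  (one_le_inv₀ (xi_pos hs)).mpr (xi_le_one s)

lemma om_eq_one {s : ℝ} (hs : s ≤ 1) : om s = 1 := by
  unfold om; rw [xi_eq_one hs, inv_one]

lemma contDiffAt_om {s : ℝ} (hs : s < 6 / 5) {n : ℕ∞} : ContDiffAt ℝ n om s :=
  (contDiff_xi.contDiffAt).inv (xi_pos hs).ne'

/-- the derivative of `ω₁` -/
noncomputable def omd (s : ℝ) : ℝ := -deriv xi s / xi s ^ 2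

lemma omd_nonneg (s : ℝ) : 0 ≤ omd s :=
  div_nonneg (by linarith [deriv_xi_nonpos s]) (sq_nonneg _)

lemma omd_of_lt_one {s : ℝ} (hs : s < 1) : omd s = 0 := by
  unfold omd; rw [deriv_xi_of_lt_one hs]; simp

/-! ### smoothness of the coefficients -/

lemma DD_pos {v : J m → ℝ} (hs : 0 < cs v) (hs' : cs v < 6 / 5) : 0 < DD (cA v) (cB v) := by
  have hp := par_of (cA_nonneg v) (cB_nonneg v) hs
  have hr2 : √(cA v + cB v) ^ 2 < 6 / 5 := by
    rw [Real.sq_sqrt (show 0 ≤ cA v + cB v from hs.le)]; exact hs'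
  have hS := S2_pos hr2 hp.sq_u
  rw [hp.DD]
  have := hp.r0
  positivity

lemma contDiffAt_sqrt_cs {v : J m → ℝ} (hs : 0 < cs v) :
    ContDiffAt ℝ ∞ (fun v : J m → ℝ => √(cA v + cB v)) v :=
  ContDiffAt.sqrt (contDiff_cA.contDiffAt.add contDiff_cB.contDiffAt) hs.ne'

lemma contDiffAt_DD {v : J m → ℝ} (hs : 0 < cs v) :
    ContDiffAt ℝ ∞ (fun v : J m → ℝ => DD (cA v) (cB v)) v := by
  unfold DD
  have hA : ContDiffAt ℝ ∞ (fun v : J m → ℝ => cA v) v := contDiff_cA.contDiffAt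
  have hB : ContDiffAt ℝ ∞ (fun v : J m → ℝ => cB v) v := contDiff_cB.contDiffAt
  have hr := contDiffAt_sqrt_cs hs
  exact (((contDiffAt_const.mul ((hA.add hB).pow 2)).add
    (contDiffAt_const.mul ((hA.add hB).pow 3))).add
    (contDiffAt_const.mul ((hA.sub hB).mul ((hA.add hB).mul hr)))).add
    (contDiffAt_const.mul ((hA.sub hB).pow 2))

lemma contDiffAt_alp {v : J m → ℝ} (hs : 0 < cs v) (hs' : cs v < 6 / 5) :
    ContDiffAt ℝ ∞ (fun v : J m → ℝ => alp (cA v) (cB v)) v := by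
  unfold alp
  have hA : ContDiffAt ℝ ∞ (fun v : J m → ℝ => cA v) v := contDiff_cA.contDiffAt
  have hB : ContDiffAt ℝ ∞ (fun v : J m → ℝ => cB v) v := contDiff_cB.contDiffAt
  have hr := contDiffAt_sqrt_cs hs
  refine ContDiffAt.div ?_ (contDiffAt_DD hs) (DD_pos hs hs').ne'
  exact contDiffAt_const.mul ((contDiffAt_const.sub (contDiffAt_const.mul (hA.add hB))).mul
    (hr.mul (((hA.sub hB).add (contDiffAt_const.mul ((hA.add hB).mul hr))).add
      (contDiffAt_const.mul (hA.add hB)))))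

lemma contDiffAt_bet {v : J m → ℝ} (hs : 0 < cs v) (hs' : cs v < 6 / 5) :
    ContDiffAt ℝ ∞ (fun v : J m → ℝ => bet (cA v) (cB v)) v := by
  unfold bet
  have hA : ContDiffAt ℝ ∞ (fun v : J m → ℝ => cA v) v := contDiff_cA.contDiffAt
  have hB : ContDiffAt ℝ ∞ (fun v : J m → ℝ => cB v) v := contDiff_cB.contDiffAt
  have hr := contDiffAt_sqrt_cs hs
  refine ContDiffAt.div ?_ (contDiffAt_DD hs) (DD_pos hs hs').ne'
  exact contDiffAt_const.mul ((contDiffAt_const.sub (contDiffAt_const.mul (hA.add hB))).mul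
    (hr.mul (((hA.sub hB).add (contDiffAt_const.mul ((hA.add hB).mul hr))).sub
      (contDiffAt_const.mul (hA.add hB)))))

lemma contDiffAt_om_cs {v : J m → ℝ} (hs' : cs v < 6 / 5) :
    ContDiffAt ℝ ∞ (fun v : J m → ℝ => om (cs v)) v :=
  (contDiffAt_om (n := ⊤) hs').comp v contDiff_cs.contDiffAt

lemma contDiffAt_Wf {v : J m → ℝ} (hs : 0 < cs v) (hs' : cs v < 6 / 5) :
    ContDiffAt ℝ ∞ (Wf : (J m → ℝ) → (J m → ℝ)) v := by
  rw [contDiffAt_pi]
  have hw : ContDiffAt ℝ ∞ (fun v : J m → ℝ => wt (cZ v)) v := contDiff_wt_comp.contDiffAt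
  have ho := contDiffAt_om_cs hs'
  have hk : ∀ k : J m, ContDiffAt ℝ ∞ (fun v : J m → ℝ => v k) v := fun k =>
    (contDiff_apply ℝ ℝ k).contDiffAt
  rintro (i | j | k)
  · exact ((hw.mul ho).mul (contDiffAt_alp hs hs')).mul (hk _)
  · exact ((hw.mul ho).mul (contDiffAt_bet hs hs')).mul (hk _)
  · exact contDiffAt_const

/-- the value of the divergence of the calibrating field -/
lemma dvg_Wf {v : J m → ℝ} (hs : 0 < cs v) (hs' : cs v < 6 / 5) :
    dvg Wf v = wt (cZ v) * (om (cs v) * d0 m √(cs v) ((cA v - cB v) / cs v) +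
      2 * omd (cs v) * e0 √(cs v) ((cA v - cB v) / cs v)) := by
  have hw : ContDiffAt ℝ ∞ (fun v : J m → ℝ => wt (cZ v)) v := contDiff_wt_comp.contDiffAt
  have ho := contDiffAt_om_cs hs'
  have ha : DifferentiableAt ℝ
      (fun v : J m → ℝ => wt (cZ v) * om (cs v) * alp (cA v) (cB v)) v :=
    ((hw.mul ho).mul (contDiffAt_alp hs hs')).differentiableAt (by simp)
  have hb : DifferentiableAt ℝ
      (fun v : J m → ℝ => wt (cZ v) * om (cs v) * bet (cA v) (cB v)) v :=
    ((hw.mul ho).mul (contDiffAt_bet hs hs')).differentiableAt (by simp)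
  have hmain := dvg_elim ha hb
  have hp := par_of (cA_nonneg v) (cB_nonneg v) (show 0 < cA v + cB v from hs)
  have hr2 : √(cA v + cB v) ^ 2 < 6 / 5 := by
    rw [Real.sq_sqrt (show 0 ≤ cA v + cB v from hs.le)]; exact hs'
  have hS := (S2_pos hr2 hp.sq_u).ne'
  have hDD := (DD_pos hs hs').ne'
  have hom : HasDerivAt om (omd (cA v + cB v)) (cA v + cB v) := hasDerivAt_om hs'
  have e1 : fderiv ℝ (fun v : J m → ℝ => wt (cZ v) * om (cs v) * alp (cA v) (cB v)) v (px v) =
      2 * cA v * (wt (cZ v) * (omd (cs v) * alp (cA v) (cB v) +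
        om (cs v) * alpA (cA v) (cB v))) := by
    apply fderiv_line ha (f := fun a => wt (cZ v) * (om (a + cB v) * alp a (cB v)))
    · have hs1 : HasDerivAt (fun a => a + cB v) 1 (cA v) := (hasDerivAt_id _).add_const _
      have h1 : HasDerivAt (fun a => om (a + cB v)) (omd (cA v + cB v)) (cA v) := by
        have := HasDerivAt.comp (cA v) hom hs1
        refine this.congr_deriv (by ring)
      exact (h1.mul (hasDerivAt_alp (show 0 < cA v + cB v from hs) hDD)).const_mul _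
    · intro τ
      simp only [cs, cA_add_px, cB_add_px, cZ_add_px]
      ring
  have e2 : fderiv ℝ (fun v : J m → ℝ => wt (cZ v) * om (cs v) * bet (cA v) (cB v)) v (py v) =
      2 * cB v * (wt (cZ v) * (omd (cs v) * bet (cA v) (cB v) +
        om (cs v) * betB (cA v) (cB v))) := by
    apply fderiv_line hb (f := fun b => wt (cZ v) * (om (cA v + b) * bet (cA v) b))
    · have hs1 : HasDerivAt (fun b => cA v + b) 1 (cB v) := (hasDerivAt_id _).const_add _
      have h1 : HasDerivAt (fun b => om (cA v + b)) (omd (cA v + cB v)) (cB v) := by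
        have := HasDerivAt.comp (cB v) hom hs1
        refine this.congr_deriv (by ring)
      exact (h1.mul (hasDerivAt_bet (show 0 < cA v + cB v from hs) hDD)).const_mul _
    · intro τ
      simp only [cs, cA_add_py, cB_add_py, cZ_add_py]
      ring
  have e3 := hp.divergence hS m
  have e4 := hp.e0 hS
  change dvg (fun y : J m → ℝ => Sum.elim
    (fun i => wt (cZ y) * om (cs y) * alp (cA y) (cB y) * y (Sum.inl i))
    (Sum.elim (fun j => wt (cZ y) * om (cs y) * bet (cA y) (cB y) * y (Sum.inr (Sum.inl j)))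
      (fun _ => 0))) v = _
  rw [hmain, e1, e2]
  have e5 : cs v = cA v + cB v := rfl
  rw [e5, ← e3, ← e4]
  ring

end Pool.Agent.Lib.MP_89119d_gt
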