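import Pool.Agent.Lib.MP_89119d_gt.Div

namespace Pool.Agent.Lib.MP_89119d_gt

open MeasureTheory Set Topology Filter
open scoped ENNReal ContDiff Matrix

variable {ι : Type} [Fintype ι] [DecidableEq ι]

/-- the smooth approximation of the indicator of `{t < 0}` -/
noncomputable def stp (n : ℕ) (t : ℝ) : ℝ := Real.smoothTransition (-(n : ℝ) * t)

lemma contDiff_stp (n : ℕ) {k : ℕ∞} : ContDiff ℝ k (stp n) := by
  unfold stp
  exact Real.smoothTransition.contDiff.comp (contDiff_const.mul contDiff_id)

lemma deriv_stp (n : ℕ) (t : ℝ) :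
    deriv (stp n) t = -(n : ℝ) * deriv Real.smoothTransition (-(n : ℝ) * t) := by
  have h1 : HasDerivAt Real.smoothTransition (deriv Real.smoothTransition (-(n : ℝ) * t))
      (-(n : ℝ) * t) :=
    ((Real.smoothTransition.contDiff (n := 1)).differentiable one_ne_zero _).hasDerivAt
  have h2 : HasDerivAt (fun s : ℝ => -(n : ℝ) * s) (-(n : ℝ)) t := by
    simpa using (hasDerivAt_id t).const_mul (-(n : ℝ))
  have := (h1.comp t h2).deriv
  unfold stp
  rw [mul_comm]
  exact this

lemma stp_nonneg (n : ℕ) (t : ℝ) : 0 ≤ stp n t := Real.smoothTransition.nonneg _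

lemma stp_le_one (n : ℕ) (t : ℝ) : stp n t ≤ 1 := Real.smoothTransition.le_one _

lemma stp_of_nonneg (n : ℕ) {t : ℝ} (ht : 0 ≤ t) : stp n t = 0 := by
  apply Real.smoothTransition.zero_of_nonpos
  have : (0 : ℝ) ≤ n := Nat.cast_nonneg n
  nlinarith

lemma eventually_large {t : ℝ} (ht : t < 0) : ∀ᶠ n : ℕ in atTop, 1 < -(n : ℝ) * t := by
  have h : Tendsto (fun n : ℕ => (n : ℝ) * (-t)) atTop atTop :=
    tendsto_natCast_atTop_atTop.atTop_mul_const (by linarith)
  filter_upwards [h.eventually_gt_atTop 1] with n hn
  linarith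

lemma tendsto_stp (t : ℝ) : Tendsto (fun n => stp n t) atTop
    (𝓝 (if t < 0 then 1 else 0)) := by
  by_cases ht : t < 0
  · rw [if_pos ht]
    apply tendsto_const_nhds.congr'
    filter_upwards [eventually_large ht] with n hn
    exact (Real.smoothTransition.one_of_one_le hn.le).symm
  · rw [if_neg ht]
    push Not at ht
    apply tendsto_const_nhds.congr'
    filter_upwards with n
    exact (stp_of_nonneg n ht).symm

/-- **Flux inequality.** If the flux of `U` through the level sets of `F` is small near `{F = 0}`
then the integral of its divergence over `{F < 0}` is nonpositive. -/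
lemma integral_dvg_le_zero {O : Set (ι → ℝ)} (hO : IsOpen O) {F : (ι → ℝ) → ℝ}
    (hF : ContDiffOn ℝ 1 F O) {U : (ι → ℝ) → (ι → ℝ)} (hU : ContDiff ℝ 1 U)
    (hc : HasCompactSupport U) (hUO : tsupport U ⊆ O) {C : ℝ}
    (hC : ∀ x ∈ O, fderiv ℝ F x (U x) ≤ C * |F x|) :
    ∫ x in {x | x ∈ O ∧ F x < 0}, dvg U x ≤ 0 := by
  obtain ⟨C₀, hC0, hC₀⟩ := exists_bound_kappa
  set K := tsupport U with hK
  have hKc : IsCompact K := hc.isCompact
  -- the fields V n = stp n (F) U
  let V : ℕ → (ι → ℝ) → (ι → ℝ) := fun n x => stp n (F x) • U x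
  have hVc : ∀ n, HasCompactSupport (V n) := by
    intro n
    apply HasCompactSupport.intro' hKc (isClosed_tsupport U)
    intro x hx
    have : U x = 0 := image_eq_zero_of_notMem_tsupport hx
    simp only [V, this, smul_zero]
  have hV1 : ∀ n, ContDiff ℝ 1 (V n) := by
    intro n
    rw [contDiff_iff_contDiffAt]
    intro x
    by_cases hx : x ∈ K
    · have hFx : ContDiffAt ℝ 1 F x := hF.contDiffAt (hO.mem_nhds (hUO hx))
      have h1 : ContDiffAt ℝ 1 (fun y => stp n (F y)) x :=
        (contDiff_stp n (k := 1)).contDiffAt.comp x hFx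
      exact h1.smul hU.contDiffAt
    · have hz := notMem_tsupport_iff_eventuallyEq.mp hx
      have : V n =ᶠ[𝓝 x] (fun _ => 0) := by
        filter_upwards [hz] with y hy
        simp only [V, hy, Pi.zero_apply, smul_zero]
      exact contDiffAt_const.congr_of_eventuallyEq this
  have hdiv : ∀ n x, dvg (V n) x = K.indicator (fun x => stp n (F x) * dvg U x -
      (n : ℝ) * deriv Real.smoothTransition (-(n : ℝ) * F x) * fderiv ℝ F x (U x)) x := by
    intro n x
    by_cases hx : x ∈ K
    · rw [indicator_of_mem hx]
      have hFx : DifferentiableAt ℝ F x :=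
        (hF.contDiffAt (hO.mem_nhds (hUO hx))).differentiableAt one_ne_zero
      have hs : DifferentiableAt ℝ (stp n) (F x) :=
        (contDiff_stp n (k := 1)).differentiable one_ne_zero _
      have hd : DifferentiableAt ℝ (fun y => stp n (F y)) x := hs.comp x hFx
      have e1 := dvg_smul hd (hU.differentiable one_ne_zero x)
      have e2 : fderiv ℝ (fun y => stp n (F y)) x = deriv (stp n) (F x) • fderiv ℝ F x := by
        have := (hs.hasDerivAt.comp_hasFDerivAt x hFx.hasFDerivAt).fderiv
        exact this
      change dvg (fun y => stp n (F y) • U y) x = _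
      rw [e1, e2, deriv_stp]
      simp only [_root_.smul_apply, smul_eq_mul]
      ring
    · rw [indicator_of_notMem hx]
      apply dvg_of_eventually_zero
      have hz := notMem_tsupport_iff_eventuallyEq.mp hx
      filter_upwards [hz] with y hy
      simp only [V, hy, Pi.zero_apply, smul_zero]
  have hmK : MeasurableSet K := hKc.measurableSet
  have hKO : K ⊆ O := hUO
  -- continuity and integrability of the two pieces
  have hFK : ContinuousOn F K := (hF.continuousOn).mono hKO
  have hcont1 : ∀ n, ContinuousOn (fun x => stp n (F x) * dvg U x) K := by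
    intro n
    exact ((contDiff_stp n (k := 1)).continuous.comp_continuousOn hFK).mul
      (continuous_dvg hU).continuousOn
  have hcont2 : ∀ n, ContinuousOn (fun x => (n : ℝ) *
      deriv Real.smoothTransition (-(n : ℝ) * F x) * fderiv ℝ F x (U x)) K := by
    intro n
    have h1 : ContinuousOn (fun x => deriv Real.smoothTransition (-(n : ℝ) * F x)) K :=
      continuous_deriv_step.comp_continuousOn (continuousOn_const.mul hFK)
    have h2 : ContinuousOn (fun x => fderiv ℝ F x) K :=
      (hF.continuousOn_fderiv_of_isOpen hO le_rfl).mono hKO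
    exact (continuousOn_const.mul h1).mul (h2.clm_apply hU.continuous.continuousOn)
  have hi1 : ∀ n, IntegrableOn (fun x => stp n (F x) * dvg U x) K := fun n =>
    (hcont1 n).integrableOn_compact hKc
  have hi2 : ∀ n, IntegrableOn (fun x => (n : ℝ) *
      deriv Real.smoothTransition (-(n : ℝ) * F x) * fderiv ℝ F x (U x)) K := fun n =>
    (hcont2 n).integrableOn_compact hKc
  have hid : ∀ n, ∫ x in K, stp n (F x) * dvg U x = ∫ x in K, (n : ℝ) *
      deriv Real.smoothTransition (-(n : ℝ) * F x) * fderiv ℝ F x (U x) := by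
    intro n
    have h0 := integral_dvg_eq_zero (hV1 n) (hVc n)
    simp only [hdiv n] at h0
    rw [integral_indicator hmK, integral_sub (hi1 n) (hi2 n)] at h0
    linarith
  -- the majorant
  let κ : ℕ → (ι → ℝ) → ℝ := fun n x =>
    |C| * (|(-(n : ℝ) * F x)| * deriv Real.smoothTransition (-(n : ℝ) * F x))
  have hκcont : ∀ n, ContinuousOn (κ n) K := by
    intro n
    have h1 : ContinuousOn (fun x => deriv Real.smoothTransition (-(n : ℝ) * F x)) K :=
      continuous_deriv_step.comp_continuousOn (continuousOn_const.mul hFK)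
    exact continuousOn_const.mul ((continuousOn_const.mul hFK).abs.mul h1)
  have hle : ∀ n, ∫ x in K, stp n (F x) * dvg U x ≤ ∫ x in K, κ n x := by
    intro n
    rw [hid n]
    apply setIntegral_mono_on (hi2 n) ((hκcont n).integrableOn_compact hKc) hmK
    intro x hx
    have hn : (0 : ℝ) ≤ n := Nat.cast_nonneg n
    have hd := deriv_step_nonneg (-(n : ℝ) * F x)
    have h1 : fderiv ℝ F x (U x) ≤ |C| * |F x| :=
      (hC x (hKO hx)).trans (mul_le_mul_of_nonneg_right (le_abs_self C) (abs_nonneg _))
    have h2 : |(-(n : ℝ) * F x)| = n * |F x| := by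
      rw [abs_mul, abs_neg, abs_of_nonneg hn]
    simp only [κ]
    rw [h2]
    calc (n : ℝ) * deriv Real.smoothTransition (-(n : ℝ) * F x) * fderiv ℝ F x (U x)
        ≤ (n : ℝ) * deriv Real.smoothTransition (-(n : ℝ) * F x) * (|C| * |F x|) :=
          mul_le_mul_of_nonneg_left h1 (mul_nonneg hn hd)
      _ = |C| * (↑n * |F x| * deriv Real.smoothTransition (-↑n * F x)) := by ring
  -- limits
  have hlim1 : Tendsto (fun n => ∫ x in K, stp n (F x) * dvg U x) atTop
      (𝓝 (∫ x in K, (if F x < 0 then 1 else 0) * dvg U x)) := by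
    apply tendsto_integral_of_dominated_convergence (fun x => |dvg U x|)
    · intro n
      exact (hi1 n).aestronglyMeasurable
    · exact (integrable_dvg hU hc).abs.integrableOn
    · intro n
      filter_upwards with x
      rw [Real.norm_eq_abs, abs_mul, abs_of_nonneg (stp_nonneg n _)]
      exact mul_le_of_le_one_left (abs_nonneg _) (stp_le_one n _)
    · filter_upwards with x
      exact (tendsto_stp (F x)).mul_const _
  have hlim2 : Tendsto (fun n => ∫ x in K, κ n x) atTop (𝓝 (∫ x in K, (0 : ℝ))) := by
    apply tendsto_integral_of_dominated_convergence (fun _ => |C| * C₀)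
    · intro n
      exact ((hκcont n).integrableOn_compact hKc).aestronglyMeasurable
    · exact integrableOn_const hKc.measure_lt_top.ne
    · intro n
      filter_upwards with x
      rw [Real.norm_eq_abs, abs_mul, abs_abs, abs_of_nonneg
        (mul_nonneg (abs_nonneg _) (deriv_step_nonneg _))]
      exact mul_le_mul_of_nonneg_left (hC₀ _) (abs_nonneg _)
    · filter_upwards with x
      rcases lt_trichotomy (F x) 0 with h | h | h
      · apply tendsto_const_nhds.congr'
        filter_upwards [eventually_large h] with n hn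
        simp only [κ, deriv_step_of_one_lt hn, mul_zero]
      · apply tendsto_const_nhds.congr'
        filter_upwards with n
        simp only [κ, h, mul_zero, abs_zero, zero_mul]
      · apply tendsto_const_nhds.congr'
        filter_upwards [eventually_gt_atTop 0] with n hn
        have : -(n : ℝ) * F x < 0 := by
          have : (0 : ℝ) < n := by exact_mod_cast hn
          nlinarith
        simp only [κ, deriv_step_of_neg this, mul_zero]
  have hfin : ∫ x in K, (if F x < 0 then 1 else 0) * dvg U x ≤ 0 := by
    have := le_of_tendsto_of_tendsto' hlim1 hlim2 hle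
    simpa using this
  -- rewrite the integral over {F < 0}
  have hOm : MeasurableSet {x | x ∈ O ∧ F x < 0} := by
    have : {x | x ∈ O ∧ F x < 0} = O ∩ F ⁻¹' (Set.Iio 0) := rfl
    rw [this]
    exact (hF.continuousOn.isOpen_inter_preimage hO isOpen_Iio).measurableSet
  calc ∫ x in {x | x ∈ O ∧ F x < 0}, dvg U x
      = ∫ x, {x | x ∈ O ∧ F x < 0}.indicator (dvg U) x := (integral_indicator hOm).symm
    _ = ∫ x, K.indicator (fun x => (if F x < 0 then 1 else 0) * dvg U x) x := by
        congr 1
        funext x
        by_cases hx : x ∈ K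
        · rw [indicator_of_mem hx]
          by_cases hF0 : F x < 0
          · rw [indicator_of_mem (show x ∈ {x | x ∈ O ∧ F x < 0} from ⟨hKO hx, hF0⟩), if_pos hF0,
              one_mul]
          · rw [indicator_of_notMem (fun h => hF0 h.2), if_neg hF0, zero_mul]
        · rw [indicator_of_notMem hx]
          have : dvg U x = 0 := dvg_eq_zero_of_notMem_tsupport hx
          simp only [Set.indicator, this, ite_self]
    _ = ∫ x in K, (if F x < 0 then 1 else 0) * dvg U x := integral_indicator hmK
    _ ≤ 0 := hfin

end Pool.Agent.Lib.MP_89119d_gt
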