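import Pool.Agent.Lib.MP_89119d_gt.Intg

namespace Pool.Agent.Lib.MP_89119d_gt

open MeasureTheory Set Topology Filter
open scoped ENNReal ContDiff Matrix

variable {m : ℕ}

lemma cA_Wf (v : J m → ℝ) : cA (Wf v) =
    (wt (cZ v) * om (cs v)) ^ 2 * (alp (cA v) (cB v) ^ 2 * cA v) := by
  have : cA (Wf v) = ∑ i : Fin m, (wt (cZ v) * om (cs v) * alp (cA v) (cB v)) ^ 2 *
      v (Sum.inl i) ^ 2 := by
    unfold cA
    apply Finset.sum_congr rfl
    intro i _
    simp only [Wf, Sum.elim_inl, cA]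
    ring
  rw [this, ← Finset.mul_sum]
  change (wt (cZ v) * om (cs v) * alp (cA v) (cB v)) ^ 2 * cA v = _
  ring

lemma cB_Wf (v : J m → ℝ) : cB (Wf v) =
    (wt (cZ v) * om (cs v)) ^ 2 * (bet (cA v) (cB v) ^ 2 * cB v) := by
  have : cB (Wf v) = ∑ i : Fin m, (wt (cZ v) * om (cs v) * bet (cA v) (cB v)) ^ 2 *
      v (Sum.inr (Sum.inl i)) ^ 2 := by
    unfold cB
    apply Finset.sum_congr rfl
    intro i _
    simp only [Wf, Sum.elim_inl, Sum.elim_inr, cB]
    ring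
  rw [this, ← Finset.mul_sum]
  change (wt (cZ v) * om (cs v) * bet (cA v) (cB v)) ^ 2 * cB v = _
  ring

lemma cZ_Wf (v : J m → ℝ) : cZ (Wf v) = 0 := by
  simp [cZ, Wf]

/-- the calibrating field has length at most one -/
lemma nsq_Wf_le (hm : 10000000 ≤ m) {h : ℝ} (hh : 0 < h) {v : J m → ℝ} (hs : 0 < cs v)
    (hs' : cs v < 6 / 5) : nsq (gg m h) v (Wf v) ≤ dens (gg m h) v ^ 2 := by
  have hP := PP_pos hs'
  have hq := qq_pos hm hh hs'
  have hw := wt_pos (cZ_nonneg v)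
  have hp := par_v hs
  have hn := hp.norm_le (sqrt_sq_lt hs')
  have hz : ze √(cs v) = 1 - 3 / 4 * cs v := by
    unfold ze; rw [sq_sqrt_cs]
  have ho := om_pos hs'
  rw [dens_gg hm hh hs', gg, nsq_Gm, cA_Wf, cB_Wf, cZ_Wf, mul_zero, add_zero]
  rw [hz] at hn
  have e1 : (wt (cZ v) * om (cs v)) ^ 2 * (alp (cA v) (cB v) ^ 2 * cA v) +
      (wt (cZ v) * om (cs v)) ^ 2 * (bet (cA v) (cB v) ^ 2 * cB v) ≤
      wt (cZ v) ^ 2 * PP v := by
    unfold PP
    have : (wt (cZ v) * om (cs v)) ^ 2 * (alp (cA v) (cB v) ^ 2 * cA v) +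
      (wt (cZ v) * om (cs v)) ^ 2 * (bet (cA v) (cB v) ^ 2 * cB v) =
      wt (cZ v) ^ 2 * om (cs v) ^ 2 * (alp (cA v) (cB v) ^ 2 * cA v +
        bet (cA v) (cB v) ^ 2 * cB v) := by ring
    rw [this]
    calc wt (cZ v) ^ 2 * om (cs v) ^ 2 * (alp (cA v) (cB v) ^ 2 * cA v +
        bet (cA v) (cB v) ^ 2 * cB v)
        ≤ wt (cZ v) ^ 2 * om (cs v) ^ 2 * (1 - 3 / 4 * cs v) :=
          mul_le_mul_of_nonneg_left hn (by positivity)
      _ = wt (cZ v) ^ 2 * (om (cs v) ^ 2 * (1 - 3 / 4 * cs v)) := by ring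
  calc qq h v ^ 2 / PP v * ((wt (cZ v) * om (cs v)) ^ 2 * (alp (cA v) (cB v) ^ 2 * cA v) +
      (wt (cZ v) * om (cs v)) ^ 2 * (bet (cA v) (cB v) ^ 2 * cB v))
      ≤ qq h v ^ 2 / PP v * (wt (cZ v) ^ 2 * PP v) :=
        mul_le_mul_of_nonneg_left e1 (by positivity)
    _ = (qq h v * wt (cZ v)) ^ 2 := by field_simp

/-- squared length of the coordinate differential of `FF` -/
lemma sq_grad_FF {v : J m → ℝ} (hs : 0 < cs v) :
    (2 + 3 * √(cs v)) ^ 2 * cA v + (3 * √(cs v) - 2) ^ 2 * cB v =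
      4 * cs v * (ze √(cs v) + 3 * √(cs v) * (cuv v + √(cs v))) := by
  have hp := par_v hs
  have hr := sq_sqrt_cs v
  have e : cs v = √(cs v) ^ 2 := hr.symm
  rw [hp.hA, hp.hB]
  set r := √(cs v) with hrdef
  rw [e]
  unfold ze
  ring

lemma abs_sum_le_sqrt {κ : Type} [Fintype κ] (a b : κ → ℝ) :
    ∑ k, a k * b k ≤ √(∑ k, a k ^ 2) * √(∑ k, b k ^ 2) := by
  exact Real.sum_mul_le_sqrt_mul_sqrt _ _ _

/-- the flux of an admissible vector through the level sets of `FF` -/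
lemma fderiv_FF_le (hm : 10000000 ≤ m) {h : ℝ} (hh : 0 < h) {v : J m → ℝ} (hs : 0 < cs v)
    (hs' : cs v < 6 / 5) {X : J m → ℝ} (hX : nsq (gg m h) v X ≤ dens (gg m h) v ^ 2) :
    fderiv ℝ FF v X ≤ wt (cZ v) * om (cs v) * (2 * √(cs v) *
      (ze √(cs v) + 3 / 2 * √(cs v) * (cuv v + √(cs v)))) := by
  have hP := PP_pos hs'
  have hq := qq_pos hm hh hs'
  have hw := wt_pos (cZ_nonneg v)
  have ho := om_pos hs'
  have hr0 : 0 < √(cs v) := Real.sqrt_pos.mpr hs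
  have hz0 : 0 < ze √(cs v) := by have := ze_ge (sqrt_sq_lt hs'); linarith
  rw [dens_gg hm hh hs', gg, nsq_Gm] at hX
  have hXb : cA X + cB X ≤ wt (cZ v) ^ 2 * PP v := by
    have h1 : qq h v ^ 2 / PP v * (cA X + cB X) ≤ (qq h v * wt (cZ v)) ^ 2 := by
      have : 0 ≤ PP v ^ m / qq h v ^ (2 * m - 1) * wt (cZ v) * cZ X := by
        have := cZ_nonneg X
        positivity
      linarith
    have h2 : qq h v ^ 2 / PP v * (cA X + cB X) ≤ qq h v ^ 2 / PP v * (wt (cZ v) ^ 2 * PP v) := by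
      refine h1.trans (le_of_eq ?_)
      field_simp
    exact le_of_mul_le_mul_left h2 (by positivity)
  -- Cauchy-Schwarz
  have hcs : fderiv ℝ FF v X ≤ √((2 + 3 * √(cs v)) ^ 2 * cA v + (3 * √(cs v) - 2) ^ 2 * cB v) *
      √(cA X + cB X) := by
    rw [fderiv_FF hs.ne']
    have h1 := abs_sum_le_sqrt (κ := Fin m ⊕ Fin m)
      (Sum.elim (fun i => (2 + 3 * √(cs v)) * v (Sum.inl i))
        (fun j => (3 * √(cs v) - 2) * v (Sum.inr (Sum.inl j))))
      (Sum.elim (fun i => X (Sum.inl i)) (fun j => X (Sum.inr (Sum.inl j))))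
    simp only [Fintype.sum_sum_type, Sum.elim_inl, Sum.elim_inr, mul_pow, ← Finset.mul_sum,
      mul_assoc] at h1
    exact h1
  rw [sq_grad_FF hs] at hcs
  -- AM-GM
  set r := √(cs v) with hr
  have hcsr : cs v = r ^ 2 := (sq_sqrt_cs v).symm
  have hn0 : 0 ≤ ze r + 3 * r * (cuv v + r) := by
    have h1 := sq_grad_FF hs
    have h2 : 0 ≤ (2 + 3 * √(cs v)) ^ 2 * cA v + (3 * √(cs v) - 2) ^ 2 * cB v := by
      have := cA_nonneg v
      have := cB_nonneg v
      positivity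
    rw [h1] at h2
    by_contra hcon
    push Not at hcon
    have := mul_neg_of_pos_of_neg (show 0 < 4 * cs v by positivity) hcon
    linarith
  have e1 : √(4 * cs v * (ze r + 3 * r * (cuv v + r))) =
      2 * r * √(ze r + 3 * r * (cuv v + r)) := by
    rw [hcsr, show 4 * r ^ 2 * (ze r + 3 * r * (cuv v + r)) =
      (2 * r) ^ 2 * (ze r + 3 * r * (cuv v + r)) by ring, Real.sqrt_mul (by positivity),
      Real.sqrt_sq (by positivity)]
  have e2 : √(cA X + cB X) ≤ wt (cZ v) * om (cs v) * √(ze r) := by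
    have hPz : wt (cZ v) ^ 2 * PP v = (wt (cZ v) * om (cs v)) ^ 2 * ze r := by
      unfold PP ze
      rw [hcsr]
      ring
    rw [hPz] at hXb
    calc √(cA X + cB X) ≤ √((wt (cZ v) * om (cs v)) ^ 2 * ze r) := Real.sqrt_le_sqrt hXb
      _ = wt (cZ v) * om (cs v) * √(ze r) := by
          rw [Real.sqrt_mul (by positivity), Real.sqrt_sq (by positivity)]
  have e3 : √(ze r + 3 * r * (cuv v + r)) * √(ze r) ≤ ze r + 3 / 2 * r * (cuv v + r) := by
    have h1 := Real.sq_sqrt hn0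
    have h2 := Real.sq_sqrt hz0.le
    nlinarith [sq_nonneg (√(ze r + 3 * r * (cuv v + r)) - √(ze r))]
  rw [e1] at hcs
  calc fderiv ℝ FF v X ≤ 2 * r * √(ze r + 3 * r * (cuv v + r)) * √(cA X + cB X) := hcs
    _ ≤ 2 * r * √(ze r + 3 * r * (cuv v + r)) * (wt (cZ v) * om (cs v) * √(ze r)) :=
        mul_le_mul_of_nonneg_left e2 (by positivity)
    _ = wt (cZ v) * om (cs v) * (2 * r * (√(ze r + 3 * r * (cuv v + r)) * √(ze r))) := by ring
    _ ≤ wt (cZ v) * om (cs v) * (2 * r * (ze r + 3 / 2 * r * (cuv v + r))) := by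
        apply mul_le_mul_of_nonneg_left _ (by positivity)
        exact mul_le_mul_of_nonneg_left e3 (by positivity)

/-- the flux of the calibration through the level sets of `FF` -/
lemma fderiv_FF_Wf {v : J m → ℝ} (hs : 0 < cs v) (hs' : cs v < 6 / 5) :
    fderiv ℝ FF v (Wf v) = wt (cZ v) * om (cs v) * (2 * √(cs v) *
      (ze √(cs v) / S2 √(cs v) (cuv v) * (S2 √(cs v) (cuv v) +
        3 * √(cs v) * (cuv v + √(cs v)) - (cuv v + √(cs v)) ^ 2 / 16))) := by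
  have hp := par_v hs
  have hS := (S2_pos (sqrt_sq_lt hs') hp.sq_u).ne'
  have hr0 := hp.r0.ne'
  rw [fderiv_FF hs.ne']
  have e1 : ∑ i, v (Sum.inl i) * Wf v (Sum.inl i) =
      wt (cZ v) * om (cs v) * (alp (cA v) (cB v) * cA v) := by
    have : ∑ i, v (Sum.inl i) * Wf v (Sum.inl i) =
        ∑ i, (wt (cZ v) * om (cs v) * alp (cA v) (cB v)) * v (Sum.inl i) ^ 2 := by
      apply Finset.sum_congr rfl
      intro i _
      simp only [Wf, Sum.elim_inl]
      ring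
    rw [this, ← Finset.mul_sum]
    change wt (cZ v) * om (cs v) * alp (cA v) (cB v) * cA v = _
    ring
  have e2 : ∑ i, v (Sum.inr (Sum.inl i)) * Wf v (Sum.inr (Sum.inl i)) =
      wt (cZ v) * om (cs v) * (bet (cA v) (cB v) * cB v) := by
    have : ∑ i, v (Sum.inr (Sum.inl i)) * Wf v (Sum.inr (Sum.inl i)) =
        ∑ i, (wt (cZ v) * om (cs v) * bet (cA v) (cB v)) * v (Sum.inr (Sum.inl i)) ^ 2 := by
      apply Finset.sum_congr rfl
      intro i _
      simp only [Wf, Sum.elim_inl, Sum.elim_inr]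
      ring
    rw [this, ← Finset.mul_sum]
    change wt (cZ v) * om (cs v) * bet (cA v) (cB v) * cB v = _
    ring
  rw [e1, e2]
  have key : (2 + 3 * √(cs v)) * (alp (cA v) (cB v) * cA v) +
      (3 * √(cs v) - 2) * (bet (cA v) (cB v) * cB v) = 2 * √(cs v) *
      (ze √(cs v) / S2 √(cs v) (cuv v) * (S2 √(cs v) (cuv v) +
        3 * √(cs v) * (cuv v + √(cs v)) - (cuv v + √(cs v)) ^ 2 / 16)) := by
    rw [hp.alp hS, hp.bet hS, hp.hA, hp.hB]
    generalize √(cs v) = r at *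
    generalize cuv v = u at *
    have hexp : S2 r u + 3 * r * (u + r) - (u + r) ^ 2 / 16 =
      (32 + 84 * r ^ 2 + 116 * r * u + 8 * u ^ 2) / 16 := by
      unfold S2; ring
    rw [hexp]
    field_simp
    ring
  calc _ = wt (cZ v) * om (cs v) * ((2 + 3 * √(cs v)) * (alp (cA v) (cB v) * cA v) +
      (3 * √(cs v) - 2) * (bet (cA v) (cB v) * cB v)) := by ring
    _ = _ := by rw [key]

end Pool.Agent.Lib.MP_89119d_gt
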