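import Pool.Agent.Lib.MP_89119d_gt.Ex
import Pool.Agent.Lib.MP_89119d_gt.Calib
import Pool.Agent.Lib.MP_89119d_gt.Integr

namespace Pool.Agent.Lib.MP_89119d_gt

open MeasureTheory Set Topology
open scoped ENNReal ContDiff Matrix

variable {m : ℕ} {q P w : (J m → ℝ) → ℝ}

/-- the diagonal entries of `Gm` -/
noncomputable def dgm (m : ℕ) (q P w : (J m → ℝ) → ℝ) (v : J m → ℝ) : J m → ℝ :=
  Sum.elim (fun _ => q v ^ 2 / P v)
    (Sum.elim (fun _ => q v ^ 2 / P v) (fun _ => P v ^ m / q v ^ (2 * m - 1) * w v))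

lemma Gm_eq (v : J m → ℝ) : Gm m q P w v = Matrix.diagonal (dgm m q P w v) := rfl

lemma dgm_pos {v : J m → ℝ} (hq : 0 < q v) (hP : 0 < P v) (hw : 0 < w v) (i : J m) :
    0 < dgm m q P w v i := by
  rcases i with i | i | i <;> simp only [dgm, Sum.elim_inl, Sum.elim_inr] <;> positivity

lemma isRiemannianOn_Gm {M : Set (J m → ℝ)} (hM : IsOpen M) (hq : ContDiffOn ℝ ∞ q M)
    (hP : ContDiffOn ℝ ∞ P M) (hw : ContDiffOn ℝ ∞ w M) (hq0 : ∀ v ∈ M, 0 < q v)
    (hP0 : ∀ v ∈ M, 0 < P v) (hw0 : ∀ v ∈ M, 0 < w v) : IsRiemannianOn M (Gm m q P w) := by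
  have h1 : ContDiffOn ℝ ∞ (fun v => q v ^ 2 / P v) M :=
    (hq.pow 2).div hP fun v hv => (hP0 v hv).ne'
  have h2 : ContDiffOn ℝ ∞ (fun v => P v ^ m / q v ^ (2 * m - 1) * w v) M :=
    ((hP.pow m).div (hq.pow _) fun v hv => (pow_pos (hq0 v hv) _).ne').mul hw
  have h3 : ∀ i, ContDiffOn ℝ ∞ (fun v => dgm m q P w v i) M := by
    rintro (i | i | i)
    · exact h1
    · exact h1
    · exact h2
  refine ⟨hM, fun i j => ?_, fun v hv => ?_⟩
  · by_cases hij : i = j
    · subst hij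
      simp only [Gm_eq, Matrix.diagonal_apply_eq]
      exact h3 i
    · simp only [Gm_eq, Matrix.diagonal_apply_ne _ hij]
      exact contDiffOn_const
  · rw [Gm_eq]
    exact Matrix.PosDef.diagonal fun i => dgm_pos (hq0 v hv) (hP0 v hv) (hw0 v hv) i

lemma dens_Gm (hm : 1 ≤ m) {v : J m → ℝ} (hq : 0 < q v) (hP : 0 < P v) (hw : 0 < w v) :
    dens (Gm m q P w) v = q v * w v := by
  have h : (Gm m q P w v).det = (q v * w v) ^ 2 := by
    rw [Gm_eq, Matrix.det_diagonal, Fintype.prod_sum_type, Fintype.prod_sum_type]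
    simp only [dgm, Sum.elim_inl, Sum.elim_inr, Finset.prod_const, Finset.card_univ,
      Fintype.card_fin]
    obtain ⟨k, rfl⟩ : ∃ k, m = k + 1 := ⟨m - 1, by omega⟩
    have e : 2 * (k + 1) - 1 = 2 * k + 1 := by omega
    rw [e, div_pow, mul_pow, div_pow]
    have hP' := hP.ne'
    have hq' := hq.ne'
    field_simp
    ring
  rw [dens, h, Real.sqrt_sq (mul_pos hq hw).le]

lemma nsq_Gm (v X : J m → ℝ) : nsq (Gm m q P w) v X =
    q v ^ 2 / P v * (cA X + cB X) + P v ^ m / q v ^ (2 * m - 1) * w v * cZ X := by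
  rw [nsq, Gm_eq]
  simp only [dotProduct, Matrix.mulVec_diagonal, Fintype.sum_sum_type, dgm, Sum.elim_inl,
    Sum.elim_inr, cA, cB, cZ, mul_add, Finset.mul_sum, ← add_assoc]
  congr 1
  · congr 1 <;> refine Finset.sum_congr rfl fun i _ => ?_ <;> ring
  · refine Finset.sum_congr rfl fun i _ => ?_
    ring

lemma unitNormal_Gm {v : J m → ℝ} (hq : 0 < q v) (hP : 0 < P v) (hw : 0 < w v)
    {f : (J m → ℝ) → ℝ} (hz : cZ (grad f v) = 0) (h0 : 0 < cA (grad f v) + cB (grad f v)) :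
    unitNormal (Gm m q P w) f v =
      (√(P v) / (q v * √(cA (grad f v) + cB (grad f v)))) • grad f v := by
  have hinv : (Gm m q P w v)⁻¹ = Matrix.diagonal (fun i => (dgm m q P w v i)⁻¹) := by
    rw [Gm_eq]
    apply Matrix.inv_eq_right_inv
    rw [Matrix.diagonal_mul_diagonal]
    rw [← Matrix.diagonal_one]
    congr 1
    funext i
    exact mul_inv_cancel₀ (dgm_pos hq hP hw i).ne'
  have hz' : ∀ k, grad f v (Sum.inr (Sum.inr k)) = 0 := by
    intro k
    have := (Finset.sum_eq_zero_iff_of_nonneg (fun k _ => sq_nonneg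
      (grad f v (Sum.inr (Sum.inr k))))).1 hz k (Finset.mem_univ k)
    exact pow_eq_zero_iff (two_ne_zero) |>.1 this
  have hmul : (Gm m q P w v)⁻¹ *ᵥ grad f v = (P v / q v ^ 2) • grad f v := by
    rw [hinv]
    ext i
    rw [Matrix.mulVec_diagonal]
    rcases i with i | i | i
    · simp only [dgm, Sum.elim_inl, Pi.smul_apply, smul_eq_mul, inv_div]
    · simp only [dgm, Sum.elim_inl, Sum.elim_inr, Pi.smul_apply, smul_eq_mul, inv_div]
    · simp only [Pi.smul_apply, hz', mul_zero, smul_eq_mul]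
  have hdot : grad f v ⬝ᵥ grad f v = cA (grad f v) + cB (grad f v) := by
    have : grad f v ⬝ᵥ grad f v = cA (grad f v) + cB (grad f v) + cZ (grad f v) := by
      simp only [dotProduct, Fintype.sum_sum_type, cA, cB, cZ, ← add_assoc, pow_two]
    rw [this, hz, add_zero]
  rw [unitNormal, hmul, dotProduct_smul, hdot, smul_smul, smul_eq_mul, Real.sqrt_mul (by positivity),
    Real.sqrt_div hP.le, Real.sqrt_sq hq.le]
  congr 1
  set G := cA (grad f v) + cB (grad f v)
  have hsG : 0 < √G := Real.sqrt_pos.2 h0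
  have hsP : 0 < √(P v) := Real.sqrt_pos.2 hP
  field_simp
  rw [Real.sq_sqrt hP.le]

end Pool.Agent.Lib.MP_89119d_gt
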