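import Pool.Agent.Lib.MP_89119d_gt.Defs

namespace Pool.Agent.Lib.MP_89119d_gt

open MeasureTheory Set Topology Filter
open scoped ENNReal ContDiff Matrix

variable {ι : Type} [Fintype ι] [DecidableEq ι]

/-- The determinant of a matrix of smooth functions is smooth. -/
theorem contDiffAt_det {n : WithTop ℕ∞} {A : (ι → ℝ) → Matrix ι ι ℝ} {x : ι → ℝ}
    (hA : ∀ i j, ContDiffAt ℝ n (fun y => A y i j) x) : ContDiffAt ℝ n (fun y => (A y).det) x := by
  simp only [Matrix.det_apply]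
  apply ContDiffAt.sum
  intro σ _
  apply ContDiffAt.const_smul
  exact contDiffAt_prod fun i _ => hA _ _

theorem contDiffAt_adjugate {n : WithTop ℕ∞} {A : (ι → ℝ) → Matrix ι ι ℝ} {x : ι → ℝ}
    (hA : ∀ i j, ContDiffAt ℝ n (fun y => A y i j) x) (i j : ι) :
    ContDiffAt ℝ n (fun y => (A y).adjugate i j) x := by
  simp only [Matrix.adjugate_apply]
  apply contDiffAt_det
  intro k l
  by_cases hk : k = j
  · subst hk
    simp only [Matrix.updateRow_self]
    exact contDiffAt_const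
  · simp only [Matrix.updateRow_ne hk]
    exact hA _ _

theorem contDiffAt_inv {n : WithTop ℕ∞} {A : (ι → ℝ) → Matrix ι ι ℝ} {x : ι → ℝ}
    (hA : ∀ i j, ContDiffAt ℝ n (fun y => A y i j) x) (hx : (A x).det ≠ 0) (i j : ι) :
    ContDiffAt ℝ n (fun y => (A y)⁻¹ i j) x := by
  have h : ∀ y, (A y)⁻¹ i j = ((A y).det)⁻¹ * (A y).adjugate i j := by
    intro y
    rw [Matrix.inv_def, Ring.inverse_eq_inv', Matrix.smul_apply, smul_eq_mul]
  simp only [h]
  exact ((contDiffAt_det hA).inv hx).mul (contDiffAt_adjugate hA i j)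

variable {M : Set (ι → ℝ)} {g : (ι → ℝ) → Matrix ι ι ℝ}

theorem contDiffAt_entry (hg : IsRiemannianOn M g) {x : ι → ℝ} (hx : x ∈ M) (i j : ι) :
    ContDiffAt ℝ ∞ (fun y => g y i j) x := (hg.2.1 i j).contDiffAt (hg.1.mem_nhds hx)

theorem contDiffAt_dens (hg : IsRiemannianOn M g) {x : ι → ℝ} (hx : x ∈ M) :
    ContDiffAt ℝ ∞ (dens g) x := by
  have h1 := contDiffAt_det fun i j => contDiffAt_entry hg hx i j
  exact h1.sqrt (hg.2.2 x hx).det_pos.ne'

theorem dens_pos_mc (hg : IsRiemannianOn M g) {x : ι → ℝ} (hx : x ∈ M) : 0 < dens g x :=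
  Real.sqrt_pos.2 (hg.2.2 x hx).det_pos

theorem contDiffAt_grad {f : (ι → ℝ) → ℝ} {x : ι → ℝ} (hf : ContDiffAt ℝ ∞ f x) (i : ι) :
    ContDiffAt ℝ ∞ (fun y => grad f y i) x := by
  have h1 : ContDiffAt ℝ ∞ (fderiv ℝ f) x := hf.fderiv_right (by norm_num)
  exact h1.clm_apply contDiffAt_const

theorem grad_dot {f : (ι → ℝ) → ℝ} {x : ι → ℝ} (v : ι → ℝ) : grad f x ⬝ᵥ v = fderiv ℝ f x v := by
  have hv : v = ∑ i, v i • (Pi.single i (1:ℝ) : ι → ℝ) := by
    ext j
    simp [Finset.sum_apply, Pi.single_apply]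
  conv_rhs => rw [hv]
  rw [map_sum]
  simp only [map_smul, smul_eq_mul, dotProduct, grad]
  exact Finset.sum_congr rfl fun i _ => mul_comm _ _

theorem grad_ne_zero {f : (ι → ℝ) → ℝ} {x : ι → ℝ} (hf : fderiv ℝ f x ≠ 0) : grad f x ≠ 0 := by
  intro h
  apply hf
  ext v
  rw [← grad_dot, h]
  simp

theorem gradq_pos (hg : IsRiemannianOn M g) {x : ι → ℝ} (hx : x ∈ M) {f : (ι → ℝ) → ℝ}
    (hf : fderiv ℝ f x ≠ 0) : 0 < grad f x ⬝ᵥ ((g x)⁻¹ *ᵥ grad f x) := by
  have := (hg.2.2 x hx).inv.dotProduct_mulVec_pos (grad_ne_zero hf)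
  simpa using this

/-- The field `√det g · ν`. -/
noncomputable def VV (g : (ι → ℝ) → Matrix ι ι ℝ) (f : (ι → ℝ) → ℝ) (y : ι → ℝ) : ι → ℝ :=
  dens g y • unitNormal g f y

theorem contDiffAt_VV (hg : IsRiemannianOn M g) {x : ι → ℝ} (hx : x ∈ M) {f : (ι → ℝ) → ℝ}
    (hf : ContDiffAt ℝ ∞ f x) (hf0 : fderiv ℝ f x ≠ 0) (i : ι) :
    ContDiffAt ℝ ∞ (fun y => VV g f y i) x := by
  have h1 : ∀ i, ContDiffAt ℝ ∞ (fun y => ((g y)⁻¹ *ᵥ grad f y) i) x := by
    intro i
    simp only [Matrix.mulVec, dotProduct]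
    apply ContDiffAt.sum
    intro j _
    exact (contDiffAt_inv (fun i j => contDiffAt_entry hg hx i j) (hg.2.2 x hx).det_pos.ne' i j).mul
      (contDiffAt_grad hf j)
  have h2 : ContDiffAt ℝ ∞ (fun y => grad f y ⬝ᵥ ((g y)⁻¹ *ᵥ grad f y)) x := by
    simp only [dotProduct]
    apply ContDiffAt.sum
    intro j _
    exact (contDiffAt_grad hf j).mul (h1 j)
  have h3 := gradq_pos hg hx hf0
  have h4 : ContDiffAt ℝ ∞ (fun y => (√(grad f y ⬝ᵥ ((g y)⁻¹ *ᵥ grad f y)))⁻¹) x :=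
    (h2.sqrt h3.ne').inv (Real.sqrt_pos.2 h3).ne'
  exact (contDiffAt_dens hg hx).mul (h4.mul (h1 i))

theorem nsq_VV (hg : IsRiemannianOn M g) {x : ι → ℝ} (hx : x ∈ M) {f : (ι → ℝ) → ℝ}
    (hf0 : fderiv ℝ f x ≠ 0) : nsq g x (VV g f x) = dens g x ^ 2 := by
  have h3 := gradq_pos hg hx hf0
  have hdet : IsUnit (g x).det := isUnit_iff_ne_zero.2 (hg.2.2 x hx).det_pos.ne'
  unfold nsq VV unitNormal
  simp only [Matrix.mulVec_smul, smul_dotProduct, dotProduct_smul, smul_eq_mul]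
  rw [Matrix.mulVec_mulVec, Matrix.mul_nonsing_inv _ hdet, Matrix.one_mulVec]
  have hcomm : ((g x)⁻¹ *ᵥ grad f x) ⬝ᵥ grad f x = grad f x ⬝ᵥ ((g x)⁻¹ *ᵥ grad f x) :=
    dotProduct_comm _ _
  rw [hcomm]
  set q := grad f x ⬝ᵥ ((g x)⁻¹ *ᵥ grad f x)
  have h4 : √q ^ 2 = q := Real.sq_sqrt h3.le
  have h5 : √q ≠ 0 := (Real.sqrt_pos.2 h3).ne'
  field_simp
  rw [h4]

theorem g_mul_VV (hg : IsRiemannianOn M g) {x : ι → ℝ} (hx : x ∈ M) {f : (ι → ℝ) → ℝ} :
    g x *ᵥ VV g f x = (dens g x * (√(grad f x ⬝ᵥ ((g x)⁻¹ *ᵥ grad f x)))⁻¹) • grad f x := by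
  have hdet : IsUnit (g x).det := isUnit_iff_ne_zero.2 (hg.2.2 x hx).det_pos.ne'
  unfold VV unitNormal
  rw [Matrix.mulVec_smul, Matrix.mulVec_smul, Matrix.mulVec_mulVec, Matrix.mul_nonsing_inv _ hdet,
    Matrix.one_mulVec, smul_smul]

theorem unitNormal_congr {f F : (ι → ℝ) → ℝ} {y : ι → ℝ} {c : ℝ} (hc : 0 < c)
    (h : grad F y = c • grad f y) : unitNormal g F y = unitNormal g f y := by
  unfold unitNormal
  rw [h]
  simp only [Matrix.mulVec_smul, smul_dotProduct, dotProduct_smul, smul_eq_mul]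
  rw [← mul_assoc, Real.sqrt_mul (mul_self_nonneg c), Real.sqrt_mul_self hc.le, smul_smul, mul_inv]
  congr 1
  field_simp

/-- Positive proportionality of differentials from sign information. -/
theorem exists_pos_mul {E : Type*} [NormedAddCommGroup E] [NormedSpace ℝ E] {p P : E →L[ℝ] ℝ}
    (hp : p ≠ 0) (hP : P ≠ 0) (h : ∀ v, p v < 0 → P v ≤ 0) : ∃ c : ℝ, 0 < c ∧ P = c • p := by
  obtain ⟨v0, hv0⟩ : ∃ v0, p v0 < 0 := by
    obtain ⟨v, hv⟩ : ∃ v, p v ≠ 0 := by
      by_contra hno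
      push Not at hno
      exact hp (ContinuousLinearMap.ext hno)
    rcases lt_or_gt_of_ne hv with h1 | h1
    · exact ⟨v, h1⟩
    · exact ⟨-v, by rw [map_neg]; linarith⟩
  have hker : ∀ u, p u = 0 → P u = 0 := by
    intro u hu
    by_contra hne
    have key : ∀ s : ℝ, P v0 + s * P u ≤ 0 := by
      intro s
      have := h (v0 + s • u) (by rw [map_add, map_smul, hu]; simpa using hv0)
      rwa [map_add, map_smul, smul_eq_mul] at this
    have := key ((1 - P v0) / P u)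
    rw [div_mul_cancel₀ _ hne] at this
    linarith
  have hform : ∀ v, P v = (P v0 / p v0) * p v := by
    intro v
    have h1 : P (v - (p v / p v0) • v0) = 0 := by
      apply hker
      rw [map_sub, map_smul, smul_eq_mul, div_mul_cancel₀ _ hv0.ne, sub_self]
    rw [map_sub, map_smul, smul_eq_mul] at h1
    have h2 : P v = p v / p v0 * P v0 := by linarith
    rw [h2]
    ring
  refine ⟨P v0 / p v0, ?_, ContinuousLinearMap.ext fun v => by rw [hform v]; rfl⟩
  have h1 := h v0 hv0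
  have h2 : P v0 ≠ 0 := by
    intro h0
    apply hP
    ext v
    rw [hform v, h0]
    simp
  exact div_pos_of_neg_of_neg (lt_of_le_of_ne h1 h2) hv0

theorem volume_null_of_vol (hg : IsRiemannianOn M g) {E : Set (ι → ℝ)} (hE : E ⊆ M)
    (hEo : IsOpen E) (h : vol M g E = 0) : E = ∅ := by
  by_contra hne
  have hne' : E.Nonempty := nonempty_iff_ne_empty.2 hne
  have h1 : 0 < volume E := hEo.measure_pos volume hne'
  unfold vol at h
  rw [inter_eq_left.2 hE] at h
  have hmeas : AEMeasurable (fun x => ENNReal.ofReal (dens g x)) (volume.restrict E) := by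
    apply ENNReal.measurable_ofReal.comp_aemeasurable
    apply ContinuousOn.aemeasurable _ hEo.measurableSet
    intro y hy
    exact (contDiffAt_dens hg (hE hy)).continuousAt.continuousWithinAt
  rw [lintegral_eq_zero_iff' hmeas] at h
  have h2 : ∀ᵐ x ∂(volume.restrict E), False := by
    filter_upwards [h, ae_restrict_mem hEo.measurableSet] with y hy hyE
    have := dens_pos_mc hg (hE hyE)
    simp only [Pi.zero_apply, ENNReal.ofReal_eq_zero] at hy
    linarith
  rw [ae_iff] at h2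
  simp at h2
  exact h1.ne' h2

theorem sign_of_null (hg : IsRiemannianOn M g) {Ω : Set (ι → ℝ)} {O : Set (ι → ℝ)} (hO : IsOpen O)
    (hOM : O ⊆ M) {F f : (ι → ℝ) → ℝ} (hF : ContinuousOn F O) (hf : ContinuousOn f O)
    (hFΩ : Ω ∩ O = {y | y ∈ O ∧ F y < 0}) (h1 : vol M g (O ∩ (Ω \ {y | f y < 0})) = 0)
    (h2 : vol M g (O ∩ ({y | f y < 0} \ Ω)) = 0) :
    (∀ y ∈ O, f y < 0 → F y ≤ 0) ∧ (∀ y ∈ O, F y < 0 → f y ≤ 0) := by
  have hmono : ∀ {A B : Set (ι → ℝ)}, A ⊆ B → vol M g B = 0 → vol M g A = 0 := by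
    intro A B hAB hB
    refine le_antisymm ?_ zero_le
    rw [← hB]
    exact lintegral_mono_set (inter_subset_inter_left _ hAB)
  constructor
  · intro y hy hfy
    by_contra hFy
    push Not at hFy
    have hopen : IsOpen (O ∩ (f ⁻¹' (Iio 0)) ∩ (F ⁻¹' (Ioi 0))) := by
      have e1 := hf.isOpen_inter_preimage hO (isOpen_Iio (a := (0:ℝ)))
      have e2 := hF.isOpen_inter_preimage hO (isOpen_Ioi (a := (0:ℝ)))
      have : O ∩ (f ⁻¹' (Iio 0)) ∩ (F ⁻¹' (Ioi 0)) = (O ∩ f ⁻¹' (Iio 0)) ∩ (O ∩ F ⁻¹' (Ioi 0)) := by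
        ext z
        simp only [mem_inter_iff]
        tauto
      rw [this]
      exact e1.inter e2
    have hsub : O ∩ (f ⁻¹' (Iio 0)) ∩ (F ⁻¹' (Ioi 0)) ⊆ O ∩ ({y | f y < 0} \ Ω) := by
      rintro z ⟨⟨hzO, hzf⟩, hzF⟩
      refine ⟨hzO, hzf, fun hzΩ => ?_⟩
      have : z ∈ {y | y ∈ O ∧ F y < 0} := hFΩ ▸ ⟨hzΩ, hzO⟩
      exact absurd this.2 (not_lt.2 (le_of_lt hzF))
    have := volume_null_of_vol hg ((inter_subset_left.trans inter_subset_left).trans hOM) hopen
      (hmono hsub h2)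
    have hy' : y ∈ O ∩ (f ⁻¹' (Iio 0)) ∩ (F ⁻¹' (Ioi 0)) := ⟨⟨hy, hfy⟩, hFy⟩
    rw [this] at hy'
    exact hy'
  · intro y hy hFy
    by_contra hfy
    push Not at hfy
    have hopen : IsOpen (O ∩ (F ⁻¹' (Iio 0)) ∩ (f ⁻¹' (Ioi 0))) := by
      have e1 := hF.isOpen_inter_preimage hO (isOpen_Iio (a := (0:ℝ)))
      have e2 := hf.isOpen_inter_preimage hO (isOpen_Ioi (a := (0:ℝ)))
      have : O ∩ (F ⁻¹' (Iio 0)) ∩ (f ⁻¹' (Ioi 0)) = (O ∩ F ⁻¹' (Iio 0)) ∩ (O ∩ f ⁻¹' (Ioi 0)) := by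
        ext z
        simp only [mem_inter_iff]
        tauto
      rw [this]
      exact e1.inter e2
    have hsub : O ∩ (F ⁻¹' (Iio 0)) ∩ (f ⁻¹' (Ioi 0)) ⊆ O ∩ (Ω \ {y | f y < 0}) := by
      rintro z ⟨⟨hzO, hzF⟩, hzf⟩
      have : z ∈ Ω ∩ O := by
        rw [hFΩ]
        exact ⟨hzO, hzF⟩
      exact ⟨hzO, this.1, fun h => absurd (show f z < 0 from h) (not_lt.2 (le_of_lt hzf))⟩
    have := volume_null_of_vol hg ((inter_subset_left.trans inter_subset_left).trans hOM) hopen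
      (hmono hsub h1)
    have hy' : y ∈ O ∩ (F ⁻¹' (Iio 0)) ∩ (f ⁻¹' (Ioi 0)) := ⟨⟨hy, hFy⟩, hfy⟩
    rw [this] at hy'
    exact hy'

/-- If `f y = 0`, `df ≠ 0` and `f < 0 → F ≤ 0`, `F < 0 → f ≤ 0` near `y`, then `F y = 0`. -/
theorem zero_of_zero {E : Type*} [NormedAddCommGroup E] [NormedSpace ℝ E] {f F : E → ℝ} {y : E}
    (hf : DifferentiableAt ℝ f y) (hf0 : fderiv ℝ f y ≠ 0) (hF : ContinuousAt F y)
    (h1 : ∀ᶠ z in 𝓝 y, f z < 0 → F z ≤ 0) (h2 : ∀ᶠ z in 𝓝 y, F z < 0 → f z ≤ 0)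
    (hfy : f y = 0) : F y = 0 := by
  obtain ⟨v, hv⟩ : ∃ v, fderiv ℝ f y v < 0 := by
    obtain ⟨v, hv⟩ : ∃ v, fderiv ℝ f y v ≠ 0 := by
      by_contra hno
      push Not at hno
      exact hf0 (ContinuousLinearMap.ext hno)
    rcases lt_or_gt_of_ne hv with h1 | h1
    · exact ⟨v, h1⟩
    · exact ⟨-v, by rw [map_neg]; linarith⟩
  have hline : Tendsto (fun t : ℝ => y + t • v) (𝓝 0) (𝓝 y) := by
    have : Continuous fun t : ℝ => y + t • v := by fun_prop
    simpa using this.tendsto 0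
  have hd : HasDerivAt (fun t : ℝ => f (y + t • v)) (fderiv ℝ f y v) 0 := by
    have h3 : HasDerivAt (fun t : ℝ => y + t • v) v 0 := by
      have := ((hasDerivAt_id (0:ℝ)).smul_const v).const_add y
      rw [one_smul] at this
      exact this
    have h4 : HasFDerivAt f (fderiv ℝ f y) (y + (0:ℝ) • v) := by simpa using hf.hasFDerivAt
    exact h4.comp_hasDerivAt 0 h3
  have hneg : ∀ᶠ t in 𝓝[>] (0:ℝ), f (y + t • v) < 0 := by
    have := hd.hasDerivWithinAt (s := Ioi 0)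
    have h5 := (hasDerivWithinAt_iff_tendsto_slope' (by simp)).1 this
    have h6 := h5.eventually (gt_mem_nhds hv)
    filter_upwards [h6, self_mem_nhdsWithin] with t ht ht0
    rw [slope_def_field] at ht
    simp only [zero_smul, add_zero, hfy, sub_zero] at ht
    have ht0' : (0:ℝ) < t := ht0
    rw [div_lt_iff₀ ht0'] at ht
    simpa using ht
  have hpos : ∀ᶠ t in 𝓝[<] (0:ℝ), 0 < f (y + t • v) := by
    have := hd.hasDerivWithinAt (s := Iio 0)
    have h5 := (hasDerivWithinAt_iff_tendsto_slope' (by simp)).1 this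
    have h6 := h5.eventually (gt_mem_nhds hv)
    filter_upwards [h6, self_mem_nhdsWithin] with t ht ht0
    rw [slope_def_field] at ht
    simp only [zero_smul, add_zero, hfy, sub_zero] at ht
    have ht0' : t < (0:ℝ) := ht0
    rw [div_lt_iff_of_neg ht0'] at ht
    simpa using ht
  have hFt : Tendsto (fun t : ℝ => F (y + t • v)) (𝓝 0) (𝓝 (F y)) := hF.tendsto.comp hline
  apply le_antisymm
  · refine le_of_tendsto (hFt.mono_left nhdsWithin_le_nhds : Tendsto _ (𝓝[>] (0:ℝ)) _) ?_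
    filter_upwards [hneg, (hline.eventually h1).filter_mono nhdsWithin_le_nhds] with t ht1 ht2
    exact ht2 ht1
  · refine ge_of_tendsto (hFt.mono_left nhdsWithin_le_nhds : Tendsto _ (𝓝[<] (0:ℝ)) _) ?_
    filter_upwards [hpos, (hline.eventually h2).filter_mono nhdsWithin_le_nhds] with t ht1 ht2
    by_contra hlt
    push Not at hlt
    exact absurd (ht2 hlt) (not_le.2 ht1)

/-- If moreover `F` is differentiable with nonzero differential, the differentials are positively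
proportional. -/
theorem grad_prop {f F : (ι → ℝ) → ℝ} {y : ι → ℝ}
    (hf : DifferentiableAt ℝ f y) (hf0 : fderiv ℝ f y ≠ 0) (hF : DifferentiableAt ℝ F y)
    (hF0 : fderiv ℝ F y ≠ 0) (h1 : ∀ᶠ z in 𝓝 y, f z < 0 → F z ≤ 0)
    (hfy : f y = 0) (hFy : F y = 0) : ∃ c : ℝ, 0 < c ∧ grad F y = c • grad f y := by
  obtain ⟨c, hc, hcF⟩ := exists_pos_mul hf0 hF0 (by
    intro v hv
    have hline : Tendsto (fun t : ℝ => y + t • v) (𝓝 0) (𝓝 y) := by
      have : Continuous fun t : ℝ => y + t • v := by fun_prop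
      simpa using this.tendsto 0
    have hder : ∀ {h : (ι → ℝ) → ℝ}, DifferentiableAt ℝ h y →
        HasDerivAt (fun t : ℝ => h (y + t • v)) (fderiv ℝ h y v) 0 := by
      intro h hh
      have h3 : HasDerivAt (fun t : ℝ => y + t • v) v 0 := by
        have := ((hasDerivAt_id (0:ℝ)).smul_const v).const_add y
        rw [one_smul] at this
        exact this
      have h4 : HasFDerivAt h (fderiv ℝ h y) (y + (0:ℝ) • v) := by simpa using hh.hasFDerivAt
      exact h4.comp_hasDerivAt 0 h3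
    have hneg : ∀ᶠ t in 𝓝[>] (0:ℝ), f (y + t • v) < 0 := by
      have := (hder hf).hasDerivWithinAt (s := Ioi 0)
      have h5 := (hasDerivWithinAt_iff_tendsto_slope' (by simp)).1 this
      have h6 := h5.eventually (gt_mem_nhds hv)
      filter_upwards [h6, self_mem_nhdsWithin] with t ht ht0
      rw [slope_def_field] at ht
      simp only [zero_smul, add_zero, hfy, sub_zero] at ht
      have ht0' : (0:ℝ) < t := ht0
      rw [div_lt_iff₀ ht0'] at ht
      simpa using ht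
    have h7 := (hasDerivWithinAt_iff_tendsto_slope' (by simp)).1
      ((hder hF).hasDerivWithinAt (s := Ioi 0))
    refine le_of_tendsto h7 ?_
    filter_upwards [hneg, (hline.eventually h1).filter_mono nhdsWithin_le_nhds,
      self_mem_nhdsWithin] with t ht1 ht2 ht0
    have ht0' : (0:ℝ) < t := ht0
    rw [slope_def_field]
    simp only [zero_smul, add_zero, hFy, sub_zero]
    exact div_nonpos_of_nonpos_of_nonneg (ht2 ht1) ht0'.le)
  refine ⟨c, hc, ?_⟩
  ext i
  simp only [grad, hcF]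
  rfl

theorem meanCurvature_eq_of_calibration {ι : Type} [Fintype ι] [DecidableEq ι] {M : Set (ι → ℝ)}
    {g : (ι → ℝ) → Matrix ι ι ℝ} (hg : IsRiemannianOn M g) {Ω : Set (ι → ℝ)} {x : ι → ℝ}
    {O : Set (ι → ℝ)} (hO : IsOpen O) (hxO : x ∈ O) (hOM : O ⊆ M) {F f : (ι → ℝ) → ℝ}
    (hF : ContDiffOn ℝ ∞ F O) (hF0 : ∀ y ∈ O, fderiv ℝ F y ≠ 0)
    (hFΩ : Ω ∩ O = {y | y ∈ O ∧ F y < 0}) (hFx : F x = 0) {W : (ι → ℝ) → (ι → ℝ)}
    (hW : ContDiffOn ℝ ∞ W O) (hW1 : ∀ y ∈ O, nsq g y (W y) ≤ (dens g y) ^ 2)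
    (hW2 : ∀ y ∈ O, F y = 0 → W y = dens g y • unitNormal g F y) (hf : IsDefiningAt M g Ω f x) :
    meanCurvature g f x = (dens g x)⁻¹ * dvg W x := by
  obtain ⟨hfx, U, hU, hxU, hUM, hfU, hf0, hn1, hn2⟩ := hf
  -- work on the common neighbourhood
  let N : Set (ι → ℝ) := O ∩ U
  have hN : IsOpen N := hO.inter hU
  have hxN : x ∈ N := ⟨hxO, hxU⟩
  have hNM : N ⊆ M := inter_subset_left.trans hOM
  have hNx : N ∈ 𝓝 x := hN.mem_nhds hxN
  have hmono : ∀ {A B : Set (ι → ℝ)}, A ⊆ B → vol M g B = 0 → vol M g A = 0 := by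
    intro A B hAB hB
    refine le_antisymm ?_ zero_le
    rw [← hB]
    exact lintegral_mono_set (inter_subset_inter_left _ hAB)
  have hFN : Ω ∩ N = {y | y ∈ N ∧ F y < 0} := by
    ext y
    constructor
    · rintro ⟨hyΩ, hyO, hyU⟩
      have : y ∈ {y | y ∈ O ∧ F y < 0} := hFΩ ▸ ⟨hyΩ, hyO⟩
      exact ⟨⟨hyO, hyU⟩, this.2⟩
    · rintro ⟨⟨hyO, hyU⟩, hyF⟩
      have : y ∈ Ω ∩ O := by
        rw [hFΩ]
        exact ⟨hyO, hyF⟩
      exact ⟨this.1, hyO, hyU⟩
  obtain ⟨hs1, hs2⟩ := sign_of_null hg hN hNM (hF.continuousOn.mono inter_subset_left)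
    (hfU.continuousOn.mono inter_subset_right) hFN
    (hmono (inter_subset_inter_left _ inter_subset_right) hn1)
    (hmono (inter_subset_inter_left _ inter_subset_right) hn2)
  have hfd : ∀ y ∈ N, DifferentiableAt ℝ f y := fun y hy =>
    (hfU.contDiffAt (hU.mem_nhds hy.2)).differentiableAt (by simp)
  have hFd : ∀ y ∈ N, DifferentiableAt ℝ F y := fun y hy =>
    (hF.contDiffAt (hO.mem_nhds hy.1)).differentiableAt (by simp)
  have hev1 : ∀ y ∈ N, ∀ᶠ z in 𝓝 y, f z < 0 → F z ≤ 0 := fun y hy => by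
    filter_upwards [hN.mem_nhds hy] with z hz using hs1 z hz
  have hev2 : ∀ y ∈ N, ∀ᶠ z in 𝓝 y, F z < 0 → f z ≤ 0 := fun y hy => by
    filter_upwards [hN.mem_nhds hy] with z hz using hs2 z hz
  have hzero : ∀ y ∈ N, f y = 0 → F y = 0 := fun y hy hfy =>
    zero_of_zero (hfd y hy) (hf0 y hy.2) (hFd y hy).continuousAt (hev1 y hy) (hev2 y hy) hfy
  -- the difference field
  let R : (ι → ℝ) → (ι → ℝ) := fun y => VV g f y - W y
  have hR0 : ∀ y ∈ N, f y = 0 → R y = 0 := by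
    intro y hy hfy
    have hFy := hzero y hy hfy
    obtain ⟨c, hc, hcF⟩ := grad_prop (hfd y hy) (hf0 y hy.2) (hFd y hy) (hF0 y hy.1) (hev1 y hy)
      hfy hFy
    have h1 := hW2 y hy.1 hFy
    rw [unitNormal_congr hc hcF] at h1
    simp only [R, VV, h1, sub_self]
  have hRx : R x = 0 := hR0 x hxN hfx
  have hVs : ∀ i, ContDiffAt ℝ ∞ (fun y => VV g f y i) x := fun i =>
    contDiffAt_VV hg (hNM hxN) (hfU.contDiffAt (hU.mem_nhds hxU)) (hf0 x hxU) i
  have hWs : ∀ i, ContDiffAt ℝ ∞ (fun y => W y i) x := fun i =>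
    (contDiffAt_pi.1 (hW.contDiffAt (hO.mem_nhds hxO))) i
  have hRs : ∀ i, ContDiffAt ℝ ∞ (fun y => R y i) x := fun i => (hVs i).sub (hWs i)
  have hRd : ∀ i, HasFDerivAt (fun y => R y i) (fderiv ℝ (fun y => R y i) x) x := fun i =>
    ((hRs i).differentiableAt (by simp)).hasFDerivAt
  -- the derivative of `R` at `x` is `w ⊗ df`
  have hw : ∀ i, ∃ w : ℝ, fderiv ℝ (fun y => R y i) x = w • fderiv ℝ f x := by
    intro i
    have hext : IsLocalExtrOn (fun y => R y i) {y | f y = f x} x := by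
      left
      have : ∀ᶠ y in 𝓝[{y | f y = f x}] x, R y i = 0 := by
        filter_upwards [mem_nhdsWithin_of_mem_nhds hNx, self_mem_nhdsWithin] with y hy hfy
        rw [hfx] at hfy
        rw [hR0 y hy hfy]
        rfl
      filter_upwards [this] with y hy
      rw [hy, hRx]
      rfl
    obtain ⟨a, b, hab, habe⟩ := hext.exists_multipliers_of_hasStrictFDerivAt_1d
      ((hfU.contDiffAt (hU.mem_nhds hxU)).hasStrictFDerivAt (by simp))
      ((hRs i).hasStrictFDerivAt (by simp))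
    have hb : b ≠ 0 := by
      rintro rfl
      rw [zero_smul, add_zero] at habe
      rcases smul_eq_zero.1 habe with h | h
      · apply hab
        rw [h]
        rfl
      · exact hf0 x hxU h
    refine ⟨-(a / b), ?_⟩
    have h1 : b • fderiv ℝ (fun y => R y i) x = -(a • fderiv ℝ f x) := by
      rw [eq_neg_iff_add_eq_zero, add_comm]
      exact habe
    have h2 : fderiv ℝ (fun y => R y i) x = b⁻¹ • (b • fderiv ℝ (fun y => R y i) x) := by
      rw [smul_smul, inv_mul_cancel₀ hb, one_smul]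
    rw [h2, h1]
    refine ContinuousLinearMap.ext fun v => ?_
    simp only [ContinuousLinearMap.neg_apply, ContinuousLinearMap.smul_apply, smul_eq_mul]
    field_simp
  choose w hw using hw
  have hMx : x ∈ M := hNM hxN
  -- the quadratic form
  have hsymm : ∀ y ∈ N, ∀ i j, g y i j = g y j i := by
    intro y hy i j
    simpa using (hg.2.2 y (hNM hy)).isHermitian.apply j i
  let cc : ι → (ι → ℝ) → ℝ := fun j y => ∑ i, (R y i - 2 * VV g f y i) * g y i j
  have hψ : ∀ y ∈ N, nsq g y (W y) - dens g y ^ 2 = ∑ j, cc j y * R y j := by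
    intro y hy
    rw [← nsq_VV hg (hNM hy) (hf0 y hy.2)]
    have hWy : W y = fun i => VV g f y i - R y i := by
      ext i
      simp [R]
    rw [hWy]
    simp only [nsq, dotProduct, Matrix.mulVec, cc, Finset.mul_sum, Finset.sum_mul]
    rw [Finset.sum_comm (f := fun j i => (R y i - 2 * VV g f y i) * g y i j * R y j)]
    have h1 : ∑ i, ∑ j, R y i * (g y i j * VV g f y j) = ∑ i, ∑ j, VV g f y i * (g y i j * R y j) := by
      rw [Finset.sum_comm]
      refine Finset.sum_congr rfl fun i _ => Finset.sum_congr rfl fun j _ => ?_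
      rw [hsymm y hy j i]
      ring
    have h2 : ∑ i, ∑ j, (VV g f y i - R y i) * (g y i j * (VV g f y j - R y j)) =
        ∑ i, ∑ j, VV g f y i * (g y i j * VV g f y j) - ∑ i, ∑ j, VV g f y i * (g y i j * R y j) -
        ∑ i, ∑ j, R y i * (g y i j * VV g f y j) + ∑ i, ∑ j, R y i * (g y i j * R y j) := by
      simp only [← Finset.sum_sub_distrib, ← Finset.sum_add_distrib]
      refine Finset.sum_congr rfl fun i _ => Finset.sum_congr rfl fun j _ => ?_
      ring
    have h3 : ∑ i, ∑ j, (R y i - 2 * VV g f y i) * g y i j * R y j =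
        ∑ i, ∑ j, R y i * (g y i j * R y j) - 2 * ∑ i, ∑ j, VV g f y i * (g y i j * R y j) := by
      simp only [Finset.mul_sum, ← Finset.sum_sub_distrib]
      refine Finset.sum_congr rfl fun i _ => Finset.sum_congr rfl fun j _ => ?_
      ring
    rw [h2, h3, h1]
    ring
  have hcd : ∀ j, HasFDerivAt (cc j) (fderiv ℝ (cc j) x) x := by
    intro j
    have : ContDiffAt ℝ ∞ (cc j) x := by
      apply ContDiffAt.sum
      intro i _
      exact ((hRs i).sub (contDiffAt_const.mul (hVs i))).mul (contDiffAt_entry hg hMx i j)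
    exact (this.differentiableAt (by simp)).hasFDerivAt
  have hmax : IsLocalMax (fun y => nsq g y (W y) - dens g y ^ 2) x := by
    filter_upwards [hNx] with y hy
    have h1 := hW1 y hy.1
    rw [hψ x hxN, hRx]
    simp only [Pi.zero_apply, mul_zero, Finset.sum_const_zero]
    linarith
  have hder : HasFDerivAt (fun y => nsq g y (W y) - dens g y ^ 2)
      (∑ j, (cc j x • fderiv ℝ (fun y => R y j) x + R x j • fderiv ℝ (cc j) x)) x := by
    have h1 : HasFDerivAt (fun y => ∑ j, cc j y * R y j)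
        (∑ j, (cc j x • fderiv ℝ (fun y => R y j) x + R x j • fderiv ℝ (cc j) x)) x :=
      HasFDerivAt.fun_sum fun j _ => (hcd j).mul (hRd j)
    apply h1.congr_of_eventuallyEq
    filter_upwards [hNx] with y hy
    exact hψ y hy
  have hder0 := hmax.hasFDerivAt_eq_zero hder
  have hcx : ∀ j, cc j x = -2 * (g x *ᵥ VV g f x) j := by
    intro j
    simp only [cc, hRx, Matrix.mulVec, dotProduct, Finset.mul_sum]
    refine Finset.sum_congr rfl fun i _ => ?_
    rw [hsymm x hxN i j]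
    simp
    ring
  have hsum : ∑ j, grad f x j * w j = 0 := by
    have h1 : (∑ j, cc j x * w j) • fderiv ℝ f x = 0 := by
      rw [← hder0, Finset.sum_smul]
      refine Finset.sum_congr rfl fun j _ => ?_
      rw [hw j, hRx]
      simp [smul_smul]
    have h2 : ∑ j, cc j x * w j = 0 := by
      rcases smul_eq_zero.1 h1 with h | h
      · exact h
      · exact absurd h (hf0 x hxU)
    have h3 : ∑ j, cc j x * w j = -2 * (dens g x * (√(grad f x ⬝ᵥ ((g x)⁻¹ *ᵥ grad f x)))⁻¹) *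
        ∑ j, grad f x j * w j := by
      rw [Finset.mul_sum]
      refine Finset.sum_congr rfl fun j _ => ?_
      rw [hcx j, g_mul_VV hg hMx]
      simp only [Pi.smul_apply, smul_eq_mul]
      ring
    rw [h3] at h2
    have h4 := dens_pos_mc hg hMx
    have h5 := Real.sqrt_pos.2 (gradq_pos hg hMx (hf0 x hxU))
    have h6 : -2 * (dens g x * (√(grad f x ⬝ᵥ ((g x)⁻¹ *ᵥ grad f x)))⁻¹) ≠ 0 := by
      have : 0 < dens g x * (√(grad f x ⬝ᵥ ((g x)⁻¹ *ᵥ grad f x)))⁻¹ := by positivity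
      intro h
      linarith
    exact (mul_eq_zero.1 h2).resolve_left h6
  have hdiv : dvg (fun y => dens g y • unitNormal g f y) x = dvg W x := by
    have h1 : ∀ i, fderiv ℝ (fun y => (dens g y • unitNormal g f y) i) x (Pi.single i 1) =
        fderiv ℝ (fun y => W y i) x (Pi.single i 1) + grad f x i * w i := by
      intro i
      have h2 : (fun y => (dens g y • unitNormal g f y) i) = fun y => W y i + R y i := by
        ext y
        simp [R, VV]
      have h3 : HasFDerivAt (fun y => W y i + R y i)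
          (fderiv ℝ (fun y => W y i) x + fderiv ℝ (fun y => R y i) x) x :=
        ((hWs i).differentiableAt (by simp)).hasFDerivAt.add (hRd i)
      rw [h2, h3.fderiv, hw i]
      simp [grad, mul_comm]
    unfold dvg
    simp only [h1]
    rw [Finset.sum_add_distrib, hsum, add_zero]
  unfold meanCurvature gdiv
  rw [hdiv]

end Pool.Agent.Lib.MP_89119d_gt
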