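import Pool.Agent.Lib.MP_89119d_gt.Ex
import Pool.Agent.Lib.MP_89119d_gt.Calib
import Pool.Agent.Lib.MP_89119d_gt.Integr
import Pool.Agent.Lib.MP_89119d_gt.MeanCurv

namespace Pool.Agent.Lib.MP_89119d_gt

open MeasureTheory Set Topology Filter
open scoped ENNReal ContDiff Matrix

variable {m : ℕ} {g : (J m → ℝ) → Matrix (J m) (J m) ℝ}

lemma continuous_cs : Continuous (cs : (J m → ℝ) → ℝ) := contDiff_cs.continuous

lemma isOpen_MM : IsOpen (MM m) := isOpen_lt continuous_cs continuous_const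

lemma cA_smul (c : ℝ) (v : J m → ℝ) : cA (c • v) = c ^ 2 * cA v := by
  simp only [cA, Pi.smul_apply, smul_eq_mul, mul_pow, Finset.mul_sum]

lemma cB_smul (c : ℝ) (v : J m → ℝ) : cB (c • v) = c ^ 2 * cB v := by
  simp only [cB, Pi.smul_apply, smul_eq_mul, mul_pow, Finset.mul_sum]

lemma isConnected_MM : IsConnected (MM m) := by
  have h0 : (0 : J m → ℝ) ∈ MM m := by simp [MM, cs, cA, cB]
  have hs : StarConvex ℝ (0 : J m → ℝ) (MM m) := by
    rw [starConvex_zero_iff]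
    intro x hx a ha0 ha1
    have hx' : cs x < 6 / 5 := hx
    have h1 : cs (a • x) = a ^ 2 * cs x := by
      simp only [cs, cA_smul, cB_smul]
      ring
    show cs (a • x) < 6 / 5
    rw [h1]
    have h2 := cs_nonneg x
    have h3 : a ^ 2 ≤ 1 := by nlinarith
    nlinarith
  exact (hs.isPathConnected h0).isConnected

lemma contDiffAt_FF {v : J m → ℝ} (hv : cs v ≠ 0) : ContDiffAt ℝ ∞ FF v := by
  unfold FF
  exact (contDiff_cA.contDiffAt.sub contDiff_cB.contDiffAt).add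
    (contDiff_cs.contDiffAt.mul (contDiff_cs.contDiffAt.sqrt hv))

lemma continuous_FF : Continuous (FF : (J m → ℝ) → ℝ) := by
  unfold FF
  exact (contDiff_cA.continuous.sub contDiff_cB.continuous).add
    (continuous_cs.mul continuous_cs.sqrt)

lemma hasFDerivAt_cA (v : J m → ℝ) : HasFDerivAt (cA : (J m → ℝ) → ℝ)
    (∑ i, (2 * v (Sum.inl i)) • ContinuousLinearMap.proj (R := ℝ) (φ := fun _ : J m => ℝ) (Sum.inl i)) v := by
  unfold cA
  apply HasFDerivAt.fun_sum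
  intro i _
  have h : HasFDerivAt (fun y : J m → ℝ => y (Sum.inl i))
    (ContinuousLinearMap.proj (R := ℝ) (φ := fun _ : J m => ℝ) (Sum.inl i)) v :=
    hasFDerivAt_apply (𝕜 := ℝ) (F' := fun _ : J m => ℝ) (Sum.inl i) v
  refine (h.pow 2).congr_fderiv ?_
  ext w
  simp

lemma hasFDerivAt_cB (v : J m → ℝ) : HasFDerivAt (cB : (J m → ℝ) → ℝ)
    (∑ i, (2 * v (Sum.inr (Sum.inl i))) •
      ContinuousLinearMap.proj (R := ℝ) (φ := fun _ : J m => ℝ) (Sum.inr (Sum.inl i))) v := by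
  unfold cB
  apply HasFDerivAt.fun_sum
  intro i _
  have h : HasFDerivAt (fun y : J m → ℝ => y (Sum.inr (Sum.inl i)))
    (ContinuousLinearMap.proj (R := ℝ) (φ := fun _ : J m => ℝ) (Sum.inr (Sum.inl i))) v :=
    hasFDerivAt_apply (𝕜 := ℝ) (F' := fun _ : J m => ℝ) (Sum.inr (Sum.inl i)) v
  refine (h.pow 2).congr_fderiv ?_
  ext w
  simp

lemma fderiv_FF {v : J m → ℝ} (hv : cs v ≠ 0) (X : J m → ℝ) :
    fderiv ℝ FF v X = (2 + 3 * √(cs v)) * ∑ i, v (Sum.inl i) * X (Sum.inl i) +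
      (3 * √(cs v) - 2) * ∑ j, v (Sum.inr (Sum.inl j)) * X (Sum.inr (Sum.inl j)) := by
  have hA := hasFDerivAt_cA v
  have hB := hasFDerivAt_cB v
  have hS : HasFDerivAt (cs : (J m → ℝ) → ℝ) _ v := hA.add hB
  have hF := (hA.sub hB).add (hS.mul (hS.sqrt hv))
  have hF' : HasFDerivAt (FF : (J m → ℝ) → ℝ) _ v := hF
  rw [hF'.fderiv]
  have hpos : 0 < √(cs v) := Real.sqrt_pos.2 (lt_of_le_of_ne (cs_nonneg v) (Ne.symm hv))
  have hsq : cs v = √(cs v) ^ 2 := (Real.sq_sqrt (cs_nonneg v)).symm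
  simp only [_root_.add_apply, _root_.sub_apply, _root_.smul_apply, _root_.sum_apply,
    ContinuousLinearMap.proj_apply, smul_eq_mul]
  have e1 : ∑ i, 2 * v (Sum.inl i) * X (Sum.inl i) = 2 * ∑ i, v (Sum.inl i) * X (Sum.inl i) := by
    rw [Finset.mul_sum]
    exact Finset.sum_congr rfl fun i _ => by ring
  have e2 : ∑ i, 2 * v (Sum.inr (Sum.inl i)) * X (Sum.inr (Sum.inl i)) =
      2 * ∑ i, v (Sum.inr (Sum.inl i)) * X (Sum.inr (Sum.inl i)) := by
    rw [Finset.mul_sum]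
    exact Finset.sum_congr rfl fun i _ => by ring
  rw [e1, e2]
  set a := ∑ i, v (Sum.inl i) * X (Sum.inl i)
  set b := ∑ i, v (Sum.inr (Sum.inl i)) * X (Sum.inr (Sum.inl i))
  have e3 : cs v * (1 / (2 * √(cs v)) * (2 * a + 2 * b)) = √(cs v) * (a + b) := by
    rw [hsq, Real.sqrt_sq hpos.le]
    field_simp
  rw [e3]
  ring

lemma fderiv_FF_ne_zero {v : J m → ℝ} (hv : cs v ≠ 0) (_hs : cs v < 6 / 5) (hF : FF v = 0) :
    fderiv ℝ FF v ≠ 0 := by
  intro h0
  have hpos : 0 < √(cs v) := Real.sqrt_pos.2 (lt_of_le_of_ne (cs_nonneg v) (Ne.symm hv))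
  have hsq : cs v = √(cs v) ^ 2 := (Real.sq_sqrt (cs_nonneg v)).symm
  set r := √(cs v) with hr
  let X : J m → ℝ := Sum.elim (fun i => (2 + 3 * r) * v (Sum.inl i))
    (Sum.elim (fun j => (3 * r - 2) * v (Sum.inr (Sum.inl j))) (fun _ => 0))
  have h1 := fderiv_FF hv X
  rw [h0] at h1
  have e1 : ∑ i, v (Sum.inl i) * X (Sum.inl i) = (2 + 3 * r) * cA v := by
    simp only [cA, Finset.mul_sum]
    refine Finset.sum_congr rfl fun i _ => ?_
    simp only [X, Sum.elim_inl]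
    ring
  have e2 : ∑ i, v (Sum.inr (Sum.inl i)) * X (Sum.inr (Sum.inl i)) = (3 * r - 2) * cB v := by
    simp only [cB, Finset.mul_sum]
    refine Finset.sum_congr rfl fun i _ => ?_
    simp only [X, Sum.elim_inl, Sum.elim_inr]
    ring
  rw [e1, e2, ← hr] at h1
  have h2 : (0 : ℝ) = (2 + 3 * r) ^ 2 * cA v + (3 * r - 2) ^ 2 * cB v := by
    have : (0 : (J m → ℝ) →L[ℝ] ℝ) X = 0 := rfl
    rw [this] at h1
    linarith
  have hA := cA_nonneg v
  have hB := cB_nonneg v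
  have h3 : 0 < (2 + 3 * r) ^ 2 := by positivity
  have hA0 : cA v = 0 := by
    have : 0 ≤ (3 * r - 2) ^ 2 * cB v := by positivity
    have h4 : (2 + 3 * r) ^ 2 * cA v ≤ 0 := by linarith
    nlinarith
  have hF' : cA v - cB v + cs v * r = 0 := hF
  have hB0 : cB v = r ^ 2 := by
    rw [← hsq, cs, hA0, zero_add]
  rw [hA0, hB0] at h2
  have h5 : 3 * r - 2 = 0 := by
    have : (3 * r - 2) ^ 2 * r ^ 2 = 0 := by linarith
    rcases mul_eq_zero.1 this with h | h
    · exact pow_eq_zero_iff two_ne_zero |>.1 h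
    · exact absurd (pow_eq_zero_iff two_ne_zero |>.1 h) hpos.ne'
  rw [hA0, hB0, hsq] at hF'
  have h6 : r = 2 / 3 := by linarith
  rw [h6] at hF'
  norm_num at hF'

lemma vol_pos_of_open (hg : IsRiemannianOn (MM m) g) {U : Set (J m → ℝ)} (hU : IsOpen U)
    (hne : U.Nonempty) (hUM : U ⊆ MM m) {E : Set (J m → ℝ)} (hUE : U ⊆ E) :
    0 < vol (MM m) g E := by
  rw [pos_iff_ne_zero]
  intro h0
  have h1 : vol (MM m) g U = 0 := by
    refine le_antisymm ?_ zero_le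
    rw [← h0]
    exact lintegral_mono_set (inter_subset_inter_left _ hUE)
  exact hne.ne_empty (volume_null_of_vol hg hUM hU h1)

/-- the point `v + a e_i + b e'_j` -/
noncomputable def pt (v : J m → ℝ) (i j : Fin m) (a b : ℝ) : J m → ℝ :=
  v + (a • Pi.single (Sum.inl i) (1 : ℝ) + b • Pi.single (Sum.inr (Sum.inl j)) (1 : ℝ))

lemma coord_of_cs {v : J m → ℝ} (hv : cs v = 0) :
    (∀ k, v (Sum.inl k) = 0) ∧ ∀ k, v (Sum.inr (Sum.inl k)) = 0 := by
  have hA := cA_nonneg v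
  have hB := cB_nonneg v
  have h : cA v + cB v = 0 := hv
  have h1 : cA v = 0 := by linarith
  have h2 : cB v = 0 := by linarith
  refine ⟨fun k => ?_, fun k => ?_⟩
  · exact pow_eq_zero_iff two_ne_zero |>.1 ((Finset.sum_eq_zero_iff_of_nonneg
      (fun k _ => sq_nonneg (v (Sum.inl k)))).1 h1 k (Finset.mem_univ k))
  · exact pow_eq_zero_iff two_ne_zero |>.1 ((Finset.sum_eq_zero_iff_of_nonneg
      (fun k _ => sq_nonneg (v (Sum.inr (Sum.inl k))))).1 h2 k (Finset.mem_univ k))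

lemma cA_pt {v : J m → ℝ} (hv : cs v = 0) (i j : Fin m) (a b : ℝ) : cA (pt v i j a b) = a ^ 2 := by
  simp only [cA, pt, Pi.add_apply, (coord_of_cs hv).1, zero_add, Pi.smul_apply, smul_eq_mul]
  rw [Finset.sum_eq_single i]
  · simp
  · intro k _ hk
    have : (Sum.inl k : J m) ≠ Sum.inl i := by simpa using hk
    simp [Pi.single_eq_of_ne this]
  · simp

lemma cB_pt {v : J m → ℝ} (hv : cs v = 0) (i j : Fin m) (a b : ℝ) : cB (pt v i j a b) = b ^ 2 := by
  simp only [cB, pt, Pi.add_apply, (coord_of_cs hv).2, zero_add, Pi.smul_apply, smul_eq_mul]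
  rw [Finset.sum_eq_single j]
  · simp
  · intro k _ hk
    have : (Sum.inr (Sum.inl k) : J m) ≠ Sum.inr (Sum.inl j) := by simpa using hk
    simp [Pi.single_eq_of_ne this]
  · simp

lemma FF_pt {v : J m → ℝ} (hv : cs v = 0) (i j : Fin m) (a b : ℝ) :
    FF (pt v i j a b) = a ^ 2 - b ^ 2 + (a ^ 2 + b ^ 2) * √(a ^ 2 + b ^ 2) := by
  simp only [FF, cs, cA_pt hv, cB_pt hv]

lemma continuous_pt (v : J m → ℝ) (i j : Fin m) : Continuous fun p : ℝ × ℝ => pt v i j p.1 p.2 := by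
  unfold pt
  fun_prop

lemma pt_zero (v : J m → ℝ) (i j : Fin m) : pt v i j 0 0 = v := by simp [pt]

/-- near a zero of `FF` both signs occur -/
lemma exists_pos_neg (hm : 1 ≤ m) {v : J m → ℝ} (hv : v ∈ MM m) (hF : FF v = 0)
    {U : Set (J m → ℝ)} (hU : IsOpen U) (hvU : v ∈ U) :
    (∃ y ∈ U, 0 < FF y) ∧ ∃ y ∈ U, FF y < 0 := by
  by_cases h0 : cs v = 0
  · let i : Fin m := ⟨0, hm⟩
    have hev : ∀ᶠ p : ℝ × ℝ in 𝓝 (0, 0), pt v i i p.1 p.2 ∈ U := by
      have := (continuous_pt v i i).continuousAt (x := ((0 : ℝ), (0 : ℝ)))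
      apply this
      simp only
      rw [pt_zero]
      exact hU.mem_nhds hvU
    obtain ⟨ε, hε, hε'⟩ := Metric.eventually_nhds_iff.1 hev
    let t : ℝ := min (ε / 2) (1 / 2)
    have ht0 : 0 < t := by positivity
    have ht1 : t < ε := (min_le_left _ _).trans_lt (by linarith)
    have ht2 : t < 1 := (min_le_right _ _).trans_lt (by norm_num)
    constructor
    · refine ⟨pt v i i t 0, hε' (y := (t, 0)) ?_, ?_⟩
      · simp [Prod.dist_eq, abs_of_pos ht0, ht1, hε]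
      · rw [FF_pt h0]
        have h1 : 0 < t ^ 2 := by positivity
        have h2 : 0 ≤ (t ^ 2 + 0 ^ 2) * √(t ^ 2 + 0 ^ 2) := by positivity
        linarith
    · refine ⟨pt v i i 0 t, hε' (y := (0, t)) ?_, ?_⟩
      · simp [Prod.dist_eq, abs_of_pos ht0, ht1, hε]
      · rw [FF_pt h0]
        simp only [ne_eq, OfNat.ofNat_ne_zero, not_false_eq_true, zero_pow, zero_sub, zero_add,
          Real.sqrt_sq ht0.le]
        nlinarith [pow_pos ht0 2]
  · have hne := fderiv_FF_ne_zero h0 hv hF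
    constructor
    · by_contra hcon
      push Not at hcon
      apply hne
      apply IsLocalMax.fderiv_eq_zero
      filter_upwards [hU.mem_nhds hvU] with y hy
      rw [hF]
      exact hcon y hy
    · by_contra hcon
      push Not at hcon
      apply hne
      apply IsLocalMin.fderiv_eq_zero
      filter_upwards [hU.mem_nhds hvU] with y hy
      rw [hF]
      exact hcon y hy

lemma mem_bdry_iff (hg : IsRiemannianOn (MM m) g) (hm : 1 ≤ m) {v : J m → ℝ} (hv : v ∈ MM m) :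
    v ∈ bdry (MM m) g (Om m) ↔ FF v = 0 := by
  have hvol0 : ∀ E : Set (J m → ℝ), E ∩ MM m = ∅ → vol (MM m) g E = 0 := by
    intro E hE
    rw [vol, hE]
    simp
  constructor
  · rintro ⟨-, h⟩
    by_contra hne
    rcases lt_or_gt_of_ne hne with hlt | hgt
    · have h1 := (h {y | FF y < 0} (isOpen_lt continuous_FF continuous_const) hlt).2
      apply h1.ne'
      apply hvol0
      rw [eq_empty_iff_forall_notMem]
      rintro y ⟨⟨hy1, hy2⟩, hyM⟩
      exact hy2 ⟨hyM, hy1⟩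
    · have h1 := (h {y | 0 < FF y} (isOpen_lt continuous_const continuous_FF) hgt).1
      apply h1.ne'
      apply hvol0
      rw [eq_empty_iff_forall_notMem]
      rintro y ⟨⟨hy1, -, hy2⟩, hyM⟩
      exact lt_asymm hy1 hy2
  · intro hF
    refine ⟨hv, fun U hU hvU => ?_⟩
    obtain ⟨⟨y, hy, hy'⟩, z, hz, hz'⟩ := exists_pos_neg hm hv hF (hU.inter isOpen_MM) ⟨hvU, hv⟩
    constructor
    · apply vol_pos_of_open hg (U := (U ∩ MM m) ∩ {y | FF y < 0})
        ((hU.inter isOpen_MM).inter (isOpen_lt continuous_FF continuous_const)) ⟨z, hz, hz'⟩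
      · rintro x ⟨⟨-, hx⟩, -⟩
        exact hx
      · rintro x ⟨⟨hx1, hx2⟩, hx3⟩
        exact ⟨hx1, hx2, hx3⟩
    · apply vol_pos_of_open hg (U := (U ∩ MM m) ∩ {y | 0 < FF y})
        ((hU.inter isOpen_MM).inter (isOpen_lt continuous_const continuous_FF)) ⟨y, hy, hy'⟩
      · rintro x ⟨⟨-, hx⟩, -⟩
        exact hx
      · rintro x ⟨⟨hx1, hx2⟩, hx3⟩
        exact ⟨hx1, fun hx => lt_asymm hx3 hx.2⟩

lemma mem_regularPart (hg : IsRiemannianOn (MM m) g) (hm : 1 ≤ m) {v : J m → ℝ} (hv : v ∈ MM m)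
    (h0 : cs v ≠ 0) (hF : FF v = 0) : v ∈ regularPart (MM m) g (Om m) := by
  have hev : ∀ᶠ y in 𝓝 v, y ∈ MM m ∧ cs y ≠ 0 ∧ fderiv ℝ FF y ≠ 0 := by
    refine (isOpen_MM.eventually_mem hv).and ((continuous_cs.continuousAt.eventually_ne h0).and ?_)
    have hc : ContinuousAt (fderiv ℝ FF) v :=
      ((contDiffAt_FF h0).fderiv_right (m := 0) (by norm_cast)).continuousAt
    exact hc.eventually_ne (fderiv_FF_ne_zero h0 hv hF)
  obtain ⟨U, hUs, hU, hvU⟩ := mem_nhds_iff.1 hev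
  refine ⟨(mem_bdry_iff hg hm hv).2 hF, U, FF, hU, hvU, fun y hy => (hUs hy).1,
    fun y hy => (contDiffAt_FF (hUs hy).2.1).contDiffWithinAt, fun y hy => (hUs hy).2.2, ?_⟩
  ext y
  constructor
  · rintro ⟨hy1, hy2⟩
    exact ⟨hy2, (mem_bdry_iff hg hm (hUs hy2).1).1 hy1⟩
  · rintro ⟨hy1, hy2⟩
    exact ⟨(mem_bdry_iff hg hm (hUs hy1).1).2 hy2, hy1⟩

/-- the curve in the cone through the singular point `v` -/
noncomputable def cu (v : J m → ℝ) (i j : Fin m) (σ τ r : ℝ) : J m → ℝ :=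
  pt v i j (σ * (r * √((1 - r) / 2))) (τ * (r * √((1 + r) / 2)))

lemma FF_cu {v : J m → ℝ} (hv : cs v = 0) (i j : Fin m) {σ τ r : ℝ} (hσ : σ ^ 2 = 1)
    (hτ : τ ^ 2 = 1) (hr0 : 0 ≤ r) (hr1 : r ≤ 1) : FF (cu v i j σ τ r) = 0 := by
  have h1 : (σ * (r * √((1 - r) / 2))) ^ 2 = r ^ 2 * ((1 - r) / 2) := by
    rw [mul_pow, mul_pow, hσ, one_mul, Real.sq_sqrt (by linarith)]
  have h2 : (τ * (r * √((1 + r) / 2))) ^ 2 = r ^ 2 * ((1 + r) / 2) := by
    rw [mul_pow, mul_pow, hτ, one_mul, Real.sq_sqrt (by linarith)]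
  rw [cu, FF_pt hv, h1, h2]
  have h3 : r ^ 2 * ((1 - r) / 2) + r ^ 2 * ((1 + r) / 2) = r ^ 2 := by ring
  rw [h3, Real.sqrt_sq hr0]
  ring

lemma hasDerivAt_cu (v : J m → ℝ) (i j : Fin m) (σ τ : ℝ) :
    HasDerivAt (cu v i j σ τ) ((σ * √(1 / 2)) • Pi.single (Sum.inl i) (1 : ℝ) +
      (τ * √(1 / 2)) • Pi.single (Sum.inr (Sum.inl j)) (1 : ℝ)) 0 := by
  have h1 : HasDerivAt (fun r : ℝ => σ * (r * √((1 - r) / 2))) (σ * √(1 / 2)) 0 := by
    have h := (((hasDerivAt_id' (0 : ℝ)).const_sub 1).div_const 2).sqrt (by norm_num)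
    have h' := ((hasDerivAt_id' (0 : ℝ)).fun_mul h).const_mul σ
    refine h'.congr_deriv ?_
    simp
  have h2 : HasDerivAt (fun r : ℝ => τ * (r * √((1 + r) / 2))) (τ * √(1 / 2)) 0 := by
    have h := (((hasDerivAt_id' (0 : ℝ)).const_add 1).div_const 2).sqrt (by norm_num)
    have h' := ((hasDerivAt_id' (0 : ℝ)).fun_mul h).const_mul τ
    refine h'.congr_deriv ?_
    simp
  exact ((h1.smul_const (Pi.single (Sum.inl i) (1 : ℝ) : J m → ℝ)).add
    (h2.smul_const (Pi.single (Sum.inr (Sum.inl j)) (1 : ℝ) : J m → ℝ))).const_add v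

lemma mem_singularSet (hg : IsRiemannianOn (MM m) g) (hm : 1 ≤ m) {v : J m → ℝ}
    (hv : cs v = 0) : v ∈ singularSet (MM m) g (Om m) := by
  have hvM : v ∈ MM m := by
    show cs v < 6 / 5
    rw [hv]
    norm_num
  have hFv : ∀ y : J m → ℝ, cs y = 0 → FF y = 0 := by
    intro y hy
    have hA := cA_nonneg y
    have hB := cB_nonneg y
    have h : cA y + cB y = 0 := hy
    have h1 : cA y = 0 := by linarith
    have h2 : cB y = 0 := by linarith
    simp [FF, h1, h2, hy]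
  refine ⟨(mem_bdry_iff hg hm hvM).2 (hFv v hv), ?_⟩
  rintro ⟨-, U, f, hU, hvU, hUM, hf, hdf, heq⟩
  have hz : ∀ y ∈ U, FF y = 0 → f y = 0 := by
    intro y hy hFy
    have : y ∈ bdry (MM m) g (Om m) ∩ U := ⟨(mem_bdry_iff hg hm (hUM hy)).2 hFy, hy⟩
    rw [heq] at this
    exact this.2
  apply hdf v hvU
  have hfd : HasFDerivAt f (fderiv ℝ f v) v :=
    ((hf.contDiffAt (hU.mem_nhds hvU)).differentiableAt (by simp)).hasFDerivAt
  set L := fderiv ℝ f v
  have hzdir : ∀ k : Fin 2, L (Pi.single (Sum.inr (Sum.inr k)) 1) = 0 := by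
    intro k
    let γ : ℝ → (J m → ℝ) := fun t => v + t • Pi.single (Sum.inr (Sum.inr k)) (1 : ℝ)
    have hγ : HasDerivAt γ (Pi.single (Sum.inr (Sum.inr k)) (1 : ℝ)) 0 := by
      have := ((hasDerivAt_id' (0 : ℝ)).smul_const
        (Pi.single (Sum.inr (Sum.inr k)) (1 : ℝ) : J m → ℝ)).const_add v
      rw [one_smul] at this
      exact this
    have hγ0 : γ 0 = v := by simp [γ]
    have hcs : ∀ t, cs (γ t) = 0 := by
      intro t
      have := coord_of_cs hv
      simp only [cs, cA, cB, γ, Pi.add_apply, Pi.smul_apply, smul_eq_mul, this.1, this.2]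
      simp
    have hd : HasDerivAt (f ∘ γ) (L (Pi.single (Sum.inr (Sum.inr k)) 1)) 0 := by
      apply HasFDerivAt.comp_hasDerivAt
      · rw [hγ0]
        exact hfd
      · exact hγ
    have hd0 : HasDerivAt (f ∘ γ) 0 0 := by
      apply (hasDerivAt_const (0 : ℝ) (0 : ℝ)).congr_of_eventuallyEq
      have : ∀ᶠ t in 𝓝 (0 : ℝ), γ t ∈ U := by
        apply hγ.continuousAt
        rw [hγ0]
        exact hU.mem_nhds hvU
      filter_upwards [this] with t ht
      exact hz _ ht (hFv _ (hcs t))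
    exact hd.unique hd0
  have hcone : ∀ i j : Fin m, ∀ σ τ : ℝ, σ ^ 2 = 1 → τ ^ 2 = 1 →
      σ * L (Pi.single (Sum.inl i) 1) + τ * L (Pi.single (Sum.inr (Sum.inl j)) 1) = 0 := by
    intro i j σ τ hσ hτ
    have hγ := hasDerivAt_cu v i j σ τ
    have hγ0 : cu v i j σ τ 0 = v := by simp [cu, pt_zero]
    have hd : HasDerivAt (f ∘ cu v i j σ τ) (L ((σ * √(1 / 2)) • Pi.single (Sum.inl i) (1 : ℝ) +
      (τ * √(1 / 2)) • Pi.single (Sum.inr (Sum.inl j)) (1 : ℝ))) 0 := by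
      apply HasFDerivAt.comp_hasDerivAt
      · rw [hγ0]
        exact hfd
      · exact hγ
    have hd0 : HasDerivWithinAt (f ∘ cu v i j σ τ) 0 (Ici 0) 0 := by
      apply (hasDerivWithinAt_const (0 : ℝ) (Ici 0) (0 : ℝ)).congr_of_eventuallyEq
      · have : ∀ᶠ t in 𝓝 (0 : ℝ), cu v i j σ τ t ∈ U := by
          apply hγ.continuousAt
          rw [hγ0]
          exact hU.mem_nhds hvU
        filter_upwards [this.filter_mono nhdsWithin_le_nhds, self_mem_nhdsWithin,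
          (eventually_le_nhds (show (0 : ℝ) < 1 by norm_num)).filter_mono nhdsWithin_le_nhds]
          with t ht ht0 ht1
        exact hz _ ht (FF_cu hv i j hσ hτ ht0 ht1)
      · simp only [Function.comp_apply, hγ0]
        exact hz _ hvU (hFv _ hv)
    have h1 := (uniqueDiffOn_Ici (0 : ℝ) 0 self_mem_Ici).eq_deriv _ hd.hasDerivWithinAt hd0
    rw [map_add, map_smul, map_smul, smul_eq_mul, smul_eq_mul] at h1
    have h2 : (0 : ℝ) < √(1 / 2) := by positivity
    have h3 : √(1 / 2) * (σ * L (Pi.single (Sum.inl i) 1) +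
      τ * L (Pi.single (Sum.inr (Sum.inl j)) 1)) = 0 := by linarith
    exact (mul_eq_zero.1 h3).resolve_left h2.ne'
  have hx : ∀ i : Fin m, L (Pi.single (Sum.inl i) 1) = 0 ∧
      L (Pi.single (Sum.inr (Sum.inl i)) 1) = 0 := by
    intro i
    have h1 := hcone i i 1 1 (by norm_num) (by norm_num)
    have h2 := hcone i i 1 (-1) (by norm_num) (by norm_num)
    constructor <;> linarith
  ext w
  rw [← sum_single_mul]
  have : ∀ i : J m, L (Pi.single i 1) = 0 := by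
    rintro (i | i | i)
    · exact (hx i).1
    · exact (hx i).2
    · exact hzdir i
  simp [this]

lemma exists_regular (hm : 1 ≤ m) : ∃ v ∈ MM m, cs v ≠ 0 ∧ FF v = 0 := by
  let i : Fin m := ⟨0, hm⟩
  have h0 : cs (0 : J m → ℝ) = 0 := by simp [cs, cA, cB]
  refine ⟨pt 0 i i 0 1, ?_, ?_, ?_⟩
  · show cs (pt 0 i i 0 1) < 6 / 5
    rw [cs, cA_pt h0, cB_pt h0]
    norm_num
  · rw [cs, cA_pt h0, cB_pt h0]
    norm_num
  · rw [FF_pt h0]
    norm_num

end Pool.Agent.Lib.MP_89119d_gt
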