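import Pool.Agent.Lib.MP_89119d_gt.Cut
import Pool.Agent.Lib.MP_89119d_gt.Metric
import Pool.Agent.Lib.MP_89119d_gt.Sing

namespace Pool.Agent.Lib.MP_89119d_gt

open MeasureTheory Set Topology Filter
open scoped ENNReal ContDiff Matrix

variable {m : ℕ}

/-- the singular set of the construction -/
def SS (m : ℕ) : Set (J m → ℝ) := {v | cs v = 0}

lemma MM_diff : MM m \ SS m = {v | 0 < cs v ∧ cs v < 6 / 5} := by
  ext v
  constructor
  · rintro ⟨h1, h2⟩
    exact ⟨lt_of_le_of_ne (cs_nonneg v) (Ne.symm h2), h1⟩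
  · rintro ⟨h1, h2⟩
    exact ⟨h2, h1.ne'⟩

lemma isOpen_MM_diff : IsOpen (MM m \ SS m) := by
  rw [MM_diff]
  exact (isOpen_lt continuous_const contDiff_cs.continuous).inter isOpen_MM

lemma volume_SS (hm : 1 ≤ m) : volume (SS m) = 0 := by
  have hsub : SS m ⊆ {v : J m → ℝ | v (Sum.inl (⟨0, hm⟩ : Fin m)) = 0} := by
    intro v hv
    have h1 := abs_inl_le v (⟨0, hm⟩ : Fin m)
    have h2 : cs v = 0 := hv
    rw [h2, Real.sqrt_zero] at h1
    exact abs_nonpos_iff.mp h1
  apply measure_mono_null hsub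
  rw [volume_pi]
  exact Measure.pi_hyperplane _ _ _

lemma isRiemannianOn_gg (hm : 10000000 ≤ m) {h : ℝ} (hh : 0 < h) :
    IsRiemannianOn (MM m) (gg m h) :=
  isRiemannianOn_Gm isOpen_MM (contDiffOn_qq h) contDiffOn_PP contDiff_wt_comp.contDiffOn
    (fun _ hv => qq_pos hm hh hv) (fun _ hv => PP_pos hv) (fun v _ => wt_pos (cZ_nonneg v))

lemma dens_gg (hm : 10000000 ≤ m) {h : ℝ} (hh : 0 < h) {v : J m → ℝ} (hv : cs v < 6 / 5) :
    dens (gg m h) v = qq h v * wt (cZ v) :=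
  dens_Gm (by omega) (qq_pos hm hh hv) (PP_pos hv) (wt_pos (cZ_nonneg v))

lemma norm_fderiv_cut1_le {C₀ : ℝ} (hC₀ : ∀ t, deriv Real.smoothTransition t ≤ C₀) (N : ℝ)
    {v : J m → ℝ} (hs : 0 < cs v) : ‖fderiv ℝ (cut1 N) v‖ ≤ C₀ * (8 * m / √(cs v)) := by
  rw [fderiv_cut1, norm_smul, Real.norm_eq_abs]
  have hd := deriv_step_nonneg (N ^ 2 * cs v - 1)
  have hC : 0 ≤ C₀ := hd.trans (hC₀ _)
  have hr : 0 < √(cs v) := Real.sqrt_pos.mpr hs
  have hn := norm_fderiv_cs_le v
  rcases lt_or_ge 1 (N ^ 2 * cs v - 1) with h | h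
  · rw [deriv_step_of_one_lt h, zero_mul, abs_zero, zero_mul]
    positivity
  · have hN : N ^ 2 ≤ 2 / cs v := by
      rw [le_div_iff₀ hs]; linarith
    rw [abs_of_nonneg (mul_nonneg hd (sq_nonneg _))]
    calc deriv Real.smoothTransition (N ^ 2 * cs v - 1) * N ^ 2 * ‖fderiv ℝ cs v‖
        ≤ C₀ * (2 / cs v) * (4 * m * √(cs v)) := by
          apply mul_le_mul _ hn (norm_nonneg _) (by positivity)
          exact mul_le_mul (hC₀ _) hN (sq_nonneg _) hC
      _ = C₀ * (8 * m / √(cs v)) := by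
          have h1 : cs v = √(cs v) * √(cs v) := (Real.mul_self_sqrt hs.le).symm
          have h2 : C₀ * (2 / cs v) * (4 * m * √(cs v)) =
              C₀ * (8 * m * (√(cs v) / cs v)) := by ring
          rw [h2]
          have h3 : √(cs v) / cs v = 1 / √(cs v) := by
            rw [div_eq_div_iff hs.ne' hr.ne', one_mul, ← h1]
          rw [h3]
          ring

lemma norm_fderiv_cut2_le {C₀ : ℝ} (hC₀ : ∀ t, deriv Real.smoothTransition t ≤ C₀) {N : ℝ}
    (hN : 0 < N) {v : J m → ℝ} (hs' : cs v < 6 / 5) :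
    ‖fderiv ℝ (cut2 N) v‖ ≤ C₀ * (2 / xi (cs v)) * |deriv xi (cs v)| * ‖fderiv ℝ cs v‖ := by
  rw [fderiv_cut2, norm_smul, Real.norm_eq_abs]
  have hd := deriv_step_nonneg (N * xi (cs v) - 1)
  have hC : 0 ≤ C₀ := hd.trans (hC₀ _)
  have hx := xi_pos hs'
  apply mul_le_mul_of_nonneg_right _ (norm_nonneg _)
  rw [abs_mul, abs_mul, abs_of_nonneg hd, abs_of_pos hN]
  rcases lt_or_ge 1 (N * xi (cs v) - 1) with h | h
  · rw [deriv_step_of_one_lt h, zero_mul]
    positivity
  · have hN' : N ≤ 2 / xi (cs v) := by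
      rw [le_div_iff₀ hx]; linarith
    rw [← mul_assoc]
    apply mul_le_mul_of_nonneg_right _ (abs_nonneg _)
    exact mul_le_mul (hC₀ _) hN' hN.le hC

lemma norm_fderiv_cut3_le {C₀ : ℝ} (hC₀ : ∀ t, deriv Real.smoothTransition t ≤ C₀) {N : ℝ}
    (hN : 1 ≤ N) (v : J m → ℝ) : ‖fderiv ℝ (cut3 N) v‖ ≤ C₀ * ‖fderiv ℝ cZ v‖ := by
  rw [fderiv_cut3, norm_smul, Real.norm_eq_abs]
  have hd := deriv_step_nonneg (2 - cZ v / N)
  have hC : 0 ≤ C₀ := hd.trans (hC₀ _)
  apply mul_le_mul_of_nonneg_right _ (norm_nonneg _)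
  rw [abs_mul, abs_of_nonneg hd, abs_neg, abs_of_pos (by positivity)]
  calc deriv Real.smoothTransition (2 - cZ v / N) * N⁻¹ ≤ C₀ * 1 :=
        mul_le_mul (hC₀ _) (inv_le_one_of_one_le₀ hN) (by positivity) hC
    _ = C₀ := mul_one _

lemma norm_fderiv_et_le (j : ℕ) (v : J m → ℝ) :
    ‖fderiv ℝ (et j) v‖ ≤ ‖fderiv ℝ (cut1 ((j : ℝ) + 2)) v‖ +
      ‖fderiv ℝ (cut2 ((j : ℝ) + 2)) v‖ + ‖fderiv ℝ (cut3 ((j : ℝ) + 2)) v‖ := by
  rw [fderiv_et]
  have h1 := cut1_mem ((j : ℝ) + 2) v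
  have h2 := cut2_mem ((j : ℝ) + 2) v
  have h3 := cut3_mem ((j : ℝ) + 2) v
  have key : ∀ (a : ℝ) (L : (J m → ℝ) →L[ℝ] ℝ), 0 ≤ a → a ≤ 1 → ‖a • L‖ ≤ ‖L‖ := by
    intro a L ha ha'
    rw [norm_smul, Real.norm_eq_abs, abs_of_nonneg ha]
    exact mul_le_of_le_one_left (norm_nonneg _) ha'
  calc _ ≤ ‖(cut1 ((j : ℝ) + 2) v * cut2 ((j : ℝ) + 2) v) • fderiv ℝ (cut3 ((j : ℝ) + 2)) v‖ +
        ‖cut3 ((j : ℝ) + 2) v • (cut1 ((j : ℝ) + 2) v • fderiv ℝ (cut2 ((j : ℝ) + 2)) v +
        cut2 ((j : ℝ) + 2) v • fderiv ℝ (cut1 ((j : ℝ) + 2)) v)‖ := norm_add_le _ _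
    _ ≤ ‖fderiv ℝ (cut3 ((j : ℝ) + 2)) v‖ + ‖cut1 ((j : ℝ) + 2) v •
        fderiv ℝ (cut2 ((j : ℝ) + 2)) v +
        cut2 ((j : ℝ) + 2) v • fderiv ℝ (cut1 ((j : ℝ) + 2)) v‖ := by
        apply add_le_add
        · exact key _ _ (mul_nonneg h1.1 h2.1) (mul_le_one₀ h1.2 h2.1 h2.2)
        · exact key _ _ h3.1 h3.2
    _ ≤ ‖fderiv ℝ (cut3 ((j : ℝ) + 2)) v‖ + (‖fderiv ℝ (cut2 ((j : ℝ) + 2)) v‖ +
        ‖fderiv ℝ (cut1 ((j : ℝ) + 2)) v‖) := by
        gcongr
        refine (norm_add_le _ _).trans (add_le_add ?_ ?_)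
        · exact key _ _ h1.1 h1.2
        · exact key _ _ h2.1 h2.2
    _ = _ := by ring

lemma ae_restrict_MM_diff (hm : 1 ≤ m) {E : Set (J m → ℝ)} (hE : MeasurableSet E)
    (hEM : E ⊆ MM m) : ∀ᵐ x ∂(volume.restrict E), x ∈ MM m \ SS m := by
  have h1 : ∀ᵐ x ∂(volume.restrict E), x ∈ E := ae_restrict_mem hE
  have h2 : ∀ᵐ x ∂(volume.restrict E), x ∉ SS m :=
    ae_restrict_of_ae (measure_eq_zero_iff_ae_notMem.mp (volume_SS hm))
  filter_upwards [h1, h2] with x hx1 hx2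
  exact ⟨hEM hx1, hx2⟩

/-- first cutoff estimate -/
lemma tendsto_cutK (hm : 1 ≤ m) {K : Set (J m → ℝ)} (hK : IsCompact K) (hKM : K ⊆ MM m) :
    Tendsto (fun j => ∫ x in K, ‖fderiv ℝ (et j) x‖) atTop (𝓝 0) := by
  obtain ⟨C₀, hC0, hC₀⟩ := exists_bound_step
  -- bounds on K
  have hxi : ∃ c > 0, ∀ v ∈ K, c ≤ xi (cs v) := by
    rcases K.eq_empty_or_nonempty with h | h
    · exact ⟨1, one_pos, by simp [h]⟩
    · obtain ⟨v, hv, hmin⟩ := hK.exists_isMinOn h
        (f := fun v => xi (cs v)) ((contDiff_xi (n := 1)).continuous.comp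
          contDiff_cs.continuous).continuousOn
      exact ⟨xi (cs v), xi_pos (hKM hv), fun w hw => hmin hw⟩
  have hwt : ∃ c > 0, ∀ v ∈ K, c ≤ wt (cZ v) := by
    rcases K.eq_empty_or_nonempty with h | h
    · exact ⟨1, one_pos, by simp [h]⟩
    · obtain ⟨v, hv, hmin⟩ := hK.exists_isMinOn h
        (f := fun v => wt (cZ v)) contDiff_wt_comp.continuous.continuousOn
      exact ⟨wt (cZ v), wt_pos (cZ_nonneg v), fun w hw => hmin hw⟩
  obtain ⟨c1, hc1, hc1'⟩ := hxi
  obtain ⟨c2, hc2, hc2'⟩ := hwt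
  obtain ⟨B1, hB1⟩ := hK.exists_bound_of_continuousOn (f := fun v => deriv xi (cs v))
    (((contDiff_xi (n := 1)).continuous_deriv le_rfl).comp contDiff_cs.continuous).continuousOn
  obtain ⟨B2, hB2⟩ := hK.exists_bound_of_continuousOn (f := fun v => fderiv ℝ (cs (m := m)) v)
    (contDiff_cs.continuous_fderiv (by simp)).continuousOn
  obtain ⟨B3, hB3⟩ := hK.exists_bound_of_continuousOn (f := fun v => fderiv ℝ (cZ (m := m)) v)
    (contDiff_cZ.continuous_fderiv (by simp)).continuousOn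
  have hlim : Tendsto (fun j => ∫ x in K, ‖fderiv ℝ (et j) x‖) atTop (𝓝 (∫ x in K, (0 : ℝ))) := by
    apply tendsto_integral_of_dominated_convergence
      (fun v => C₀ * (8 * m) / c2 * (wt (cZ v) / √(cs v)) + (C₀ * (2 / c1) * |B1| * |B2| + C₀ * |B3|))
    · intro j
      exact ((contDiff_et j).continuous_fderiv (by simp)).norm.aestronglyMeasurable
    · apply Integrable.add
      · have h1 : IntegrableOn (fun v : J m → ℝ => wt (cZ v) / √(cs v)) K :=
          (integrableOn_wt_div hm (6 / 5)).mono_set hKM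
        exact h1.const_mul _
      · exact integrableOn_const hK.measure_lt_top.ne
    · intro j
      have hmem : ∀ᵐ x ∂(volume.restrict K), x ∈ K := ae_restrict_mem hK.measurableSet
      filter_upwards [ae_restrict_MM_diff hm hK.measurableSet hKM, hmem] with v hv hvK
      rw [norm_norm]
      rw [MM_diff] at hv
      have hN := natN_pos j
      have e1 := norm_fderiv_cut1_le hC₀ ((j : ℝ) + 2) hv.1
      have e2 := norm_fderiv_cut2_le hC₀ hN hv.2
      have e3 := norm_fderiv_cut3_le hC₀ (N := (j : ℝ) + 2)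
        (by have : (0 : ℝ) ≤ j := Nat.cast_nonneg j
            linarith) v
      have f1 : C₀ * (8 * m / √(cs v)) ≤ C₀ * (8 * m) / c2 * (wt (cZ v) / √(cs v)) := by
        have hr : 0 < √(cs v) := Real.sqrt_pos.mpr hv.1
        have hw1 : 1 ≤ wt (cZ v) / c2 := by
          rw [le_div_iff₀ hc2, one_mul]; exact hc2' v hvK
        calc C₀ * (8 * m / √(cs v)) = C₀ * (8 * m / √(cs v)) * 1 := by ring
          _ ≤ C₀ * (8 * m / √(cs v)) * (wt (cZ v) / c2) :=
              mul_le_mul_of_nonneg_left hw1 (by positivity)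
          _ = C₀ * (8 * m) / c2 * (wt (cZ v) / √(cs v)) := by ring
      have f2 : C₀ * (2 / xi (cs v)) * |deriv xi (cs v)| * ‖fderiv ℝ cs v‖ ≤
          C₀ * (2 / c1) * |B1| * |B2| := by
        have g1 : 2 / xi (cs v) ≤ 2 / c1 :=
          div_le_div_of_nonneg_left (by norm_num) hc1 (hc1' v hvK)
        have g2 : |deriv xi (cs v)| ≤ |B1| := (hB1 v hvK).trans (le_abs_self _)
        have g3 : ‖fderiv ℝ cs v‖ ≤ |B2| := (hB2 v hvK).trans (le_abs_self _)
        have hx := xi_pos hv.2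
        gcongr
      have f3 : C₀ * ‖fderiv ℝ cZ v‖ ≤ C₀ * |B3| :=
        mul_le_mul_of_nonneg_left ((hB3 v hvK).trans (le_abs_self _)) hC0
      have := norm_fderiv_et_le j v
      linarith
    · filter_upwards [ae_restrict_MM_diff hm hK.measurableSet hKM] with v hv
      rw [MM_diff] at hv
      apply tendsto_const_nhds.congr'
      filter_upwards [eventually_fderiv_et hv.1 hv.2] with j hj
      rw [hj, norm_zero]
  simpa using hlim

/-- pointwise bound of the flux of the calibration through the cutoffs -/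
lemma abs_fderiv_et_Wf_le {C₀ : ℝ} (hC0 : 0 ≤ C₀)
    (hC₀ : ∀ t, deriv Real.smoothTransition t ≤ C₀) (hm : 10000000 ≤ m) {h : ℝ} (hh : 0 < h)
    (j : ℕ) {v : J m → ℝ} (hs : 0 < cs v) (hs' : cs v < 6 / 5) :
    |fderiv ℝ (et j) v (Wf v)| ≤ 400 * C₀ * (wt (cZ v) / √(cs v)) +
      2 * C₀ * h * (qq h v * wt (cZ v)) := by
  have hN := natN_pos j
  have h1 := cut1_mem ((j : ℝ) + 2) v
  have h2 := cut2_mem ((j : ℝ) + 2) v
  have h3 := cut3_mem ((j : ℝ) + 2) v
  have hw := wt_pos (cZ_nonneg v)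
  have hp := par_v hs
  have hr0 := hp.r0
  have hr2 := sqrt_sq_lt hs'
  have hx := xi_pos hs'
  have hq := qq_pos hm hh hs'
  -- the z part vanishes
  have e3 : fderiv ℝ (cut3 ((j : ℝ) + 2)) v (Wf v) = 0 := by
    rw [fderiv_cut3]
    simp only [_root_.smul_apply, fderiv_cZ_Wf, smul_zero]
  have key : |fderiv ℝ (et j) v (Wf v)| ≤ |fderiv ℝ (cut1 ((j : ℝ) + 2)) v (Wf v)| +
      |fderiv ℝ (cut2 ((j : ℝ) + 2)) v (Wf v)| := by
    rw [fderiv_et]
    simp only [_root_.add_apply, _root_.smul_apply, smul_eq_mul, e3, mul_zero, zero_add]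
    rw [abs_mul, abs_of_nonneg h3.1]
    have hle : ∀ a x : ℝ, 0 ≤ a → a ≤ 1 → |a * x| ≤ |x| := by
      intro a x ha ha'
      rw [abs_mul, abs_of_nonneg ha]
      exact mul_le_of_le_one_left (abs_nonneg _) ha'
    calc cut3 ((j : ℝ) + 2) v * |cut1 ((j : ℝ) + 2) v * fderiv ℝ (cut2 ((j : ℝ) + 2)) v (Wf v) +
          cut2 ((j : ℝ) + 2) v * fderiv ℝ (cut1 ((j : ℝ) + 2)) v (Wf v)|
        ≤ |cut1 ((j : ℝ) + 2) v * fderiv ℝ (cut2 ((j : ℝ) + 2)) v (Wf v) +
          cut2 ((j : ℝ) + 2) v * fderiv ℝ (cut1 ((j : ℝ) + 2)) v (Wf v)| :=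
          mul_le_of_le_one_left (abs_nonneg _) h3.2
      _ ≤ |cut1 ((j : ℝ) + 2) v * fderiv ℝ (cut2 ((j : ℝ) + 2)) v (Wf v)| +
          |cut2 ((j : ℝ) + 2) v * fderiv ℝ (cut1 ((j : ℝ) + 2)) v (Wf v)| := abs_add_le _ _
      _ ≤ |fderiv ℝ (cut2 ((j : ℝ) + 2)) v (Wf v)| +
          |fderiv ℝ (cut1 ((j : ℝ) + 2)) v (Wf v)| :=
          add_le_add (hle _ _ h1.1 h1.2) (hle _ _ h2.1 h2.2)
      _ = _ := add_comm _ _
  have b1 : |fderiv ℝ (cut1 ((j : ℝ) + 2)) v (Wf v)| ≤ 400 * C₀ * (wt (cZ v) / √(cs v)) := by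
    rw [fderiv_cut1]
    simp only [_root_.smul_apply, smul_eq_mul]
    rw [fderiv_cs_Wf hs hs']
    rcases lt_or_ge 1 (((j : ℝ) + 2) ^ 2 * cs v - 1) with hc | hc
    · rw [deriv_step_of_one_lt hc]
      simp only [zero_mul, abs_zero]
      positivity
    · have hN2 : ((j : ℝ) + 2) ^ 2 ≤ 2 / cs v := by
        rw [le_div_iff₀ hs]; linarith
      have hs1 : cs v ≤ 1 := by
        have h4 : (4 : ℝ) ≤ ((j : ℝ) + 2) ^ 2 := by
          have : (0 : ℝ) ≤ j := Nat.cast_nonneg j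
          nlinarith
        nlinarith
      rw [om_eq_one hs1]
      have hd := deriv_step_nonneg (((j : ℝ) + 2) ^ 2 * cs v - 1)
      have he := abs_e0_le hr0.le hr2 hp.u1
      rw [abs_mul, abs_of_nonneg (mul_nonneg hd (sq_nonneg _)), abs_mul, abs_two, abs_mul,
        mul_one, abs_of_pos hw]
      calc deriv Real.smoothTransition (((j : ℝ) + 2) ^ 2 * cs v - 1) * ((j : ℝ) + 2) ^ 2 *
            (2 * (wt (cZ v) * |e0 √(cs v) (cuv v)|))
          ≤ C₀ * (2 / cs v) * (2 * (wt (cZ v) * (100 * √(cs v)))) := by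
            apply mul_le_mul _ _ (by positivity) (by positivity)
            · exact mul_le_mul (hC₀ _) hN2 (sq_nonneg _) hC0
            · apply mul_le_mul_of_nonneg_left _ (by norm_num)
              exact mul_le_mul_of_nonneg_left he hw.le
        _ = 400 * C₀ * wt (cZ v) * (√(cs v) / cs v) := by ring
        _ = 400 * C₀ * (wt (cZ v) / √(cs v)) := by
            have h1 : cs v = √(cs v) * √(cs v) := (Real.mul_self_sqrt hs.le).symm
            have h3 : √(cs v) / cs v = 1 / √(cs v) := by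
              rw [div_eq_div_iff hs.ne' hr0.ne', one_mul, ← h1]
            rw [h3]
            ring
  have b2 : |fderiv ℝ (cut2 ((j : ℝ) + 2)) v (Wf v)| ≤ 2 * C₀ * h * (qq h v * wt (cZ v)) := by
    rw [fderiv_cut2]
    simp only [_root_.smul_apply, smul_eq_mul]
    rw [fderiv_cs_Wf hs hs']
    rcases lt_or_ge (cs v) 1 with hs1 | hs1
    · rw [deriv_xi_of_lt_one hs1]
      simp only [mul_zero, zero_mul, abs_zero]
      positivity
    · have he : 1 / 1000 ≤ e0 √(cs v) (cuv v) :=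
        e0_ge (by rw [Real.one_le_sqrt]; exact hs1) hr2 hp.u1
      have he0 : 0 < e0 √(cs v) (cuv v) := by linarith
      have hd := deriv_step_nonneg (((j : ℝ) + 2) * xi (cs v) - 1)
      have hdx := deriv_xi_nonpos (cs v)
      have hom := om_pos hs'
      -- the divergence dominates
      have hdv : 2 * (wt (cZ v) * (omd (cs v) * e0 √(cs v) (cuv v))) ≤ h * (qq h v * wt (cZ v)) := by
        rw [← dvg_Wf_eq_of_ge hh (by linarith) hs', dvg_Wf' hs hs']
        unfold dWt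
        have hd0 : 0 < d0 m √(cs v) (cuv v) := by
          apply d0_pos (by exact_mod_cast hm) _ hr2 hp.u1
          apply Real.le_sqrt_of_sq_le
          linarith
        have : 0 ≤ wt (cZ v) * (om (cs v) * d0 m √(cs v) (cuv v)) := by positivity
        linarith
      have hstep : deriv Real.smoothTransition (((j : ℝ) + 2) * xi (cs v) - 1) *
          ((j : ℝ) + 2) ≤ C₀ * (2 / xi (cs v)) := by
        rcases lt_or_ge 1 (((j : ℝ) + 2) * xi (cs v) - 1) with hc | hc
        · rw [deriv_step_of_one_lt hc, zero_mul]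
          positivity
        · have hN' : (j : ℝ) + 2 ≤ 2 / xi (cs v) := by
            rw [le_div_iff₀ hx]; linarith
          exact mul_le_mul (hC₀ _) hN' hN.le hC0
      have habs : |deriv Real.smoothTransition (((j : ℝ) + 2) * xi (cs v) - 1) *
          (((j : ℝ) + 2) * deriv xi (cs v)) * (2 * (wt (cZ v) * om (cs v) *
          e0 √(cs v) (cuv v)))| = (deriv Real.smoothTransition (((j : ℝ) + 2) * xi (cs v) - 1) *
          ((j : ℝ) + 2)) * ((-deriv xi (cs v)) * (2 * (wt (cZ v) * om (cs v) *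
          e0 √(cs v) (cuv v)))) := by
        have : deriv Real.smoothTransition (((j : ℝ) + 2) * xi (cs v) - 1) *
          (((j : ℝ) + 2) * deriv xi (cs v)) * (2 * (wt (cZ v) * om (cs v) *
          e0 √(cs v) (cuv v))) = -((deriv Real.smoothTransition (((j : ℝ) + 2) * xi (cs v) - 1) *
          ((j : ℝ) + 2)) * ((-deriv xi (cs v)) * (2 * (wt (cZ v) * om (cs v) *
          e0 √(cs v) (cuv v))))) := by ring
        rw [this, abs_neg, abs_of_nonneg]
        have : 0 ≤ -deriv xi (cs v) := by linarith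
        positivity
      rw [habs]
      have hnn : 0 ≤ (-deriv xi (cs v)) * (2 * (wt (cZ v) * om (cs v) * e0 √(cs v) (cuv v))) := by
        have : 0 ≤ -deriv xi (cs v) := by linarith
        positivity
      calc (deriv Real.smoothTransition (((j : ℝ) + 2) * xi (cs v) - 1) *
          ((j : ℝ) + 2)) * ((-deriv xi (cs v)) * (2 * (wt (cZ v) * om (cs v) *
          e0 √(cs v) (cuv v))))
          ≤ C₀ * (2 / xi (cs v)) * ((-deriv xi (cs v)) * (2 * (wt (cZ v) * om (cs v) *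
          e0 √(cs v) (cuv v)))) := mul_le_mul_of_nonneg_right hstep hnn
        _ = 2 * C₀ * (2 * (wt (cZ v) * (omd (cs v) * e0 √(cs v) (cuv v)))) := by
            unfold omd om
            field_simp
        _ ≤ 2 * C₀ * (h * (qq h v * wt (cZ v))) := by
            apply mul_le_mul_of_nonneg_left hdv
            positivity
        _ = 2 * C₀ * h * (qq h v * wt (cZ v)) := by ring
  linarith

lemma integrableOn_qqw (hm : 10000000 ≤ m) {h : ℝ} (hh : 0 < h) {E : Set (J m → ℝ)}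
    (hE : MeasurableSet E) (hEM : E ⊆ MM m) (hvol : vol (MM m) (gg m h) E < ⊤) :
    IntegrableOn (fun v => qq h v * wt (cZ v)) E := by
  have h1 := CalibData.integrableOn_dens (isRiemannianOn_gg hm hh) hE hEM hvol
  apply h1.congr_fun _ hE
  intro v hv
  exact dens_gg hm hh (hEM hv)

/-- second cutoff estimate -/
lemma tendsto_cutE (hm : 10000000 ≤ m) {h : ℝ} (hh : 0 < h) {E : Set (J m → ℝ)}
    (hE : MeasurableSet E) (hEM : E ⊆ MM m) (hvol : vol (MM m) (gg m h) E < ⊤) :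
    Tendsto (fun j => ∫ x in E, |fderiv ℝ (et j) x (Wf x)|) atTop (𝓝 0) := by
  obtain ⟨C₀, hC0, hC₀⟩ := exists_bound_step
  have hm1 : 1 ≤ m := by omega
  have hEeq : volume.restrict E = volume.restrict (E ∩ (MM m \ SS m)) := by
    apply Measure.restrict_congr_set
    have h2 : ∀ᵐ x ∂(volume : Measure (J m → ℝ)), x ∉ SS m :=
      measure_eq_zero_iff_ae_notMem.mp (volume_SS hm1)
    filter_upwards [h2] with x hx
    exact propext ⟨fun h => ⟨h, hEM h, hx⟩, fun h => h.1⟩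
  have hlim : Tendsto (fun j => ∫ x in E, |fderiv ℝ (et j) x (Wf x)|) atTop
      (𝓝 (∫ x in E, (0 : ℝ))) := by
    apply tendsto_integral_of_dominated_convergence
      (fun v => 400 * C₀ * (wt (cZ v) / √(cs v)) + 2 * C₀ * h * (qq h v * wt (cZ v)))
    · intro j
      rw [hEeq]
      apply AEStronglyMeasurable.mono_measure _ (Measure.restrict_mono inter_subset_right le_rfl)
      apply ContinuousOn.aestronglyMeasurable _ isOpen_MM_diff.measurableSet
      apply ContinuousOn.abs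
      apply ContinuousOn.clm_apply
      · exact ((contDiff_et j).continuous_fderiv (by simp)).continuousOn
      · intro v hv
        rw [MM_diff] at hv
        exact (contDiffAt_Wf hv.1 hv.2).continuousAt.continuousWithinAt
    · apply Integrable.add
      · exact (((integrableOn_wt_div hm1 (6 / 5)).mono_set hEM).const_mul _)
      · exact (integrableOn_qqw hm hh hE hEM hvol).const_mul _
    · intro j
      filter_upwards [ae_restrict_MM_diff hm1 hE hEM] with v hv
      rw [MM_diff] at hv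
      rw [Real.norm_eq_abs, abs_abs]
      exact abs_fderiv_et_Wf_le hC0 hC₀ hm hh j hv.1 hv.2
    · filter_upwards [ae_restrict_MM_diff hm1 hE hEM] with v hv
      rw [MM_diff] at hv
      apply tendsto_const_nhds.congr'
      filter_upwards [eventually_fderiv_et hv.1 hv.2] with j hj
      rw [hj]
      simp
  simpa using hlim

/-- integrability of the divergence -/
lemma integrableOn_dvg_Wf (hm : 10000000 ≤ m) {h : ℝ} (hh : 0 < h) {E : Set (J m → ℝ)}
    (hE : MeasurableSet E) (hEM : E ⊆ MM m) (hvol : vol (MM m) (gg m h) E < ⊤) :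
    IntegrableOn (dvg Wf) E := by
  have hm1 : 1 ≤ m := by omega
  have hEeq : volume.restrict E = volume.restrict (E ∩ (MM m \ SS m)) := by
    apply Measure.restrict_congr_set
    have h2 : ∀ᵐ x ∂(volume : Measure (J m → ℝ)), x ∉ SS m :=
      measure_eq_zero_iff_ae_notMem.mp (volume_SS hm1)
    filter_upwards [h2] with x hx
    exact propext ⟨fun h => ⟨h, hEM h, hx⟩, fun h => h.1⟩
  have hdom : Integrable (fun v => 50000 * m * (wt (cZ v) / √(cs v)) +
      h * (qq h v * wt (cZ v))) (volume.restrict E) := by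
    apply Integrable.add
    · exact (((integrableOn_wt_div hm1 (6 / 5)).mono_set hEM).const_mul _)
    · exact (integrableOn_qqw hm hh hE hEM hvol).const_mul _
  apply Integrable.mono' hdom
  · rw [hEeq]
    apply AEStronglyMeasurable.mono_measure _ (Measure.restrict_mono inter_subset_right le_rfl)
    apply ContinuousOn.aestronglyMeasurable _ isOpen_MM_diff.measurableSet
    intro v hv
    rw [MM_diff] at hv
    exact (contDiffAt_dvg_Wf hv.1 hv.2).continuousAt.continuousWithinAt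
  · filter_upwards [ae_restrict_MM_diff hm1 hE hEM] with v hv
    rw [MM_diff] at hv
    rw [Real.norm_eq_abs]
    have hw := wt_pos (cZ_nonneg v)
    have hq := qq_pos hm hh hv.2
    rcases lt_or_ge (cs v) 1 with hs1 | hs1
    · have := abs_dvg_Wf_le hm hv.1 hs1
      have : 0 ≤ h * (qq h v * wt (cZ v)) := by positivity
      linarith
    · rw [dvg_Wf_eq_of_ge hh (by linarith) hv.2, abs_of_nonneg (by positivity)]
      have : 0 ≤ 50000 * m * (wt (cZ v) / √(cs v)) := by positivity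
      linarith

end Pool.Agent.Lib.MP_89119d_gt
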