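import Pool.Agent.Lib.MP_89119d_gt.Inst

namespace Pool.Agent.Lib.MP_89119d_gt

open MeasureTheory Set Topology Filter
open scoped ENNReal ContDiff Matrix

variable {m : ℕ}

/-- the calibration inequality on compact sets -/
lemma calK (hm : 10000000 ≤ m) {h : ℝ} (hh : 0 < h) {K : Set (J m → ℝ)} (hK : IsCompact K)
    (hKM : K ⊆ MM m \ SS m) : ∃ C : ℝ, ∀ x ∈ K, ∀ v, nsq (gg m h) x v ≤ dens (gg m h) x ^ 2 →
    fderiv ℝ FF x v ≤ fderiv ℝ FF x (Wf x) + C * |FF x| := by
  have hcont : ContinuousOn (fun x : J m → ℝ => wt (cZ x) * om (cs x) * (20 / √(cs x))) K := by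
    intro x hx
    have hx' := hKM hx
    rw [MM_diff] at hx'
    apply ContinuousAt.continuousWithinAt
    have h1 : ContinuousAt (fun x : J m → ℝ => wt (cZ x)) x :=
      contDiff_wt_comp.continuous.continuousAt
    have h2 : ContinuousAt (fun x : J m → ℝ => om (cs x)) x :=
      (contDiffAt_om_cs hx'.2).continuousAt
    have h3 : ContinuousAt (fun x : J m → ℝ => √(cs x)) x :=
      contDiff_cs.continuous.sqrt.continuousAt
    have h4 : √(cs x) ≠ 0 := (Real.sqrt_pos.mpr hx'.1).ne'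
    exact (h1.mul h2).mul (continuousAt_const.div h3 h4)
  obtain ⟨C, hC⟩ := hK.exists_bound_of_continuousOn hcont
  refine ⟨C, fun x hx v hv => ?_⟩
  have hx' := hKM hx
  rw [MM_diff] at hx'
  obtain ⟨hs, hs'⟩ := hx'
  have hw := wt_pos (cZ_nonneg x)
  have ho := om_pos hs'
  have hp := par_v hs
  have hr0 := hp.r0
  have hr2 := sqrt_sq_lt hs'
  have hrlt := r_lt_two hr2
  obtain ⟨hu1, hu2⟩ := abs_le.mp hp.u1
  have hSp := S2_pos hr2 hp.sq_u
  have hz := ze_ge hr2
  have hzS : ze √(cs x) / S2 √(cs x) (cuv x) ≤ 1 := by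
    rw [div_le_one hSp]; exact ze_le_S2 hp.sq_u
  have hzS0 : 0 ≤ ze √(cs x) / S2 √(cs x) (cuv x) := by positivity
  have h1 := fderiv_FF_le hm hh hs hs' hv
  have h2 := fderiv_FF_Wf (v := x) hs hs'
  have hF : |FF x| = √(cs x) ^ 2 * |cuv x + √(cs x)| := by
    rw [FF_eq hs, abs_mul, abs_of_pos hs, sq_sqrt_cs]
  have hCx : wt (cZ x) * om (cs x) * (20 / √(cs x)) ≤ C := (le_abs_self _).trans (hC x hx)
  -- algebraic estimate
  have key : 2 * √(cs x) * (ze √(cs x) + 3 / 2 * √(cs x) * (cuv x + √(cs x))) -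
      2 * √(cs x) * (ze √(cs x) / S2 √(cs x) (cuv x) * (S2 √(cs x) (cuv x) +
        3 * √(cs x) * (cuv x + √(cs x)) - (cuv x + √(cs x)) ^ 2 / 16)) ≤
      20 / √(cs x) * |FF x| := by
    rw [hF]
    generalize √(cs x) = r at *
    generalize cuv x = u at *
    generalize hkd : ze r / S2 r u = k at *
    have hk : k * S2 r u = ze r := by rw [← hkd]; field_simp
    set V := u + r with hV
    have hVle : |V| ≤ 3 := by rw [abs_le]; constructor <;> linarith
    have e1 : 2 * r * (ze r + 3 / 2 * r * V) - 2 * r * (k * (S2 r u + 3 * r * V - V ^ 2 / 16)) =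
        2 * r * (3 / 2 * r * V - k * (3 * r * V - V ^ 2 / 16)) := by
      have : k * (S2 r u + 3 * r * V - V ^ 2 / 16) = ze r + k * (3 * r * V - V ^ 2 / 16) := by
        rw [← hk]; ring
      rw [this]; ring
    rw [e1]
    have e2 : 20 / r * (r ^ 2 * |V|) = 2 * r * (10 * |V|) := by field_simp; ring
    rw [e2]
    apply mul_le_mul_of_nonneg_left _ (by positivity)
    have hVa : 0 ≤ |V| := abs_nonneg V
    have hV1 : V ≤ |V| := le_abs_self V
    have hV2 : -V ≤ |V| := neg_le_abs V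
    have hVsq : V ^ 2 = |V| * |V| := by rw [← sq, sq_abs]
    have f1 : 3 / 2 * r * V ≤ 3 * |V| := by nlinarith
    have f2 : -(3 * r * V) ≤ 6 * |V| := by nlinarith
    have f3 : V ^ 2 / 16 ≤ |V| := by rw [hVsq]; nlinarith
    have f4 : -(k * (3 * r * V - V ^ 2 / 16)) ≤ 7 * |V| := by
      have g1 : -(3 * r * V - V ^ 2 / 16) ≤ 7 * |V| := by linarith
      have g2 : k * (-(3 * r * V - V ^ 2 / 16)) ≤ k * (7 * |V|) :=
        mul_le_mul_of_nonneg_left g1 hzS0
      have g3 : k * (7 * |V|) ≤ 1 * (7 * |V|) :=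
        mul_le_mul_of_nonneg_right hzS (by positivity)
      linarith
    linarith
  have hwo : 0 ≤ wt (cZ x) * om (cs x) := by positivity
  have h3 := mul_le_mul_of_nonneg_left key hwo
  have h4 : wt (cZ x) * om (cs x) * (20 / √(cs x) * |FF x|) ≤ C * |FF x| := by
    rw [← mul_assoc]
    exact mul_le_mul_of_nonneg_right hCx (abs_nonneg _)
  rw [h2]
  linarith

/-- all the data of the calibration -/
theorem calibData (hm : 10000000 ≤ m) {h : ℝ} (hh : 0 < h) :
    CalibData (MM m) (gg m h) FF Wf h (SS m) et where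
  hg := isRiemannianOn_gg hm hh
  hO := isOpen_MM_diff
  hS := volume_SS (by omega)
  hFc := continuous_FF
  hF := fun x hx => ((contDiffAt_FF hx.2).of_le (by simp)).contDiffWithinAt
  hW := by
    intro x hx
    rw [MM_diff] at hx
    exact (contDiffAt_Wf hx.1 hx.2).contDiffWithinAt
  hW1 := by
    intro x hx
    rw [MM_diff] at hx
    exact nsq_Wf_le hm hh hx.1 hx.2
  hη := contDiff_et
  hηc := fun j => (isCompact_Cj j).of_isClosed_subset (isClosed_tsupport _) (tsupport_et j)
  hηs := by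
    intro j
    rw [MM_diff]
    exact (tsupport_et j).trans (Cj_subset j)
  hη0 := et_nonneg
  hη1 := et_le_one
  hηlim := by
    intro x hx
    rw [MM_diff] at hx
    exact tendsto_et hx.1 hx.2
  hηK := fun K hK hKM => tendsto_cutK (by omega) hK hKM
  hηE := fun E hE hEM hv => tendsto_cutE hm hh hE hEM hv
  hdiv := fun E hE hEM hv => integrableOn_dvg_Wf hm hh hE hEM hv
  hcal := fun K hK hKM => calK hm hh hK hKM
  hpos := by
    intro x hx hF
    rw [MM_diff] at hx
    rw [dens_gg hm hh hx.2]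
    exact le_dvg_Wf hm hh hx.1 hx.2 hF
  hneg := by
    intro x hx hF
    rw [MM_diff] at hx
    rw [dens_gg hm hh hx.2]
    exact dvg_Wf_le hm hh hx.1 hx.2 hF.le

/-! ### volumes -/

lemma cs_lt_one_of_FF_neg {v : J m → ℝ} (hF : FF v < 0) : cs v < 1 := by
  by_contra hcon
  push Not at hcon
  have h1 : 1 ≤ √(cs v) := Real.one_le_sqrt.mpr hcon
  have hA := cA_nonneg v
  have hcs : cs v = cA v + cB v := rfl
  unfold FF at hF
  nlinarith

lemma qq_le (hm : 10000000 ≤ m) {h : ℝ} (hh : 0 < h) {v : J m → ℝ} (hs' : cs v < 1) :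
    qq h v ≤ (3 * m + 400000 * m) / h := by
  have hm' : (10000000 : ℝ) ≤ m := by exact_mod_cast hm
  rcases le_or_gt (cs v) (9 / 400) with hs | hs
  · rw [qq_eq_of_small h hs]
    apply div_le_div_of_nonneg_right _ hh.le
    linarith
  · have hs0 : 0 < cs v := by linarith
    rw [qq_eq h hs0 (by linarith), dWt_of_small hs']
    apply div_le_div_of_nonneg_right _ hh.le
    have hp := par_v hs0
    have hr : 3 / 20 ≤ √(cs v) := by
      apply Real.le_sqrt_of_sq_le
      linarith
    have h1 := abs_d0_le hm' hp.r0 (sqrt_sq_lt (show cs v < 6 / 5 by linarith)) hp.u1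
    have h2 : 50000 * (m : ℝ) / √(cs v) ≤ 400000 * m := by
      rw [div_le_iff₀ hp.r0]
      nlinarith
    have h3 := (le_abs_self (d0 (m : ℝ) √(cs v) (cuv v))).trans (h1.trans h2)
    have h4 := chi_nonneg (cs v)
    have h5 := chi_le_one (cs v)
    have h6 : chi (cs v) * (3 * m - 2) ≤ 3 * m := by nlinarith
    have h7 : (1 - chi (cs v)) * d0 (m : ℝ) √(cs v) (cuv v) ≤ 400000 * m := by
      calc (1 - chi (cs v)) * d0 (m : ℝ) √(cs v) (cuv v) ≤ (1 - chi (cs v)) * (400000 * m) :=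
            mul_le_mul_of_nonneg_left h3 (by linarith)
        _ ≤ 1 * (400000 * m) := mul_le_mul_of_nonneg_right (by linarith) (by positivity)
        _ = 400000 * m := one_mul _
    linarith

lemma vol_Om_lt_top (hm : 10000000 ≤ m) {h : ℝ} (hh : 0 < h) :
    vol (MM m) (gg m h) (Om m) < ⊤ := by
  have hm' : (10000000 : ℝ) ≤ m := by exact_mod_cast hm
  have hsub : Om m ∩ MM m ⊆ {v | cs v < 1} := fun v hv => cs_lt_one_of_FF_neg hv.1.2
  have hmeas : MeasurableSet {v : J m → ℝ | cs v < 1} :=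
    (isOpen_lt contDiff_cs.continuous continuous_const).measurableSet
  set C : ℝ := (3 * m + 400000 * m) / h with hC
  unfold vol
  calc ∫⁻ x in Om m ∩ MM m, ENNReal.ofReal (dens (gg m h) x)
      ≤ ∫⁻ x in {v : J m → ℝ | cs v < 1}, ENNReal.ofReal (dens (gg m h) x) :=
        lintegral_mono_set hsub
    _ ≤ ∫⁻ x in {v : J m → ℝ | cs v < 1}, ENNReal.ofReal (C * wt (cZ x)) := by
        apply setLIntegral_mono' hmeas
        intro x hx
        have hx1 : cs x < 1 := hx
        apply ENNReal.ofReal_le_ofReal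
        rw [dens_gg hm hh (by linarith)]
        exact mul_le_mul_of_nonneg_right (qq_le hm hh hx1) (wt_pos (cZ_nonneg x)).le
    _ < ⊤ := by
        have hint : IntegrableOn (fun v : J m → ℝ => C * wt (cZ v)) {v | cs v < 1} :=
          (integrableOn_wt (by omega) 1).const_mul C
        exact hint.lintegral_lt_top

lemma isOpen_Om : IsOpen (Om m) := isOpen_MM.inter (isOpen_lt continuous_FF continuous_const)

lemma zero_mem_MM : (0 : J m → ℝ) ∈ MM m := by
  change cs (0 : J m → ℝ) < 6 / 5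
  simp [cs, cA, cB]

lemma vol_Om_pos (hm : 10000000 ≤ m) {h : ℝ} (hh : 0 < h) :
    0 < vol (MM m) (gg m h) (Om m) := by
  have hg := isRiemannianOn_gg (m := m) hm hh
  obtain ⟨_, ⟨y, hy, hFy⟩⟩ := exists_pos_neg (m := m) (by omega) zero_mem_MM
    (by simp [FF, cs, cA, cB]) isOpen_MM zero_mem_MM
  exact vol_pos_of_open hg isOpen_Om ⟨y, hy, hFy⟩ (fun x hx => hx.1) subset_rfl

lemma vol_Om_lt (hm : 10000000 ≤ m) {h : ℝ} (hh : 0 < h) :
    vol (MM m) (gg m h) (Om m) < vol (MM m) (gg m h) (MM m) := by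
  have hg := isRiemannianOn_gg (m := m) hm hh
  have hfin := vol_Om_lt_top hm hh
  obtain ⟨⟨y, hy, hFy⟩, _⟩ := exists_pos_neg (m := m) (by omega) zero_mem_MM
    (by simp [FF, cs, cA, cB]) isOpen_MM zero_mem_MM
  have hpos : 0 < vol (MM m) (gg m h) (MM m \ Om m) := by
    apply vol_pos_of_open hg (U := MM m ∩ {v | 0 < FF v})
      (isOpen_MM.inter (isOpen_lt continuous_const continuous_FF)) ⟨y, hy, hFy⟩
      (fun x hx => hx.1)
    intro x hx
    exact ⟨hx.1, fun hcon => lt_asymm hx.2 hcon.2⟩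
  have hsplit : vol (MM m) (gg m h) (MM m) =
      vol (MM m) (gg m h) (Om m) + vol (MM m) (gg m h) (MM m \ Om m) := by
    unfold vol
    have e1 : Om m ∩ MM m = Om m := inter_eq_left.mpr (fun x hx => hx.1)
    have e2 : (MM m \ Om m) ∩ MM m = MM m \ Om m := inter_eq_left.mpr sdiff_subset
    rw [e1, e2, inter_self]
    rw [← lintegral_union (isOpen_MM.measurableSet.diff isOpen_Om.measurableSet)
      disjoint_sdiff_right]
    congr 2
    exact (union_sdiff_cancel (fun x hx => hx.1)).symm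
  rw [hsplit]
  exact ENNReal.lt_add_right hfin.ne hpos.ne'

theorem isIsoperimetricRegion_Om (hm : 10000000 ≤ m) {h : ℝ} (hh : 0 < h) :
    IsIsoperimetricRegion (MM m) (gg m h) (Om m) :=
  (calibData hm hh).isIsoperimetric (vol_Om_pos hm hh) (vol_Om_lt hm hh)

/-! ### mean curvature -/

lemma grad_FF {v : J m → ℝ} (hs : cs v ≠ 0) :
    grad FF v = Sum.elim (fun i => (2 + 3 * √(cs v)) * v (Sum.inl i))
      (Sum.elim (fun j => (3 * √(cs v) - 2) * v (Sum.inr (Sum.inl j))) (fun _ => 0)) := by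
  funext k
  unfold grad
  rw [fderiv_FF hs]
  rcases k with i | j | k
  · simp [Pi.single_apply]
  · simp [Pi.single_apply]
  · simp

lemma Wf_eq_unitNormal (hm : 10000000 ≤ m) {h : ℝ} (hh : 0 < h) {v : J m → ℝ} (hs : 0 < cs v)
    (hs' : cs v < 6 / 5) (hF : FF v = 0) :
    Wf v = dens (gg m h) v • unitNormal (gg m h) FF v := by
  have hP := PP_pos hs'
  have hq := qq_pos hm hh hs'
  have hw := wt_pos (cZ_nonneg v)
  have ho := om_pos hs'
  have hp := par_v hs
  have hr0 := hp.r0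
  have hr2 := sqrt_sq_lt hs'
  have hz0 : 0 < ze √(cs v) := by have := ze_ge hr2; linarith
  have hSp := S2_pos hr2 hp.sq_u
  have hV : cuv v + √(cs v) = 0 := by
    rw [FF_eq hs] at hF
    rcases mul_eq_zero.mp hF with h1 | h1
    · exact absurd h1 hs.ne'
    · exact h1
  have hg1 : cA (grad FF v) + cB (grad FF v) = 4 * cs v * ze √(cs v) := by
    have h1 := sq_grad_FF hs
    rw [hV, mul_zero, add_zero] at h1
    rw [← h1, grad_FF hs.ne']
    simp only [cA, cB, Sum.elim_inl, Sum.elim_inr, mul_pow, Finset.mul_sum]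
  have hg2 : cZ (grad FF v) = 0 := by
    rw [grad_FF hs.ne']
    simp [cZ]
  have hsq : √(4 * cs v * ze √(cs v)) = 2 * √(cs v) * √(ze √(cs v)) := by
    rw [show 4 * cs v * ze √(cs v) = (2 * √(cs v)) ^ 2 * ze √(cs v) by
      rw [mul_pow, sq_sqrt_cs]; ring, Real.sqrt_mul (by positivity),
      Real.sqrt_sq (by positivity)]
  have hPs : √(PP v) = om (cs v) * √(ze √(cs v)) := by
    have : PP v = om (cs v) ^ 2 * ze √(cs v) := by
      unfold PP ze
      rw [sq_sqrt_cs]
    rw [this, Real.sqrt_mul (by positivity), Real.sqrt_sq ho.le]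
  rw [dens_gg hm hh hs', gg, unitNormal_Gm hq hP hw hg2 (by rw [hg1]; positivity), hg1, hsq, hPs,
    smul_smul]
  have hzs : 0 < √(ze √(cs v)) := Real.sqrt_pos.mpr hz0
  have hcoef : qq h v * wt (cZ v) * (om (cs v) * √(ze √(cs v)) /
      (qq h v * (2 * √(cs v) * √(ze √(cs v))))) = wt (cZ v) * om (cs v) / (2 * √(cs v)) := by
    field_simp
  rw [hcoef, grad_FF hs.ne']
  have hu : cuv v = -√(cs v) := by linarith
  have hS2 : S2 √(cs v) (cuv v) = 2 * ze √(cs v) := by
    rw [hu]
    unfold S2 ze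
    ring
  have ha : alp (cA v) (cB v) = (2 + 3 * √(cs v)) / (2 * √(cs v)) := by
    rw [hp.alp hSp.ne', hS2, hu]
    field_simp
    ring
  have hb : bet (cA v) (cB v) = (3 * √(cs v) - 2) / (2 * √(cs v)) := by
    rw [hp.bet hSp.ne', hS2, hu]
    field_simp
    ring
  funext k
  rcases k with i | j | k
  · simp only [Wf, Pi.smul_apply, Sum.elim_inl, smul_eq_mul, ha]
    ring
  · simp only [Wf, Pi.smul_apply, Sum.elim_inl, Sum.elim_inr, smul_eq_mul, hb]
    ring
  · simp only [Wf, Pi.smul_apply, Sum.elim_inr, smul_eq_mul, mul_zero]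

theorem hasConstantMeanCurvature_Om (hm : 10000000 ≤ m) {h : ℝ} (hh : 0 < h) :
    HasConstantMeanCurvature (MM m) (gg m h) (Om m) h := by
  have hm1 : 1 ≤ m := by omega
  have hg := isRiemannianOn_gg (m := m) hm hh
  intro x hx
  have hxb : x ∈ bdry (MM m) (gg m h) (Om m) := hx.1
  have hxM : x ∈ MM m := hxb.1
  have hF : FF x = 0 := (mem_bdry_iff hg hm1 hxM).mp hxb
  have hxs : cs x ≠ 0 := by
    intro h0
    have := mem_singularSet hg hm1 h0
    exact this.2 hx
  have hs : 0 < cs x := lt_of_le_of_ne (cs_nonneg x) (Ne.symm hxs)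
  -- neighbourhood where the differential does not vanish
  let O : Set (J m → ℝ) := (MM m \ SS m) ∩ (fderiv ℝ FF) ⁻¹' {0}ᶜ
  have hFO : ContDiffOn ℝ ∞ (FF : (J m → ℝ) → ℝ) (MM m \ SS m) :=
    fun y hy => (contDiffAt_FF hy.2).contDiffWithinAt
  have hO : IsOpen O :=
    (hFO.continuousOn_fderiv_of_isOpen isOpen_MM_diff (by simp)).isOpen_inter_preimage
      isOpen_MM_diff isOpen_compl_singleton
  have hxO : x ∈ O := ⟨⟨hxM, hxs⟩, fderiv_FF_ne_zero hxs hxM hF⟩
  have hOM : O ⊆ MM m := fun y hy => hy.1.1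
  have hvol0 : ∀ E : Set (J m → ℝ), E = ∅ → vol (MM m) (gg m h) E = 0 := by
    intro E hE
    rw [hE]
    simp [vol]
  constructor
  · refine ⟨FF, hF, O, hO, hxO, hOM, hFO.mono (fun y hy => hy.1), fun y hy => hy.2, ?_, ?_⟩
    · apply hvol0
      ext y
      simp only [mem_inter_iff, Set.mem_sdiff, mem_empty_iff_false, iff_false]
      rintro ⟨_, h1, h2⟩
      exact h2 h1.2
    · apply hvol0
      ext y
      simp only [mem_inter_iff, Set.mem_sdiff, mem_empty_iff_false, iff_false]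
      rintro ⟨h0, h1, h2⟩
      exact h2 ⟨hOM h0, h1⟩
  · intro f hf
    have hW : ContDiffOn ℝ ∞ (Wf : (J m → ℝ) → (J m → ℝ)) O := by
      intro y hy
      have hy1 := hy.1
      rw [MM_diff] at hy1
      exact (contDiffAt_Wf hy1.1 hy1.2).contDiffWithinAt
    have hres := meanCurvature_eq_of_calibration hg (Ω := Om m) hO hxO hOM
      (hFO.mono (fun y hy => hy.1)) (fun y hy => hy.2)
      (by
        ext y
        constructor
        · rintro ⟨h1, h2⟩
          exact ⟨h2, h1.2⟩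
        · rintro ⟨h1, h2⟩
          exact ⟨⟨hOM h1, h2⟩, h1⟩) hF hW
      (by
        intro y hy
        have hy1 := hy.1
        rw [MM_diff] at hy1
        exact nsq_Wf_le hm hh hy1.1 hy1.2)
      (by
        intro y hy hFy
        have hy1 := hy.1
        rw [MM_diff] at hy1
        exact Wf_eq_unitNormal hm hh hy1.1 hy1.2 hFy) hf
    rw [hres]
    have h1 := le_dvg_Wf hm hh hs hxM hF.ge
    have h2 := dvg_Wf_le hm hh hs hxM hF.le
    have h3 : dvg Wf x = h * dens (gg m h) x := by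
      rw [dens_gg hm hh hxM]
      exact le_antisymm h2 h1
    rw [h3]
    have := (dens_pos hg hxM).ne'
    field_simp

end Pool.Agent.Lib.MP_89119d_gt
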