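import Pool.Agent.Lib.MP_89119d_gt.Fld

namespace Pool.Agent.Lib.MP_89119d_gt

open MeasureTheory Set Topology Filter
open scoped ENNReal ContDiff Matrix

variable {m : ℕ}

/-! ### the cutoff `χ` -/

lemma chi_nonneg (s : ℝ) : 0 ≤ chi s := Real.smoothTransition.nonneg _

lemma chi_le_one (s : ℝ) : chi s ≤ 1 := Real.smoothTransition.le_one _

lemma chi_eq_one {s : ℝ} (hs : s ≤ 9 / 400) : chi s = 1 := by
  apply Real.smoothTransition.one_of_one_le
  rw [le_div_iff₀ (by norm_num)]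
  linarith

lemma chi_eq_zero {s : ℝ} (hs : 1 / 36 ≤ s) : chi s = 0 := by
  apply Real.smoothTransition.zero_of_nonpos
  apply div_nonpos_of_nonpos_of_nonneg
  · linarith
  · norm_num

lemma contDiff_chi {n : ℕ∞} : ContDiff ℝ n chi := by
  unfold chi
  exact Real.smoothTransition.contDiff.comp ((contDiff_const.sub contDiff_id).div_const _)

/-! ### the variables `r` and `u` of a point -/

/-- `u = (|x|² - |y|²) / r²` -/
noncomputable def cuv (v : J m → ℝ) : ℝ := (cA v - cB v) / cs v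

/-- `div W / w` -/
noncomputable def dWt (v : J m → ℝ) : ℝ := om (cs v) * d0 m √(cs v) (cuv v) +
      2 * omd (cs v) * e0 √(cs v) (cuv v)

lemma par_v {v : J m → ℝ} (hs : 0 < cs v) : Par (cA v) (cB v) √(cs v) (cuv v) :=
  par_of (cA_nonneg v) (cB_nonneg v) (show 0 < cA v + cB v from hs)

lemma sq_sqrt_cs (v : J m → ℝ) : √(cs v) ^ 2 = cs v := Real.sq_sqrt (cs_nonneg v)

lemma sqrt_sq_lt {v : J m → ℝ} (hs' : cs v < 6 / 5) : √(cs v) ^ 2 < 6 / 5 := by
  rw [sq_sqrt_cs]; exact hs'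

lemma dvg_Wf' {v : J m → ℝ} (hs : 0 < cs v) (hs' : cs v < 6 / 5) :
    dvg Wf v = wt (cZ v) * dWt v := dvg_Wf hs hs'

lemma FF_eq {v : J m → ℝ} (hs : 0 < cs v) : FF v = cs v * (cuv v + √(cs v)) := by
  unfold FF cuv
  field_simp

lemma dWt_of_small {v : J m → ℝ} (hs : cs v < 1) : dWt v = d0 m √(cs v) (cuv v) := by
  unfold dWt
  rw [om_eq_one hs.le, omd_of_lt_one hs]
  ring

lemma dWt_pos (hm : 10000000 ≤ m) {v : J m → ℝ} (hs : 9 / 400 ≤ cs v) (hs' : cs v < 6 / 5) :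
    0 < dWt v := by
  have hs0 : 0 < cs v := by linarith
  have hp := par_v hs0
  have hr2 := sqrt_sq_lt hs'
  have hm' : (10000000 : ℝ) ≤ m := by exact_mod_cast hm
  have hr : 3 / 20 ≤ √(cs v) := by
    apply Real.le_sqrt_of_sq_le
    linarith
  have h1 : 0 < d0 m √(cs v) (cuv v) := d0_pos hm' hr hr2 hp.u1
  have h2 : 0 < om (cs v) := om_pos hs'
  unfold dWt
  have h3 : 0 ≤ 2 * omd (cs v) * e0 √(cs v) (cuv v) := by
    rcases lt_or_ge (cs v) 1 with h | h
    · rw [omd_of_lt_one h]; simp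
    · have : 1 / 1000 ≤ e0 √(cs v) (cuv v) :=
        e0_ge (by rw [Real.one_le_sqrt]; exact h) hr2 hp.u1
      have := omd_nonneg (cs v)
      positivity
  have : 0 < om (cs v) * d0 m √(cs v) (cuv v) := mul_pos h2 h1
  linarith

/-- the two weights are related to the divergence -/
lemma qq_eq (h : ℝ) {v : J m → ℝ} (hs : 0 < cs v) (hs' : cs v < 6 / 5) :
    qq h v = (chi (cs v) * (3 * m - 2) + (1 - chi (cs v)) * dWt v) / h := by
  unfold qq
  rw [dvg_Wf' hs hs']
  have := (wt_pos (cZ_nonneg v)).ne'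
  congr 3
  field_simp

lemma qq_eq_of_small (h : ℝ) {v : J m → ℝ} (hs : cs v ≤ 9 / 400) :
    qq h v = (3 * m - 2) / h := by
  unfold qq
  rw [chi_eq_one hs]
  ring

lemma qq_pos (hm : 10000000 ≤ m) {h : ℝ} (hh : 0 < h) {v : J m → ℝ} (hs' : cs v < 6 / 5) :
    0 < qq h v := by
  have hm' : (10000000 : ℝ) ≤ m := by exact_mod_cast hm
  rcases le_or_gt (cs v) (9 / 400) with hs | hs
  · rw [qq_eq_of_small h hs]
    apply div_pos _ hh
    linarith
  · rw [qq_eq h (by linarith) hs']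
    apply div_pos _ hh
    have h1 := dWt_pos hm hs.le hs'
    have h2 := chi_nonneg (cs v)
    have h3 := chi_le_one (cs v)
    have h4 : 0 < 3 * (m : ℝ) - 2 := by linarith
    rcases eq_or_lt_of_le h2 with h5 | h5
    · rw [← h5]; linarith
    · have : 0 < chi (cs v) * (3 * m - 2) := mul_pos h5 h4
      have : 0 ≤ (1 - chi (cs v)) * dWt v := mul_nonneg (by linarith) h1.le
      linarith

lemma contDiffAt_dvg_Wf {v : J m → ℝ} (hs : 0 < cs v) (hs' : cs v < 6 / 5) :
    ContDiffAt ℝ ∞ (fun v : J m → ℝ => dvg Wf v) v := by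
  unfold dvg
  apply ContDiffAt.sum
  intro i _
  have h1 : ContDiffAt ℝ ∞ (fun y : J m → ℝ => Wf y i) v := contDiffAt_pi.mp (contDiffAt_Wf hs hs') i
  exact (h1.fderiv_right (m := ∞) (by simp)).clm_apply contDiffAt_const

lemma contDiffAt_qq (h : ℝ) {v : J m → ℝ} (hs' : cs v < 6 / 5) :
    ContDiffAt ℝ ∞ (qq h : (J m → ℝ) → ℝ) v := by
  rcases lt_or_ge (cs v) (9 / 400) with hs | hs
  · have : (qq h : (J m → ℝ) → ℝ) =ᶠ[𝓝 v] fun _ => (3 * m - 2) / h := by
      have hopen : IsOpen {v : J m → ℝ | cs v < 9 / 400} :=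
        isOpen_lt contDiff_cs.continuous continuous_const
      filter_upwards [hopen.mem_nhds hs] with y hy
      exact qq_eq_of_small h (le_of_lt hy)
    exact contDiffAt_const.congr_of_eventuallyEq this
  · have hs0 : 0 < cs v := by linarith
    have hchi : ContDiffAt ℝ ∞ (fun v : J m → ℝ => chi (cs v)) v :=
      (contDiff_chi (n := ⊤)).contDiffAt.comp v contDiff_cs.contDiffAt
    have hw : ContDiffAt ℝ ∞ (fun v : J m → ℝ => wt (cZ v)) v := contDiff_wt_comp.contDiffAt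
    have hd := contDiffAt_dvg_Wf hs0 hs'
    have h1 : ContDiffAt ℝ ∞ (fun v : J m → ℝ =>
        (chi (cs v) * (3 * m - 2) + (1 - chi (cs v)) * (dvg Wf v / wt (cZ v))) / h) v :=
      ((hchi.mul contDiffAt_const).add ((contDiffAt_const.sub hchi).mul
        (hd.div hw (wt_pos (cZ_nonneg v)).ne'))).div_const h
    exact h1

lemma contDiffOn_qq (h : ℝ) : ContDiffOn ℝ ∞ (qq h) (MM m) :=
  fun _ hv => (contDiffAt_qq h hv).contDiffWithinAt

lemma contDiffOn_PP : ContDiffOn ℝ ∞ (PP) (MM m) := by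
  intro v hv
  apply ContDiffAt.contDiffWithinAt
  exact ((contDiffAt_om_cs hv).pow 2).mul
    (contDiffAt_const.sub (contDiffAt_const.mul contDiff_cs.contDiffAt))

lemma PP_pos {v : J m → ℝ} (hs' : cs v < 6 / 5) : 0 < PP v := by
  have := om_pos hs'
  unfold PP
  have : 0 < 1 - 3 / 4 * cs v := by linarith
  positivity

/-- sign of `div W - H ρ` outside the region -/
lemma le_dvg_Wf (hm : 10000000 ≤ m) {h : ℝ} (hh : 0 < h) {v : J m → ℝ} (hs : 0 < cs v)
    (hs' : cs v < 6 / 5) (hF : 0 ≤ FF v) : h * (qq h v * wt (cZ v)) ≤ dvg Wf v := by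
  have hm' : (10000000 : ℝ) ≤ m := by exact_mod_cast hm
  rw [dvg_Wf' hs hs', qq_eq h hs hs']
  have hw := wt_pos (cZ_nonneg v)
  have e : h * ((chi (cs v) * (3 * m - 2) + (1 - chi (cs v)) * dWt v) / h * wt (cZ v)) =
      wt (cZ v) * (chi (cs v) * (3 * m - 2) + (1 - chi (cs v)) * dWt v) := by
    field_simp
  rw [e]
  apply mul_le_mul_of_nonneg_left _ hw.le
  rcases le_or_gt (1 / 36) (cs v) with h1 | h1
  · rw [chi_eq_zero h1]; linarith
  · have hp := par_v hs
    obtain ⟨hu1, hu2⟩ := abs_le.mp hp.u1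
    have hr : √(cs v) ≤ 1 / 6 := by
      rw [Real.sqrt_le_left (by norm_num)]
      linarith
    have hd : dWt v = d0 m √(cs v) (cuv v) := dWt_of_small (by linarith)
    rw [FF_eq hs] at hF
    have huv : 0 ≤ cuv v + √(cs v) := by
      by_contra hcon
      push Not at hcon
      have := mul_neg_of_pos_of_neg hs hcon
      linarith
    have h2 := d0_gt hm' hp.r0 hr hu1 hu2 huv
    rw [hd]
    have := chi_nonneg (cs v)
    nlinarith

/-- sign of `div W - H ρ` inside the region -/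
lemma dvg_Wf_le (hm : 10000000 ≤ m) {h : ℝ} (hh : 0 < h) {v : J m → ℝ} (hs : 0 < cs v)
    (hs' : cs v < 6 / 5) (hF : FF v ≤ 0) : dvg Wf v ≤ h * (qq h v * wt (cZ v)) := by
  have hm' : (10000000 : ℝ) ≤ m := by exact_mod_cast hm
  rw [dvg_Wf' hs hs', qq_eq h hs hs']
  have hw := wt_pos (cZ_nonneg v)
  have e : h * ((chi (cs v) * (3 * m - 2) + (1 - chi (cs v)) * dWt v) / h * wt (cZ v)) =
      wt (cZ v) * (chi (cs v) * (3 * m - 2) + (1 - chi (cs v)) * dWt v) := by
    field_simp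
  rw [e]
  apply mul_le_mul_of_nonneg_left _ hw.le
  rcases le_or_gt (1 / 36) (cs v) with h1 | h1
  · rw [chi_eq_zero h1]; linarith
  · have hp := par_v hs
    obtain ⟨hu1, hu2⟩ := abs_le.mp hp.u1
    have hr : √(cs v) ≤ 1 / 6 := by
      rw [Real.sqrt_le_left (by norm_num)]
      linarith
    have hd : dWt v = d0 m √(cs v) (cuv v) := dWt_of_small (by linarith)
    rw [FF_eq hs] at hF
    have huv : cuv v + √(cs v) ≤ 0 := by
      by_contra hcon
      push Not at hcon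
      have := mul_pos hs hcon
      linarith
    have h2 := d0_lt hm' hp.r0 hr hu1 hu2 huv
    rw [hd]
    have := chi_nonneg (cs v)
    nlinarith

/-- away from the singular set the divergence is `h ρ` -/
lemma dvg_Wf_eq_of_ge {h : ℝ} (hh : 0 < h) {v : J m → ℝ} (hs : 1 / 36 ≤ cs v)
    (hs' : cs v < 6 / 5) : dvg Wf v = h * (qq h v * wt (cZ v)) := by
  have hs0 : 0 < cs v := by linarith
  rw [dvg_Wf' hs0 hs', qq_eq h hs0 hs', chi_eq_zero hs]
  field_simp
  ring

/-- bound of the divergence near the singular set -/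
lemma abs_dvg_Wf_le (hm : 10000000 ≤ m) {v : J m → ℝ} (hs : 0 < cs v) (hs' : cs v < 1) :
    |dvg Wf v| ≤ 50000 * m * (wt (cZ v) / √(cs v)) := by
  have hm' : (10000000 : ℝ) ≤ m := by exact_mod_cast hm
  have hp := par_v hs
  have hw := wt_pos (cZ_nonneg v)
  rw [dvg_Wf' hs (by linarith), dWt_of_small hs', abs_mul, abs_of_pos hw]
  have h1 := abs_d0_le hm' hp.r0 (sqrt_sq_lt (show cs v < 6 / 5 by linarith)) hp.u1
  calc wt (cZ v) * |d0 m √(cs v) (cuv v)| ≤ wt (cZ v) * (50000 * m / √(cs v)) :=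
        mul_le_mul_of_nonneg_left h1 hw.le
    _ = 50000 * m * (wt (cZ v) / √(cs v)) := by ring

end Pool.Agent.Lib.MP_89119d_gt
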